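import Mathlib

/-!
# Harmonic sums over integers coprime to a modulus
-/

open Finset

namespace Pool.Agent.Maynard

/-- harmonic sum over integers coprime to `W` -/
noncomputable def hw (W x : ℕ) : ℝ := ∑ s ∈ (Finset.Icc 1 x).filter (fun s => W.Coprime s), 1 / (s:ℝ)

/-- density of the integers coprime to `W` -/
noncomputable def cW (W : ℕ) : ℝ := (Nat.totient W : ℝ) / W

lemma cW_nonneg (W : ℕ) : 0 ≤ cW W := by unfold cW; positivity

lemma cW_le_one (W : ℕ) : cW W ≤ 1 := by
  unfold cW
  rcases Nat.eq_zero_or_pos W with h | h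
  · simp [h]
  · rw [div_le_one (by exact_mod_cast h)]
    exact_mod_cast Nat.totient_le W

lemma cW_pos {W : ℕ} (hW : 0 < W) : 0 < cW W := by
  unfold cW
  have : 0 < Nat.totient W := Nat.totient_pos.2 hW
  positivity

lemma hw_mono (W : ℕ) {x y : ℕ} (h : x ≤ y) : hw W x ≤ hw W y := by
  unfold hw
  refine Finset.sum_le_sum_of_subset_of_nonneg ?_ fun s _ _ => by positivity
  exact Finset.filter_subset_filter _ (Finset.Icc_subset_Icc_right h)

lemma hw_zero (W : ℕ) : hw W 0 = 0 := by simp [hw]

lemma hw_nonneg (W x : ℕ) : 0 ≤ hw W x := Finset.sum_nonneg fun s _ => by positivity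

lemma hw_step (W n : ℕ) : hw W ((n + 1) * W) = hw W (n * W) +
    ∑ s ∈ (Finset.Ico (n * W + 1) (n * W + 1 + W)).filter (fun s => W.Coprime s), 1 / (s:ℝ) := by
  unfold hw
  have h1 : Finset.Icc 1 ((n + 1) * W) = Finset.Icc 1 (n * W) ∪
      Finset.Ico (n * W + 1) (n * W + 1 + W) := by
    ext s
    simp only [Finset.mem_union, Finset.mem_Icc, Finset.mem_Ico]
    have : (n + 1) * W = n * W + W := by ring
    omega
  rw [h1, Finset.filter_union, Finset.sum_union]
  refine Finset.disjoint_filter_filter ?_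
  rw [Finset.disjoint_left]
  intro s hs hs'
  simp only [Finset.mem_Icc, Finset.mem_Ico] at hs hs'
  omega

lemma block_card (W n : ℕ) :
    ((Finset.Ico (n * W + 1) (n * W + 1 + W)).filter (fun s => W.Coprime s)).card =
      Nat.totient W := Nat.filter_coprime_Ico_eq_totient W (n * W + 1)

lemma block_upper {W n : ℕ} (hW : 0 < W) (hn : 0 < n) :
    ∑ s ∈ (Finset.Ico (n * W + 1) (n * W + 1 + W)).filter (fun s => W.Coprime s), 1 / (s:ℝ) ≤
      cW W / n := by
  have h1 : ∀ s ∈ (Finset.Ico (n * W + 1) (n * W + 1 + W)).filter (fun s => W.Coprime s),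
      1 / (s:ℝ) ≤ 1 / ((n:ℝ) * W) := by
    intro s hs
    simp only [Finset.mem_filter, Finset.mem_Ico] at hs
    have h2 : ((n:ℝ) * W) ≤ s := by exact_mod_cast (show n * W ≤ s by omega)
    have h3 : (0:ℝ) < (n:ℝ) * W := by positivity
    exact one_div_le_one_div_of_le h3 h2
  refine (Finset.sum_le_sum h1).trans (le_of_eq ?_)
  rw [Finset.sum_const, block_card, nsmul_eq_mul, cW]
  field_simp

lemma block_lower {W n : ℕ} (hW : 0 < W) :
    cW W / (n + 1 : ℕ) ≤
    ∑ s ∈ (Finset.Ico (n * W + 1) (n * W + 1 + W)).filter (fun s => W.Coprime s), 1 / (s:ℝ) := by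
  have h1 : ∀ s ∈ (Finset.Ico (n * W + 1) (n * W + 1 + W)).filter (fun s => W.Coprime s),
      1 / (((n + 1 : ℕ):ℝ) * W) ≤ 1 / (s:ℝ) := by
    intro s hs
    simp only [Finset.mem_filter, Finset.mem_Ico] at hs
    have h2 : (s:ℝ) ≤ ((n + 1 : ℕ):ℝ) * W := by
      have : s ≤ (n + 1) * W := by
        have : (n + 1) * W = n * W + W := by ring
        omega
      exact_mod_cast this
    have h3 : (0:ℝ) < (s:ℝ) := by exact_mod_cast (show 0 < s by omega)
    exact one_div_le_one_div_of_le h3 h2
  refine le_trans (le_of_eq ?_) (Finset.sum_le_sum h1)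
  rw [Finset.sum_const, block_card, nsmul_eq_mul, cW]
  push_cast
  field_simp

lemma hw_W_le {W : ℕ} (hW : 0 < W) : hw W W ≤ 1 + Real.log W := by
  have h1 : hw W W ≤ (harmonic W : ℝ) := by
    unfold hw
    rw [harmonic_eq_sum_Icc]
    push_cast
    refine (Finset.sum_le_sum_of_subset_of_nonneg (Finset.filter_subset _ _)
      fun s _ _ => by positivity).trans (le_of_eq ?_)
    exact Finset.sum_congr rfl fun s _ => by rw [one_div]
  exact h1.trans (harmonic_le_one_add_log W)

lemma hw_block_upper {W : ℕ} (hW : 0 < W) (n : ℕ) :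
    hw W ((n + 1) * W) ≤ (1 + Real.log W) + cW W * (harmonic n : ℝ) := by
  induction n with
  | zero => simpa using hw_W_le hW
  | succ n ih =>
    rw [hw_step, harmonic_succ]
    have := block_upper hW (Nat.succ_pos n)
    push_cast
    push_cast at this
    have e : cW W * ((harmonic n : ℝ) + ((n:ℝ) + 1)⁻¹) =
        cW W * (harmonic n : ℝ) + cW W / ((n:ℝ) + 1) := by
      rw [mul_add, div_eq_mul_inv]
    rw [e]
    linarith

lemma hw_block_lower {W : ℕ} (hW : 0 < W) (n : ℕ) :
    cW W * (harmonic n : ℝ) ≤ hw W (n * W) := by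
  induction n with
  | zero => simp [hw_zero]
  | succ n ih =>
    rw [hw_step, harmonic_succ]
    have := block_lower (n := n) hW
    push_cast
    push_cast at this
    have e : cW W * ((harmonic n : ℝ) + ((n:ℝ) + 1)⁻¹) =
        cW W * (harmonic n : ℝ) + cW W / ((n:ℝ) + 1) := by
      rw [mul_add, div_eq_mul_inv]
    rw [e]
    linarith

/-- error constant -/
noncomputable def KW (W : ℕ) : ℝ := 4 + Real.log W

lemma KW_pos {W : ℕ} (hW : 0 < W) : 0 < KW W := by
  unfold KW
  have : 0 ≤ Real.log W := Real.log_natCast_nonneg W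
  linarith

lemma hw_upper {W x : ℕ} (hW : 0 < W) (hx : 0 < x) :
    hw W x ≤ cW W * Real.log x + KW W := by
  set n := x / W with hn
  have h1 : x ≤ (n + 1) * W := by
    have := Nat.div_add_mod x W
    have h2 := Nat.mod_lt x hW
    rw [← hn] at this
    nlinarith
  have h2 := (hw_mono W h1).trans (hw_block_upper hW n)
  have hc := cW_nonneg W
  have hc1 := cW_le_one W
  have hlx : 0 ≤ Real.log x := Real.log_natCast_nonneg x
  have h3 : (harmonic n : ℝ) ≤ 1 + Real.log x := by
    have h4 : n ≤ x := Nat.div_le_self _ _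
    rcases Nat.eq_zero_or_pos n with h5 | h5
    · rw [h5]; simp; linarith
    · refine (harmonic_le_one_add_log n).trans ?_
      have : Real.log n ≤ Real.log x :=
        Real.log_le_log (by exact_mod_cast h5) (by exact_mod_cast h4)
      linarith
  have h5 : cW W * (harmonic n : ℝ) ≤ cW W * (1 + Real.log x) := mul_le_mul_of_nonneg_left h3 hc
  unfold KW
  nlinarith

lemma hw_lower {W x : ℕ} (hW : 0 < W) (hx : 0 < x) :
    cW W * Real.log x - KW W ≤ hw W x := by
  set n := x / W with hn
  have h1 : n * W ≤ x := Nat.div_mul_le_self _ _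
  have h2 := (hw_block_lower hW n).trans (hw_mono W h1)
  have hc := cW_nonneg W
  have hc1 := cW_le_one W
  have hlW : 0 ≤ Real.log W := Real.log_natCast_nonneg W
  have h3 : Real.log x - Real.log W ≤ (harmonic n : ℝ) := by
    have h4 : x < (n + 1) * W := by
      have := Nat.div_add_mod x W
      have h2 := Nat.mod_lt x hW
      rw [← hn] at this
      nlinarith
    have h5 : (x:ℝ) ≤ ((n:ℝ) + 1) * W := by exact_mod_cast h4.le
    have h6 : Real.log x ≤ Real.log (((n:ℝ) + 1) * W) :=
      Real.log_le_log (by exact_mod_cast hx) h5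
    rw [Real.log_mul (by positivity) (by positivity)] at h6
    have h7 : Real.log ((n:ℝ) + 1) ≤ (harmonic n : ℝ) := by
      have := log_add_one_le_harmonic n
      push_cast at this ⊢
      exact this
    linarith
  have h4 := mul_le_mul_of_nonneg_left h3 hc
  unfold KW
  nlinarith

/-- the window sum -/
noncomputable def win (W d a b : ℕ) : ℝ :=
  ∑ s ∈ (Finset.range b).filter (fun s => W.Coprime s ∧ a ≤ d * s ∧ d * s < b), 1 / (s:ℝ)

lemma win_eq {W d a b : ℕ} (hd : 0 < d) (ha : 0 < a) (hab : a ≤ b) :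
    win W d a b = hw W ((b - 1) / d) - hw W ((a - 1) / d) := by
  have h0 : (a - 1) / d ≤ (b - 1) / d := Nat.div_le_div_right (by omega)
  have h1 : (Finset.Icc 1 ((b - 1) / d)).filter (fun s => W.Coprime s) =
      (Finset.Icc 1 ((a - 1) / d)).filter (fun s => W.Coprime s) ∪
      (Finset.range b).filter (fun s => W.Coprime s ∧ a ≤ d * s ∧ d * s < b) := by
    ext s
    simp only [Finset.mem_union, Finset.mem_filter, Finset.mem_Icc, Finset.mem_range]
    have e1 : s ≤ (b - 1) / d ↔ d * s ≤ b - 1 := by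
      rw [Nat.le_div_iff_mul_le hd, mul_comm]
    have e2 : s ≤ (a - 1) / d ↔ d * s ≤ a - 1 := by
      rw [Nat.le_div_iff_mul_le hd, mul_comm]
    rw [e1, e2]
    have e3 : s ≤ d * s := Nat.le_mul_of_pos_left s hd
    constructor
    · rintro ⟨⟨h2, h3⟩, h4⟩
      by_cases h5 : d * s ≤ a - 1
      · exact Or.inl ⟨⟨h2, h5⟩, h4⟩
      · exact Or.inr ⟨by omega, h4, by omega, by omega⟩
    · rintro (⟨⟨h2, h3⟩, h4⟩ | ⟨h2, h3, h4, h5⟩)
      · exact ⟨⟨h2, by omega⟩, h4⟩
      · refine ⟨⟨?_, by omega⟩, h3⟩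
        rcases Nat.eq_zero_or_pos s with h6 | h6
        · rw [h6] at h4; simp at h4; omega
        · exact h6
  unfold win hw
  rw [h1, Finset.sum_union]
  · ring
  · rw [Finset.disjoint_left]
    intro s hs hs'
    simp only [Finset.mem_filter, Finset.mem_Icc] at hs hs'
    have e2 : s ≤ (a - 1) / d ↔ d * s ≤ a - 1 := by
      rw [Nat.le_div_iff_mul_le hd, mul_comm]
    rw [e2] at hs
    omega

/-- error constant for windows -/
noncomputable def KV (W : ℕ) : ℝ := 2 * KW W + 1

lemma KV_pos {W : ℕ} (hW : 0 < W) : 0 < KV W := by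
  unfold KV
  have := KW_pos hW
  linarith

lemma win_upper {W d a b : ℕ} (hW : 0 < W) (hd : 0 < d) (ha : 0 < a) (hab : a ≤ b) :
    win W d a b ≤ cW W * Real.log ((b:ℝ) / a) + KV W := by
  rw [win_eq hd ha hab]
  have hc := cW_nonneg W
  have hc1 := cW_le_one W
  have hK := KW_pos hW
  have hb : 0 < b := lt_of_lt_of_le ha hab
  have ha' : (0:ℝ) < a := by exact_mod_cast ha
  have hb' : (0:ℝ) < b := by exact_mod_cast hb
  have hd' : (0:ℝ) < d := by exact_mod_cast hd
  have hlog : 0 ≤ Real.log ((b:ℝ) / a) := by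
    refine Real.log_nonneg ?_
    rw [le_div_iff₀ ha', one_mul]
    exact_mod_cast hab
  rcases Nat.eq_zero_or_pos ((b - 1) / d) with h1 | h1
  · rw [h1, hw_zero]
    have := hw_nonneg W ((a - 1) / d)
    have h2 : 0 ≤ cW W * Real.log ((b:ℝ) / a) := mul_nonneg hc hlog
    have := KV_pos hW
    linarith
  · have h2 := hw_upper hW h1
    have h3 : Real.log (((b - 1) / d : ℕ) : ℝ) ≤ Real.log b - Real.log d := by
      rw [← Real.log_div hb'.ne' hd'.ne']
      refine Real.log_le_log (by exact_mod_cast h1) ?_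
      rw [le_div_iff₀ hd']
      have : (b - 1) / d * d ≤ b - 1 := Nat.div_mul_le_self _ _
      exact_mod_cast this.trans (by omega)
    have h4 := mul_le_mul_of_nonneg_left h3 hc
    rcases Nat.eq_zero_or_pos ((a - 1) / d) with h5 | h5
    · rw [h5, hw_zero]
      have h6 : a ≤ d := by
        have := (Nat.div_eq_zero_iff).1 h5
        omega
      have h7 : Real.log a ≤ Real.log d := Real.log_le_log ha' (by exact_mod_cast h6)
      have h8 : cW W * (Real.log b - Real.log d) ≤ cW W * Real.log ((b:ℝ) / a) := by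
        rw [Real.log_div hb'.ne' ha'.ne']
        exact mul_le_mul_of_nonneg_left (by linarith) hc
      unfold KV
      linarith
    · have h6 := hw_lower hW h5
      have h7 : Real.log a - Real.log d - 1 ≤ Real.log (((a - 1) / d : ℕ) : ℝ) := by
        have h8 : (a:ℝ) ≤ 2 * (((a - 1) / d : ℕ) : ℝ) * d := by
          have h9 : a ≤ 2 * ((a - 1) / d) * d := by
            have e1 := Nat.div_add_mod (a - 1) d
            have e2 := Nat.mod_lt (a - 1) hd
            have e3 : d * 1 ≤ d * ((a - 1) / d) := Nat.mul_le_mul_left d h5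
            have e4 : a ≤ d * ((a - 1) / d) + d := by omega
            have e5 : 2 * ((a - 1) / d) * d = d * ((a - 1) / d) + d * ((a - 1) / d) := by ring
            rw [e5]
            omega
          exact_mod_cast h9
        have hn : (0:ℝ) < (((a - 1) / d : ℕ) : ℝ) := by exact_mod_cast h5
        have h10 := Real.log_le_log ha' h8
        rw [Real.log_mul (by positivity) hd'.ne', Real.log_mul (by norm_num) hn.ne'] at h10
        have h11 : Real.log 2 ≤ 1 := by have := Real.log_two_lt_d9; linarith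
        linarith
      have h8 := mul_le_mul_of_nonneg_left h7 hc
      have h9 : cW W * (Real.log b - Real.log d) - cW W * (Real.log a - Real.log d - 1) =
          cW W * Real.log ((b:ℝ) / a) + cW W := by
        rw [Real.log_div hb'.ne' ha'.ne']; ring
      unfold KV
      linarith

lemma win_lower {W a b : ℕ} (hW : 0 < W) (ha : 0 < a) (hab : a < b) :
    cW W * Real.log ((b:ℝ) / a) - KV W ≤ win W 1 a b := by
  rw [win_eq one_pos ha hab.le, Nat.div_one, Nat.div_one]
  have hc := cW_nonneg W
  have hc1 := cW_le_one W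
  have hK := KW_pos hW
  have hb : 0 < b := lt_trans ha hab
  have ha' : (0:ℝ) < a := by exact_mod_cast ha
  have hb' : (0:ℝ) < b := by exact_mod_cast hb
  have h1 := hw_lower (x := b - 1) hW (by omega)
  have h2 : Real.log b - 1 ≤ Real.log ((b - 1 : ℕ) : ℝ) := by
    have h3 : (b:ℝ) ≤ 2 * ((b - 1 : ℕ) : ℝ) := by
      have : b ≤ 2 * (b - 1) := by omega
      exact_mod_cast this
    have hn : (0:ℝ) < ((b - 1 : ℕ) : ℝ) := by exact_mod_cast (show 0 < b - 1 by omega)
    have h4 := Real.log_le_log hb' h3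
    rw [Real.log_mul (by norm_num) hn.ne'] at h4
    have h11 : Real.log 2 ≤ 1 := by have := Real.log_two_lt_d9; linarith
    linarith
  have h3 := mul_le_mul_of_nonneg_left h2 hc
  have h4 : hw W (a - 1) ≤ cW W * Real.log a + KW W := by
    rcases Nat.eq_zero_or_pos (a - 1) with h5 | h5
    · rw [h5, hw_zero]
      have : 0 ≤ cW W * Real.log a := mul_nonneg hc (Real.log_natCast_nonneg a)
      linarith
    · have h6 := hw_upper hW h5
      have h7 : Real.log ((a - 1 : ℕ) : ℝ) ≤ Real.log a :=
        Real.log_le_log (by exact_mod_cast h5) (by exact_mod_cast (show a - 1 ≤ a by omega))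
      have := mul_le_mul_of_nonneg_left h7 hc
      linarith
  rw [Real.log_div hb'.ne' ha'.ne']
  unfold KV
  nlinarith

end Pool.Agent.Maynard
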