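import Pool.Agent.Lib.Maynard.Count

/-!
# The prime-weighted sieve sum
-/

open Finset

namespace Pool.Agent.Maynard

/-- `∑_{p ≤ y, p ≡ a mod q} log p` -/
noncomputable def thAP (y q a : ℕ) : ℝ :=
  ∑ p ∈ (Finset.Icc 1 y).filter (fun p => p.Prime ∧ p ≡ a [MOD q]), Real.log p

/-- Bombieri–Vinogradov at level `x^θ`, with a maximum over residues and over `y ≤ x`. -/
def BVHyp (θ : ℝ) : Prop := ∀ A : ℕ, ∃ C : ℝ, 0 < C ∧ ∀ x : ℕ, 3 ≤ x → ∀ a y : ℕ → ℕ,
  (∀ q, (a q).Coprime q) → (∀ q, y q ≤ x) →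
  ∑ q ∈ Finset.Ioc 0 ⌊(x:ℝ) ^ θ⌋₊, |thAP (y q) q (a q) - (y q : ℝ) / Nat.totient q| ≤
    C * x / (Real.log x) ^ A

lemma thAP_congr {q a a' : ℕ} (h : a ≡ a' [MOD q]) (y : ℕ) : thAP y q a = thAP y q a' := by
  unfold thAP
  refine Finset.sum_congr ?_ fun _ _ => rfl
  refine Finset.filter_congr fun p _ => ?_
  constructor
  · rintro ⟨h1, h2⟩; exact ⟨h1, h2.trans h⟩
  · rintro ⟨h1, h2⟩; exact ⟨h1, h2.trans h.symm⟩

/-- discrepancy for one class in `(N+s, 2N+s]` -/
noncomputable def fE (N s Q b : ℕ) : ℝ :=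
  |thAP (2 * N + s) Q b - thAP (N + s) Q b - (N:ℝ) / Nat.totient Q|

lemma exists_bstar (N s Q : ℕ) : ∃ b : ℕ, b.Coprime Q ∧
    ∀ b', b'.Coprime Q → fE N s Q b' ≤ fE N s Q b := by
  classical
  rcases Nat.eq_zero_or_pos Q with hQ | hQ
  · subst hQ
    refine ⟨1, by simp, fun b' hb' => ?_⟩
    have : b' = 1 := by simpa using hb'
    rw [this]
  · have hne : ((Finset.range (Q + 1)).filter (fun b => b.Coprime Q)).Nonempty :=
      ⟨1, by simp; omega⟩
    obtain ⟨b, hb, hmax⟩ := Finset.exists_max_image _ (fE N s Q) hne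
    refine ⟨b, (Finset.mem_filter.1 hb).2, fun b' hb' => ?_⟩
    have h1 : fE N s Q b' = fE N s Q (b' % Q) := by
      unfold fE
      rw [thAP_congr (Nat.mod_modEq b' Q).symm, thAP_congr (Nat.mod_modEq b' Q).symm]
    rw [h1]
    refine hmax _ (Finset.mem_filter.2 ⟨?_, ?_⟩)
    · have := Nat.mod_lt b' hQ
      exact Finset.mem_range.2 (by omega)
    · rw [Nat.coprime_iff_gcd_eq_one, ← Nat.ModEq.gcd_eq (Nat.mod_modEq b' Q).symm]
      exact hb'

/-- the extremal residue -/
noncomputable def bs (N s Q : ℕ) : ℕ := (exists_bstar N s Q).choose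

lemma bs_coprime (N s Q : ℕ) : (bs N s Q).Coprime Q := (exists_bstar N s Q).choose_spec.1

/-- maximal discrepancy -/
noncomputable def EE (N s Q : ℕ) : ℝ := fE N s Q (bs N s Q)

lemma EE_nonneg (N s Q : ℕ) : 0 ≤ EE N s Q := abs_nonneg _

lemma fE_le (N s : ℕ) {Q b : ℕ} (hb : b.Coprime Q) : fE N s Q b ≤ EE N s Q :=
  (exists_bstar N s Q).choose_spec.2 b hb

/-- Sum of the maximal discrepancies. -/
lemma sum_EE_le {θ : ℝ} (hBV : BVHyp θ) (A : ℕ) : ∃ C : ℝ, 0 < C ∧ ∀ N s : ℕ, 1 ≤ N → s ≤ N →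
    ∑ Q ∈ Finset.Ioc 0 ⌊((3 * N : ℕ):ℝ) ^ θ⌋₊, EE N s Q ≤
      C * (3 * N : ℕ) / (Real.log (3 * N : ℕ)) ^ A := by
  obtain ⟨C, hC, h⟩ := hBV A
  refine ⟨2 * C, by positivity, fun N s hN hs => ?_⟩
  have h1 := h (3 * N) (by omega) (fun Q => bs N s Q) (fun _ => 2 * N + s)
    (fun Q => bs_coprime N s Q) (fun _ => by omega)
  have h2 := h (3 * N) (by omega) (fun Q => bs N s Q) (fun _ => N + s)
    (fun Q => bs_coprime N s Q) (fun _ => by omega)
  have h3 : ∑ Q ∈ Finset.Ioc 0 ⌊((3 * N : ℕ):ℝ) ^ θ⌋₊, EE N s Q ≤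
      ∑ Q ∈ Finset.Ioc 0 ⌊((3 * N : ℕ):ℝ) ^ θ⌋₊,
        (|thAP (2 * N + s) Q (bs N s Q) - ((2 * N + s : ℕ) : ℝ) / Nat.totient Q| +
          |thAP (N + s) Q (bs N s Q) - ((N + s : ℕ) : ℝ) / Nat.totient Q|) := by
    refine Finset.sum_le_sum fun Q _ => ?_
    unfold EE fE
    have e : thAP (2 * N + s) Q (bs N s Q) - thAP (N + s) Q (bs N s Q) - (N:ℝ) / Nat.totient Q =
        (thAP (2 * N + s) Q (bs N s Q) - ((2 * N + s : ℕ) : ℝ) / Nat.totient Q) -
        (thAP (N + s) Q (bs N s Q) - ((N + s : ℕ) : ℝ) / Nat.totient Q) := by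
      push_cast
      ring
    rw [e]
    exact abs_sub _ _
  rw [Finset.sum_add_distrib] at h3
  refine h3.trans ((add_le_add h1 h2).trans (le_of_eq ?_))
  ring

/-- `log n` if `n` is prime -/
noncomputable def tht (n : ℕ) : ℝ := if n.Prime then Real.log n else 0

lemma tht_nonneg (n : ℕ) : 0 ≤ tht n := by
  unfold tht
  split_ifs
  · exact Real.log_natCast_nonneg n
  · exact le_rfl

lemma thAP_mono {y y' : ℕ} (h : y ≤ y') (q a : ℕ) : thAP y q a ≤ thAP y' q a := by
  unfold thAP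
  refine Finset.sum_le_sum_of_subset_of_nonneg ?_ fun p _ _ => Real.log_natCast_nonneg p
  exact Finset.filter_subset_filter _ (Finset.Icc_subset_Icc_right h)

lemma sum_tht_eq (N s Q n0 : ℕ) :
    ∑ n ∈ (Finset.Ioc N (2 * N)).filter (fun n => n ≡ n0 [MOD Q]), tht (n + s) =
      thAP (2 * N + s) Q (n0 + s) - thAP (N + s) Q (n0 + s) := by
  have h1 : thAP (2 * N + s) Q (n0 + s) = thAP (N + s) Q (n0 + s) +
      ∑ p ∈ (Finset.Ioc (N + s) (2 * N + s)).filter (fun p => p.Prime ∧ p ≡ n0 + s [MOD Q]),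
        Real.log p := by
    unfold thAP
    rw [← Finset.sum_union]
    · refine Finset.sum_congr ?_ fun _ _ => rfl
      rw [← Finset.filter_union]
      congr 1
      ext p
      simp only [Finset.mem_Icc, Finset.mem_union, Finset.mem_Ioc]
      omega
    · rw [Finset.disjoint_left]
      intro p hp hp'
      simp only [Finset.mem_filter, Finset.mem_Icc, Finset.mem_Ioc] at hp hp'
      omega
  rw [h1, add_sub_cancel_left]
  have h2 : ∑ p ∈ (Finset.Ioc (N + s) (2 * N + s)).filter (fun p => p.Prime ∧ p ≡ n0 + s [MOD Q]),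
        Real.log p =
      ∑ p ∈ (Finset.Ioc (N + s) (2 * N + s)).filter (fun p => p ≡ n0 + s [MOD Q]), tht p := by
    unfold tht
    rw [← Finset.sum_filter, Finset.filter_filter]
    refine Finset.sum_congr ?_ fun _ _ => rfl
    refine Finset.filter_congr fun p _ => and_comm
  rw [h2]
  refine Finset.sum_bij (fun n _ => n + s) (fun n hn => ?_) (fun a _ b _ h => by omega)
    (fun p hp => ?_) (fun n _ => rfl)
  · simp only [Finset.mem_filter, Finset.mem_Ioc] at hn ⊢
    exact ⟨by omega, hn.2.add_right s⟩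
  · simp only [Finset.mem_filter, Finset.mem_Ioc] at hp
    refine ⟨p - s, ?_, by omega⟩
    simp only [Finset.mem_filter, Finset.mem_Ioc]
    refine ⟨by omega, ?_⟩
    have : p - s + s = p := by omega
    have h3 : p - s + s ≡ n0 + s [MOD Q] := by rw [this]; exact hp.2
    exact Nat.ModEq.add_right_cancel' s h3

/-- trivial bound -/
lemma EE_trivial {N s Q : ℕ} (hN : 1 ≤ N) (hs : s ≤ N) (hQ : 0 < Q) (hQN : Q ≤ N) :
    EE N s Q ≤ 2 * Real.log (3 * N : ℕ) * ((N:ℝ) / Q) + (N:ℝ) / Nat.totient Q := by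
  set b := bs N s Q with hb
  -- choose `n0` with `n0 + s ≡ b`
  set n0 := b + s * Q - s with hn0
  have hsQ : s ≤ s * Q := Nat.le_mul_of_pos_right s hQ
  have hbn : n0 + s ≡ b [MOD Q] := by
    have : n0 + s = b + s * Q := by omega
    rw [this]
    simp [Nat.ModEq]
  have h1 := sum_tht_eq N s Q n0
  rw [thAP_congr hbn, thAP_congr hbn] at h1
  have h2 : ∑ n ∈ (Finset.Ioc N (2 * N)).filter (fun n => n ≡ n0 [MOD Q]), tht (n + s) ≤
      Real.log (3 * N : ℕ) * ((N:ℝ) / Q + 1) := by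
    have h3 : ∑ n ∈ (Finset.Ioc N (2 * N)).filter (fun n => n ≡ n0 [MOD Q]), tht (n + s) ≤
        ∑ n ∈ (Finset.Ioc N (2 * N)).filter (fun n => n ≡ n0 [MOD Q]), Real.log (3 * N : ℕ) := by
      refine Finset.sum_le_sum fun n hn => ?_
      simp only [Finset.mem_filter, Finset.mem_Ioc] at hn
      unfold tht
      split_ifs
      · refine Real.log_le_log ?_ ?_
        · exact_mod_cast (show 0 < n + s by omega)
        · exact_mod_cast (show n + s ≤ 3 * N by omega)
      · exact Real.log_natCast_nonneg _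
    rw [Finset.sum_const, nsmul_eq_mul] at h3
    have h4 := (abs_le.1 (count_class N hQ n0)).2
    have h5 : (((Finset.Ioc N (2 * N)).filter (fun n => n ≡ n0 [MOD Q])).card : ℝ) ≤
        (N:ℝ) / Q + 1 := by linarith
    have h6 := mul_le_mul_of_nonneg_right h5 (Real.log_natCast_nonneg (3 * N))
    linarith
  have h3 : 0 ≤ ∑ n ∈ (Finset.Ioc N (2 * N)).filter (fun n => n ≡ n0 [MOD Q]), tht (n + s) :=
    Finset.sum_nonneg fun n _ => tht_nonneg _
  have hQ' : (0:ℝ) < Q := by exact_mod_cast hQ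
  have h4 : (1:ℝ) ≤ (N:ℝ) / Q := by
    rw [le_div_iff₀ hQ', one_mul]
    exact_mod_cast hQN
  have h5 : (0:ℝ) ≤ Real.log (3 * N : ℕ) := Real.log_natCast_nonneg _
  have h6 : (0:ℝ) ≤ (N:ℝ) / Nat.totient Q := by positivity
  unfold EE fE
  rw [← hb, ← h1, abs_le]
  have h7 : Real.log (3 * N : ℕ) * ((N:ℝ) / Q + 1) ≤ 2 * Real.log (3 * N : ℕ) * ((N:ℝ) / Q) := by
    nlinarith
  have h8 : 0 ≤ 2 * Real.log (3 * N : ℕ) * ((N:ℝ) / Q) := by positivity
  constructor <;> linarith

variable {k : ℕ} {P : Finset ℕ}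

lemma m1_w2 (m0 : Fin k) {p : ℕ} (hp : 2 ≤ p) (x : Option (Fin k)) :
    m1 (w2 m0 p) x = if x = none then 1 else if x = some m0 then 0 else 1 / ((p:ℝ) - 1) := by
  have hp2 : (2:ℝ) ≤ p := by exact_mod_cast hp
  have hp1 : (p:ℝ) - 1 ≠ 0 := by linarith
  unfold m1
  rw [Fintype.sum_option]
  cases x with
  | none =>
    simp only [el_none, mul_one, w2, if_true, reduceCtorEq, if_false, Option.some.injEq]
    have : ∑ i : Fin k, (if i = m0 then (0:ℝ) else 1 / ((p:ℝ) - 1)) =
        ∑ i : Fin k, (1 / ((p:ℝ) - 1) - if i = m0 then 1 / ((p:ℝ) - 1) else 0) :=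
      Finset.sum_congr rfl fun i _ => by split_ifs <;> ring
    rw [this, Finset.sum_sub_distrib, Finset.sum_const, Finset.card_univ, Fintype.card_fin,
      nsmul_eq_mul]
    simp only [Finset.sum_ite_eq', Finset.mem_univ, if_true]
    field_simp
    ring
  | some i =>
    simp only [el_some, w2, reduceCtorEq, if_false, mul_zero, zero_add, Option.some.injEq, mul_ite,
      mul_one, Finset.sum_ite_eq, Finset.mem_univ, if_true]

lemma supp_one (m : Col P k) (hP : ∀ p ∈ P, p.Prime) : ∏ p ∈ supp m 1, p = tot m := by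
  unfold supp tot val
  rw [Finset.prod_image (fun p _ q _ h => Subtype.ext h), Finset.prod_filter]
  refine Finset.prod_congr rfl fun p _ => ?_
  have : ¬ (p:ℕ) ∣ 1 := by
    rw [Nat.dvd_one]
    exact (hP p p.2).one_lt.ne'
  by_cases h : m p = none
  · simp [h]
  · simp [h, this]

lemma totient_tot (hP : ∀ p ∈ P, p.Prime) (B : P → Bool) :
    (Nat.totient (val B) : ℝ) = ∏ p : P, (if B p then ((p:ℕ):ℝ) - 1 else 1) := by
  have hsq : Nat.totient (val B) = ∏ p : P, (if B p then (p:ℕ) - 1 else 1) := by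
    unfold val
    have key : ∀ s : Finset P, Nat.totient (∏ p ∈ s, (if B p then (p:ℕ) else 1)) =
        ∏ p ∈ s, (if B p then (p:ℕ) - 1 else 1) := by
      intro s
      classical
      induction s using Finset.induction_on with
      | empty => simp
      | insert p s hps ih =>
        rw [Finset.prod_insert hps, Finset.prod_insert hps, Nat.totient_mul, ih]
        · congr 1
          split_ifs
          · exact Nat.totient_prime (hP p p.2)
          · simp
        · refine Nat.Coprime.prod_right fun q hq => ?_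
          split_ifs
          · rw [Nat.coprime_primes (hP p p.2) (hP q q.2)]
            intro h
            exact hps ((Subtype.ext h : p = q) ▸ hq)
          · exact Nat.coprime_one_right _
          · exact Nat.coprime_one_left _
          · exact Nat.coprime_one_right _
    exact key Finset.univ
  rw [hsq]
  push_cast
  refine Finset.prod_congr rfl fun p _ => ?_
  split_ifs
  · rw [Nat.cast_sub (hP p p.2).one_lt.le]
    simp
  · rfl

/-- The prime-weighted count. -/
theorem theta_model {W K0 R : ℕ} (hS : Setting P W K0 R) {h : Fin k → ℕ} (hsep : Sep P h)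
    {N a : ℕ} (hRN : R ≤ N) (m0 : Fin k) (ha : (a + h m0).Coprime W) (μ : Col P k) :
    |∑ n ∈ (Finset.Ioc N (2 * N)).filter (fun n => n ≡ a [MOD W]),
        tht (n + h m0) * ∏ p : P, el (μ p) (JJ h n p) -
      (N:ℝ) / Nat.totient W * ∏ p : P, m1 (w2 m0 (p:ℕ)) (μ p)| ≤ EE N (h m0) (W * tot μ) := by
  simp_rw [prod_el]
  by_cases hμ : ∃ p : P, μ p = some m0
  · obtain ⟨p, hp⟩ := hμ
    have h1 : ∑ n ∈ (Finset.Ioc N (2 * N)).filter (fun n => n ≡ a [MOD W]),
        tht (n + h m0) * (if ∀ p : P, μ p = none ∨ μ p = JJ h n p then (1:ℝ) else 0) = 0 := by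
      refine Finset.sum_eq_zero fun n hn => ?_
      simp only [Finset.mem_filter, Finset.mem_Ioc] at hn
      by_cases hc : ∀ p : P, μ p = none ∨ μ p = JJ h n p
      · rcases hc p with h2 | h2
        · rw [hp] at h2; exact absurd h2 (by simp)
        · rw [hp] at h2
          have h3 := (JJ_eq_some hsep n p m0).1 h2
          have h4 : tht (n + h m0) = 0 := by
            unfold tht
            rw [if_neg]
            intro hpr
            have h5 := (Nat.prime_dvd_prime_iff_eq (hS.prime p p.2) hpr).1 h3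
            have h6 := hS.le p p.2
            omega
          rw [h4, zero_mul]
      · rw [if_neg hc, mul_zero]
    have h2 : ∏ p : P, m1 (w2 m0 (p:ℕ)) (μ p) = 0 := by
      refine Finset.prod_eq_zero (Finset.mem_univ p) ?_
      rw [m1_w2 m0 (hS.prime p p.2).two_le, hp]
      simp
    rw [h1, h2]
    simpa using EE_nonneg N (h m0) (W * tot μ)
  · push Not at hμ
    obtain ⟨n0, hn0⟩ := conditions_iff hS.prime hsep (Q := W) 1 a (one_dvd W)
      (fun p hp hpW => absurd hpW (hS.ndvd p hp)) μ (fun p hp1 => by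
        exfalso
        rw [Nat.dvd_one] at hp1
        exact (hS.prime p p.2).one_lt.ne' hp1)
    rw [supp_one μ hS.prime] at hn0
    have h1 : ∑ n ∈ (Finset.Ioc N (2 * N)).filter (fun n => n ≡ a [MOD W]),
        tht (n + h m0) * (if ∀ p : P, μ p = none ∨ μ p = JJ h n p then (1:ℝ) else 0) =
        ∑ n ∈ (Finset.Ioc N (2 * N)).filter (fun n => n ≡ n0 [MOD (W * tot μ)]),
          tht (n + h m0) := by
      simp_rw [mul_ite, mul_one, mul_zero]
      rw [← Finset.sum_filter, Finset.filter_filter]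
      refine Finset.sum_congr ?_ fun _ _ => rfl
      exact Finset.filter_congr fun n _ => hn0 n
    have hn0self := (hn0 n0).2 (Nat.ModEq.refl _)
    have hcop : (n0 + h m0).Coprime (W * tot μ) := by
      refine Nat.Coprime.mul_right ?_ ?_
      · rw [Nat.coprime_iff_gcd_eq_one, Nat.ModEq.gcd_eq (hn0self.1.add_right (h m0))]
        exact ha
      · unfold tot val
        refine Nat.Coprime.prod_right fun p _ => ?_
        split_ifs with hp
        · rw [Nat.coprime_comm, (hS.prime p p.2).coprime_iff_not_dvd]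
          intro hdvd
          have h2 : some m0 = JJ h n0 p := (JJ_eq_some hsep n0 p m0).2 hdvd
          rcases hn0self.2 p with h3 | h3
          · simp [h3] at hp
          · exact hμ p (h3.trans h2.symm)
        · exact Nat.coprime_one_right _
    have h2 : (N:ℝ) / Nat.totient W * ∏ p : P, m1 (w2 m0 (p:ℕ)) (μ p) =
        (N:ℝ) / Nat.totient (W * tot μ) := by
      have htc : W.Coprime (tot μ) := val_coprime hS.prime hS.ndvd _
      rw [Nat.totient_mul htc]
      have h3 : ∏ p : P, m1 (w2 m0 (p:ℕ)) (μ p) = ((Nat.totient (tot μ) : ℕ) : ℝ)⁻¹ := by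
        unfold tot
        rw [totient_tot hS.prime, ← Finset.prod_inv_distrib]
        refine Finset.prod_congr rfl fun p _ => ?_
        rw [m1_w2 m0 (hS.prime p p.2).two_le]
        by_cases h4 : μ p = none
        · simp [h4]
        · simp [h4, hμ p]
      rw [h3]
      push_cast
      rw [div_mul_eq_div_div, div_eq_mul_inv _ (Nat.totient (tot μ) : ℝ)]
    rw [h1, h2, sum_tht_eq]
    exact fE_le N (h m0) hcop

end Pool.Agent.Maynard
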