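import Pool.Agent.Lib.Maynard.Output
import Pool.Agent.Lib.ANT.BV

/-! The Bombieri–Vinogradov hypothesis used in the Maynard–Tao library, from `Lib/ANT/BV.lean`;
the unconditional form of `maynard`. -/

open Finset Filter

namespace Pool.Agent.Maynard

theorem bvHyp {θ : ℝ} (hθ : θ < 1/2) : BVHyp θ := by
  intro A
  obtain ⟨C, hC, hbv⟩ := Pool.Agent.ANT.bv_level hθ A
  refine ⟨C, hC, fun x hx a y ha hy => ?_⟩
  have h := hbv (x:ℝ) (by exact_mod_cast hx) (fun q => ((max (y q) 1 : ℕ) : ℝ)) a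
    (fun q => ⟨by exact_mod_cast le_max_right _ _, by
      have := hy q
      have h2 : max (y q) 1 ≤ x := max_le this (by omega)
      exact_mod_cast h2⟩) ha
  refine le_trans (sum_le_sum fun q _ => ?_) h
  unfold thAP Pool.Agent.ANT.thetaAP
  rw [Nat.floor_natCast]
  rcases Nat.eq_zero_or_pos (y q) with h0 | h0
  · rw [h0]
    simp
  · rw [max_eq_left h0]

end Pool.Agent.Maynard
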