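import Pool.Agent.Lib.Maynard.Lam

/-!
# Counting integers with prescribed divisibility conditions
-/

open Finset

namespace Pool.Agent.Maynard

variable {k : ℕ} {P : Finset ℕ}

/-! ### Merging two colourings -/

/-- merge -/
def mg {α : Type*} (x x' : Option α) : Option α := if x = none then x' else x

/-- single density -/
noncomputable def m1 (w : Option (Fin k) → ℝ) (x : Option (Fin k)) : ℝ := ∑ y, w y * el x y

lemma el_mul_compat {x x' : Option (Fin k)} (h : x = none ∨ x' = none ∨ x = x')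
    (y : Option (Fin k)) : el x y * el x' y = el (mg x x') y := by
  by_cases hx : x = none
  · subst hx; simp [el_none, mg]
  · by_cases hx' : x' = none
    · subst hx'; simp [el_none, mg, hx]
    · have : x = x' := by tauto
      subst this
      simp only [mg, if_neg hx]
      unfold el
      split_ifs <;> norm_num

lemma el_mul_incompat {x x' : Option (Fin k)} (h : ¬(x = none ∨ x' = none ∨ x = x'))
    (y : Option (Fin k)) : el x y * el x' y = 0 := by
  push Not at h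
  obtain ⟨h1, h2, h3⟩ := h
  unfold el
  split_ifs with h4 h5
  · exfalso
    rcases h4 with h4 | h4
    · exact h1 h4
    · rcases h5 with h5 | h5
      · exact h2 h5
      · exact h3 (h4.trans h5.symm)
  all_goals norm_num

lemma mm_compat {x x' : Option (Fin k)} (h : x = none ∨ x' = none ∨ x = x')
    (w : Option (Fin k) → ℝ) : mm w x x' = m1 w (mg x x') := by
  unfold mm m1
  exact Finset.sum_congr rfl fun y _ => by rw [el_mul_compat h]

lemma mm_incompat {x x' : Option (Fin k)} (h : ¬(x = none ∨ x' = none ∨ x = x'))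
    (w : Option (Fin k) → ℝ) : mm w x x' = 0 := by
  unfold mm
  exact Finset.sum_eq_zero fun y _ => by rw [el_mul_incompat h, mul_zero]

/-- Reduction of the comparison hypothesis to single colourings. -/
lemma compare_hyp {α : Type*} (A : Finset α) (θ : α → ℝ) (J : α → Col P k) (X : ℝ)
    (w : P → Option (Fin k) → ℝ) (E : Col P k → ℝ) (hE : ∀ m, 0 ≤ E m) (z z' : Col P k)
    (h : (∀ p, z p = none ∨ z' p = none ∨ z p = z' p) →
      |∑ n ∈ A, θ n * ∏ p : P, el (mg (z p) (z' p)) (J n p) -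
      X * ∏ p : P, m1 (w p) (mg (z p) (z' p))| ≤ E (fun p => mg (z p) (z' p))) :
    |∑ n ∈ A, θ n * ∏ p : P, (el (z p) (J n p) * el (z' p) (J n p)) -
      X * ∏ p : P, mm (w p) (z p) (z' p)| ≤ E (fun p => mg (z p) (z' p)) := by
  by_cases hc : ∀ p, z p = none ∨ z' p = none ∨ z p = z' p
  · have h1 := h hc
    have e1 : ∀ n, ∏ p : P, (el (z p) (J n p) * el (z' p) (J n p)) =
        ∏ p : P, el (mg (z p) (z' p)) (J n p) := fun n =>
      Finset.prod_congr rfl fun p _ => el_mul_compat (hc p) _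
    have e2 : ∏ p : P, mm (w p) (z p) (z' p) = ∏ p : P, m1 (w p) (mg (z p) (z' p)) :=
      Finset.prod_congr rfl fun p _ => mm_compat (hc p) _
    simp_rw [e1]
    rw [e2]
    exact h1
  · push Not at hc
    obtain ⟨p, hp⟩ := hc
    have hp' : ¬(z p = none ∨ z' p = none ∨ z p = z' p) := by
      push Not; exact hp
    have e1 : ∀ n, ∏ p : P, (el (z p) (J n p) * el (z' p) (J n p)) = 0 := fun n =>
      Finset.prod_eq_zero (Finset.mem_univ p) (el_mul_incompat hp' _)
    have e2 : ∏ p : P, mm (w p) (z p) (z' p) = 0 :=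
      Finset.prod_eq_zero (Finset.mem_univ p) (mm_incompat hp' _)
    simp_rw [e1]
    rw [e2]
    simpa using hE _

/-! ### The colouring of an integer -/

/-- shifts separated modulo every prime of `P` -/
def Sep (P : Finset ℕ) (h : Fin k → ℕ) : Prop :=
  ∀ p ∈ P, ∀ i j, i ≠ j → ¬ (h i ≡ h j [MOD p])

open Classical in
/-- the colouring of `n` -/
noncomputable def JJ (h : Fin k → ℕ) (n : ℕ) : Col P k := fun p =>
  if hh : ∃ i, (p:ℕ) ∣ n + h i then some hh.choose else none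

lemma JJ_eq_some {h : Fin k → ℕ} (hsep : Sep P h) (n : ℕ) (p : P) (i : Fin k) :
    some i = JJ h n p ↔ (p:ℕ) ∣ n + h i := by
  unfold JJ
  constructor
  · intro h1
    split_ifs at h1 with hh
    have h2 : i = hh.choose := Option.some.inj h1
    rw [h2]
    exact hh.choose_spec
  · intro h1
    have hh : ∃ i, (p:ℕ) ∣ n + h i := ⟨i, h1⟩
    rw [dif_pos hh]
    congr 1
    by_contra hne
    apply hsep p p.2 _ _ hne
    have h2 := hh.choose_spec
    have h3 : n + h i ≡ n + h hh.choose [MOD p] :=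
      ((Nat.modEq_zero_iff_dvd.2 h1).trans (Nat.modEq_zero_iff_dvd.2 h2).symm)
    exact Nat.ModEq.add_left_cancel' n h3

lemma JJ_congr {h : Fin k → ℕ} (hsep : Sep P h) {n n' : ℕ} {p : P} (hn : n ≡ n' [MOD p]) :
    JJ h n p = JJ h n' p := by
  have key : ∀ i, some i = JJ h n p ↔ some i = JJ h n' p := by
    intro i
    rw [JJ_eq_some hsep, JJ_eq_some hsep]
    exact Nat.ModEq.dvd_iff (hn.add_right (h i)) dvd_rfl
  cases h1 : JJ h n' p with
  | none =>
    cases h2 : JJ h n p with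
    | none => rfl
    | some i =>
      have := (key i).1 h2.symm
      rw [h1] at this
      exact this
  | some i => exact ((key i).2 h1.symm).symm

/-- the primes coloured by `m` and not dividing `q` -/
def supp (m : Col P k) (q : ℕ) : Finset ℕ :=
  (Finset.univ.filter (fun p : P => m p ≠ none ∧ ¬ (p:ℕ) ∣ q)).image Subtype.val

/-! ### CRT -/

lemma crt_iff (S : Finset ℕ) (hS : ∀ p ∈ S, p.Prime) {Q : ℕ} (hQ : ∀ p ∈ S, ¬ p ∣ Q) (a : ℕ)
    (r : ℕ → ℕ) : ∃ n0 : ℕ, ∀ n : ℕ, (n ≡ a [MOD Q] ∧ ∀ p ∈ S, n ≡ r p [MOD p]) ↔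
      n ≡ n0 [MOD (Q * ∏ p ∈ S, p)] := by
  classical
  induction S using Finset.induction_on with
  | empty => exact ⟨a, fun n => by simp⟩
  | insert p S hp ih =>
    obtain ⟨n1, hn1⟩ := ih (fun q hq => hS q (Finset.mem_insert_of_mem hq))
      (fun q hq => hQ q (Finset.mem_insert_of_mem hq))
    have hpp := hS p (Finset.mem_insert_self _ _)
    have hco : (Q * ∏ q ∈ S, q).Coprime p := by
      rw [Nat.coprime_comm, hpp.coprime_iff_not_dvd]
      rw [hpp.dvd_mul]
      rintro (h | h)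
      · exact hQ p (Finset.mem_insert_self _ _) h
      · rw [hpp.prime.dvd_finsetProd_iff] at h
        obtain ⟨q, hq, hpq⟩ := h
        have := (Nat.prime_dvd_prime_iff_eq hpp (hS q (Finset.mem_insert_of_mem hq))).1 hpq
        rw [this] at hp
        exact hp hq
    obtain ⟨n0, h1, h2⟩ := Nat.chineseRemainder hco n1 (r p)
    refine ⟨n0, fun n => ?_⟩
    rw [Finset.prod_insert hp, show Q * (p * ∏ q ∈ S, q) = (Q * ∏ q ∈ S, q) * p by ring,
      ← Nat.modEq_and_modEq_iff_modEq_mul hco]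
    constructor
    · rintro ⟨h3, h4⟩
      refine ⟨((hn1 n).1 ⟨h3, fun q hq => h4 q (Finset.mem_insert_of_mem hq)⟩).trans h1.symm, ?_⟩
      exact (h4 p (Finset.mem_insert_self _ _)).trans h2.symm
    · rintro ⟨h3, h4⟩
      have h5 := (hn1 n).2 (h3.trans h1)
      refine ⟨h5.1, fun q hq => ?_⟩
      rcases Finset.mem_insert.1 hq with rfl | hq
      · exact h4.trans h2
      · exact h5.2 q hq

lemma count_class (N : ℕ) {m : ℕ} (hm : 0 < m) (n0 : ℕ) :
    |(((Finset.Ioc N (2 * N)).filter (fun n => n ≡ n0 [MOD m])).card : ℝ) - (N:ℝ) / m| ≤ 1 := by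
  have h1 := Nat.Ioc_filter_modEq_card (a := N) (b := 2 * N) hm n0
  set c := ((Finset.Ioc N (2 * N)).filter (fun n => n ≡ n0 [MOD m])).card with hc
  have hm' : (0:ℚ) < m := by exact_mod_cast hm
  have hle : ⌊((N:ℚ) - n0) / m⌋ ≤ ⌊(((2 * N : ℕ) : ℚ) - n0) / m⌋ := by
    refine Int.floor_le_floor ?_
    refine div_le_div_of_nonneg_right ?_ hm'.le
    push_cast
    have : (0:ℚ) ≤ N := Nat.cast_nonneg N
    linarith
  rw [max_eq_left (sub_nonneg.2 hle)] at h1
  have h2 : (c:ℚ) = (⌊(((2 * N : ℕ) : ℚ) - n0) / m⌋ : ℚ) - (⌊((N:ℚ) - n0) / m⌋ : ℚ) := by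
    exact_mod_cast h1
  have h3 := Int.floor_le ((((2 * N : ℕ) : ℚ) - n0) / m)
  have h4 := Int.lt_floor_add_one ((((2 * N : ℕ) : ℚ) - n0) / m)
  have h5 := Int.floor_le (((N:ℚ) - n0) / m)
  have h6 := Int.lt_floor_add_one (((N:ℚ) - n0) / m)
  have h7 : (((2 * N : ℕ) : ℚ) - n0) / m - ((N:ℚ) - n0) / m = (N:ℚ) / m := by
    push_cast
    ring
  have h8 : |(c:ℚ) - (N:ℚ) / m| ≤ 1 := by
    rw [abs_le]
    constructor <;> linarith
  have h9 : |((c:ℚ):ℝ) - ((N:ℚ):ℝ) / ((m:ℚ):ℝ)| ≤ 1 := by exact_mod_cast h8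
  simpa using h9

/-- the residue attached to the colour -/
noncomputable def rr (h : Fin k → ℕ) (m : Col P k) (p : ℕ) : ℕ :=
  if hp : p ∈ P then (match m ⟨p, hp⟩ with
    | none => 0
    | some i => p * h i - h i) else 0

lemma rr_iff {h : Fin k → ℕ} {m : Col P k} {p : P} (hp1 : 1 ≤ (p:ℕ)) {i : Fin k}
    (hm : m p = some i) (n : ℕ) : n ≡ rr h m p [MOD p] ↔ (p:ℕ) ∣ n + h i := by
  have h1 : rr h m p = p * h i - h i := by
    unfold rr
    rw [dif_pos p.2]
    have : (⟨(p:ℕ), p.2⟩ : P) = p := rfl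
    rw [this, hm]
  rw [h1, ← Nat.modEq_zero_iff_dvd]
  have h2 : h i ≤ p * h i := Nat.le_mul_of_pos_left _ hp1
  have h3 : (p * h i - h i) + h i ≡ 0 [MOD p] := by
    rw [Nat.sub_add_cancel h2]
    exact Nat.modEq_zero_iff_dvd.2 (dvd_mul_right _ _)
  constructor
  · intro h4
    exact (h4.add_right (h i)).trans h3
  · intro h4
    exact Nat.ModEq.add_right_cancel' (h i) (h4.trans h3.symm)

lemma mem_supp {m : Col P k} {q : ℕ} {p : ℕ} :
    p ∈ supp m q ↔ ∃ hp : p ∈ P, m ⟨p, hp⟩ ≠ none ∧ ¬ p ∣ q := by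
  unfold supp
  simp only [Finset.mem_image, Finset.mem_filter, Finset.mem_univ, true_and, Subtype.exists,
    exists_and_right, exists_eq_right]

/-- The conditions encoded by a colouring form one residue class. -/
lemma conditions_iff (hP : ∀ p ∈ P, p.Prime) {h : Fin k → ℕ} (hsep : Sep P h) {Q : ℕ}
    (q a : ℕ) (hqQ : q ∣ Q) (hQq : ∀ p ∈ P, p ∣ Q → p ∣ q)
    (m : Col P k) (hm : ∀ p : P, (p:ℕ) ∣ q → m p = none ∨ m p = JJ h a p) :
    ∃ n0 : ℕ, ∀ n : ℕ, (n ≡ a [MOD Q] ∧ ∀ p : P, m p = none ∨ m p = JJ h n p) ↔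
      n ≡ n0 [MOD (Q * ∏ p ∈ supp m q, p)] := by
  obtain ⟨n0, hn0⟩ := crt_iff (supp m q) (fun p hp => by
    obtain ⟨h1, _⟩ := mem_supp.1 hp
    exact hP p h1) (Q := Q) (fun p hp => by
    obtain ⟨h1, h2, h3⟩ := mem_supp.1 hp
    exact fun h4 => h3 (hQq p h1 h4)) a (rr h m)
  refine ⟨n0, fun n => ?_⟩
  rw [← hn0]
  constructor
  · rintro ⟨h1, h2⟩
    refine ⟨h1, fun p hp => ?_⟩
    obtain ⟨hpP, h3, h4⟩ := mem_supp.1 hp
    rcases h2 ⟨p, hpP⟩ with h5 | h5
    · exact absurd h5 h3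
    · obtain ⟨i, hi⟩ := Option.ne_none_iff_exists.1 h3
      rw [rr_iff (p := ⟨p, hpP⟩) (hP p hpP).one_lt.le hi.symm]
      rw [← JJ_eq_some hsep, ← h5]
      exact hi
  · rintro ⟨h1, h2⟩
    refine ⟨h1, fun p => ?_⟩
    by_cases h3 : m p = none
    · exact Or.inl h3
    · right
      obtain ⟨i, hi⟩ := Option.ne_none_iff_exists.1 h3
      by_cases h4 : (p:ℕ) ∣ q
      · rcases hm p h4 with h5 | h5
        · exact absurd h5 h3
        · rw [h5]
          refine JJ_congr hsep ?_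
          exact (h1.of_dvd (h4.trans hqQ)).symm
      · have h5 := h2 p (mem_supp.2 ⟨p.2, h3, h4⟩)
        rw [rr_iff (hP p p.2).one_lt.le hi.symm] at h5
        rw [← hi]
        exact (JJ_eq_some hsep n p i).2 h5

lemma prod_el (m y : Col P k) :
    ∏ p : P, el (m p) (y p) = if ∀ p : P, m p = none ∨ m p = y p then 1 else 0 := by
  split_ifs with h
  · refine Finset.prod_eq_one fun p _ => ?_
    unfold el
    rw [if_pos (h p)]
  · push Not at h
    obtain ⟨p, hp⟩ := h
    refine Finset.prod_eq_zero (Finset.mem_univ p) ?_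
    unfold el
    rw [if_neg]
    tauto

lemma prod_supp (m : Col P k) (q : ℕ) :
    ((∏ p ∈ supp m q, p : ℕ) : ℝ) =
      ∏ p : P, (if m p ≠ none ∧ ¬ (p:ℕ) ∣ q then ((p:ℕ):ℝ) else 1) := by
  unfold supp
  rw [Finset.prod_image (fun p _ q _ h => Subtype.ext h)]
  push_cast
  rw [← Finset.prod_filter]

lemma m1_w1 {p : ℕ} (x : Option (Fin k)) :
    m1 (w1 k p) x = if x = none then 1 else 1 / (p:ℝ) := by
  unfold m1
  rw [Fintype.sum_option]
  cases x with
  | none =>
    simp only [el_none, mul_one, w1, if_true, reduceCtorEq, if_false]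
    rw [Finset.sum_const, Finset.card_univ, Fintype.card_fin, nsmul_eq_mul]
    ring
  | some i =>
    simp only [el_some, w1, reduceCtorEq, if_false, mul_zero, zero_add, Option.some.injEq, mul_ite,
      mul_one, Finset.sum_ite_eq, Finset.mem_univ, if_true]

lemma m1_wpt (j x : Option (Fin k)) : m1 (wpt j) x = el x j := by
  unfold m1 wpt
  simp

/-- The count. -/
theorem count_model (hP : ∀ p ∈ P, p.Prime) {h : Fin k → ℕ} (hsep : Sep P h) {W q : ℕ}
    (hW : 0 < W) (hq : 0 < q) (hWP : ∀ p ∈ P, ¬ p ∣ W) (N a : ℕ) (m : Col P k) :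
    |∑ n ∈ (Finset.Ioc N (2 * N)).filter (fun n => n ≡ a [MOD (W * q)]),
        (1:ℝ) * ∏ p : P, el (m p) (JJ h n p) -
      (N:ℝ) / (W * q : ℕ) * ∏ p : P, m1 (wq q (JJ h a) p) (m p)| ≤ 1 := by
  have hQq : ∀ p ∈ P, p ∣ W * q → p ∣ q := by
    intro p hp hpQ
    rcases (hP p hp).dvd_mul.1 hpQ with h1 | h1
    · exact absurd h1 (hWP p hp)
    · exact h1
  simp_rw [one_mul, prod_el]
  by_cases hm : ∀ p : P, (p:ℕ) ∣ q → m p = none ∨ m p = JJ h a p
  · obtain ⟨n0, hn0⟩ := conditions_iff hP hsep (Q := W * q) q a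
      (dvd_mul_left q W) hQq m hm
    have h1 : ∑ n ∈ (Finset.Ioc N (2 * N)).filter (fun n => n ≡ a [MOD (W * q)]),
        (if ∀ p : P, m p = none ∨ m p = JJ h n p then (1:ℝ) else 0) =
        (((Finset.Ioc N (2 * N)).filter
          (fun n => n ≡ n0 [MOD (W * q * ∏ p ∈ supp m q, p)])).card : ℝ) := by
      rw [← Finset.sum_filter, Finset.filter_filter, Finset.sum_const, nsmul_eq_mul, mul_one]
      congr 2
      refine Finset.filter_congr fun n _ => ?_
      exact hn0 n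
    have hpos : 0 < ∏ p ∈ supp m q, p := Finset.prod_pos fun p hp => by
      obtain ⟨h2, _⟩ := mem_supp.1 hp
      exact (hP p h2).pos
    have h2 : (N:ℝ) / (W * q : ℕ) * ∏ p : P, m1 (wq q (JJ h a) p) (m p) =
        (N:ℝ) / (W * q * ∏ p ∈ supp m q, p : ℕ) := by
      have h3 : ∏ p : P, m1 (wq q (JJ h a) p) (m p) = ((∏ p ∈ supp m q, p : ℕ) : ℝ)⁻¹ := by
        rw [prod_supp, ← Finset.prod_inv_distrib]
        refine Finset.prod_congr rfl fun p _ => ?_
        unfold wq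
        by_cases h4 : (p:ℕ) ∣ q
        · rw [if_pos h4, m1_wpt]
          unfold el
          rw [if_pos (hm p h4)]
          simp [h4]
        · rw [if_neg h4, m1_w1]
          by_cases h5 : m p = none
          · simp [h5]
          · simp [h4, h5]
      rw [h3]
      push_cast
      rw [div_mul_eq_div_div ((N:ℝ)) ((W:ℝ) * q), div_eq_mul_inv _ (∏ p ∈ supp m q, (p:ℝ))]
    rw [h1, h2]
    exact count_class N (by positivity) n0
  · push Not at hm
    obtain ⟨p, hpq, hp1, hp2⟩ := hm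
    have h1 : ∑ n ∈ (Finset.Ioc N (2 * N)).filter (fun n => n ≡ a [MOD (W * q)]),
        (if ∀ p : P, m p = none ∨ m p = JJ h n p then (1:ℝ) else 0) = 0 := by
      refine Finset.sum_eq_zero fun n hn => ?_
      rw [if_neg]
      intro hcon
      have h2 : n ≡ a [MOD p] :=
        (Finset.mem_filter.1 hn).2.of_dvd (hpq.trans (dvd_mul_left q W))
      rcases hcon p with h3 | h3
      · exact hp1 h3
      · rw [JJ_congr hsep h2] at h3
        exact hp2 h3
    have h2 : ∏ p : P, m1 (wq q (JJ h a) p) (m p) = 0 := by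
      refine Finset.prod_eq_zero (Finset.mem_univ p) ?_
      unfold wq
      rw [if_pos hpq, m1_wpt]
      unfold el
      rw [if_neg]
      tauto
    rw [h1, h2]
    simp

/-- Sum of `G²` over an arithmetic progression. -/
theorem sum_GG_le {W K0 R Z T M : ℕ} (hS : Setting P W K0 R)
    (hZ : 2 ≤ Z) {h : Fin k → ℕ} (hsep : Sep P h) {q : ℕ}
    (hW : 0 < W) (hq : 0 < q) (N a : ℕ) {B : ℝ} (hB : ∀ j : Col P k, EG (wq q j) (cc Z T M) ≤ B) :
    ∑ n ∈ (Finset.Ioc N (2 * N)).filter (fun n => n ≡ a [MOD (W * q)]),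
        GG (cc Z T M) (JJ (P := P) h n) ^ 2 ≤
      (N:ℝ) / (W * q : ℕ) * B + ((Z:ℝ) ^ M * LL R ^ (4 * k)) ^ 2 := by
  have h1 := compare (wq q (JJ (P := P) h a)) (cc Z T M)
    ((Finset.Ioc N (2 * N)).filter (fun n => n ≡ a [MOD (W * q)])) (fun _ => (1:ℝ))
    (fun n => JJ h n) ((N:ℝ) / (W * q : ℕ)) (fun _ _ => 1) (fun z z' _ _ => by
      refine compare_hyp _ _ _ _ _ (fun _ => 1) (fun _ => zero_le_one) z z' (fun _ => ?_)
      exact count_model hS.prime hsep hW hq hS.ndvd N a _)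
  have h2 : ∑ z : Col P k, ∑ z' : Col P k, |lam (cc Z T M) z| * |lam (cc Z T M) z'| * 1 =
      (∑ z : Col P k, |lam (cc Z T M) z|) ^ 2 := by
    rw [sq, Finset.sum_mul_sum]
    simp
  rw [h2] at h1
  have h3 := sum_abs_lam_le (k := k) (T := T) (M := M) hS.prime hS.le hZ
  have h4 : (∑ z : Col P k, |lam (cc Z T M) z|) ^ 2 ≤ ((Z:ℝ) ^ M * LL R ^ (4 * k)) ^ 2 :=
    pow_le_pow_left₀ (Finset.sum_nonneg fun _ _ => abs_nonneg _) h3 2
  have h5 := (abs_le.1 h1).2
  have h6 : (N:ℝ) / (W * q : ℕ) * EG (wq q (JJ (P := P) h a)) (cc Z T M) ≤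
      (N:ℝ) / (W * q : ℕ) * B := mul_le_mul_of_nonneg_left (hB _) (by positivity)
  simp_rw [one_mul] at h5
  linarith

end Pool.Agent.Maynard
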