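import Pool.Agent.Lib.Maynard.ErrSum

/-!
# Asymptotic bookkeeping
-/

open Finset Filter

namespace Pool.Agent.Maynard

lemma tendsto_log_nat : Tendsto (fun N : ℕ => Real.log N) atTop atTop :=
  Real.tendsto_log_atTop.comp tendsto_natCast_atTop_atTop

lemma ev_log_ge (C : ℝ) : ∀ᶠ N : ℕ in atTop, C ≤ Real.log N :=
  tendsto_log_nat.eventually_ge_atTop C

lemma ev_rpow_ge {s : ℝ} (hs : 0 < s) (C : ℝ) : ∀ᶠ N : ℕ in atTop, C ≤ (N:ℝ) ^ s :=
  ((tendsto_rpow_atTop hs).comp tendsto_natCast_atTop_atTop).eventually_ge_atTop C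

lemma ev_log_pow_le {s : ℝ} (hs : 0 < s) (c : ℕ) :
    ∀ᶠ N : ℕ in atTop, (Real.log N) ^ c ≤ (N:ℝ) ^ s := by
  have h := (isLittleO_log_rpow_rpow_atTop (c:ℝ) hs).bound (c := 1) one_pos
  have h2 := tendsto_natCast_atTop_atTop (R := ℝ) |>.eventually h
  filter_upwards [h2, ev_log_ge 0] with N hN hlog
  rw [Real.rpow_natCast, Real.norm_eq_abs, Real.norm_eq_abs, one_mul, abs_of_nonneg (by positivity),
    abs_of_nonneg (by positivity)] at hN
  exact hN

lemma ev_LL_le : ∀ᶠ N : ℕ in atTop, LL N ≤ (Real.log N) ^ 5 := by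
  filter_upwards [ev_log_ge (81 * Real.exp 5), ev_log_ge 2, eventually_ge_atTop 2]
    with N h1 h2 hN
  unfold LL
  have hN0 : (0:ℝ) < N := by exact_mod_cast (show 0 < N by omega)
  have h3 : (Nat.log 2 N : ℝ) ≤ 2 * Real.log N := by
    have h4 : ((2 ^ Nat.log 2 N : ℕ) : ℝ) ≤ N := by
      exact_mod_cast Nat.pow_log_le_self 2 (by omega)
    push_cast at h4
    have h5 := Real.log_le_log (by positivity) h4
    rw [Real.log_pow] at h5
    have h6 := Real.log_two_gt_d9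
    have h7 : (0:ℝ) ≤ (Nat.log 2 N : ℝ) := Nat.cast_nonneg _
    nlinarith
  have h4 : ((Nat.log 2 N : ℝ) + 1) ^ 4 ≤ (3 * Real.log N) ^ 4 :=
    pow_le_pow_left₀ (by positivity) (by linarith) 4
  calc Real.exp 5 * ((Nat.log 2 N : ℝ) + 1) ^ 4 ≤ Real.exp 5 * (3 * Real.log N) ^ 4 := by gcongr
    _ = (81 * Real.exp 5) * Real.log N ^ 4 := by ring
    _ ≤ Real.log N * Real.log N ^ 4 := by gcongr
    _ = _ := by ring

lemma ev_LL_pow_le {s : ℝ} (hs : 0 < s) (c : ℕ) :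
    ∀ᶠ N : ℕ in atTop, LL N ^ c ≤ (N:ℝ) ^ s := by
  filter_upwards [ev_LL_le, ev_log_pow_le hs (5 * c)] with N h1 h2
  refine le_trans (pow_le_pow_left₀ (by have := LL_ge_one N; linarith) h1 c) ?_
  rw [← pow_mul]
  exact h2

/-- the basic scale -/
noncomputable def ZZ (δ : ℝ) (M N : ℕ) : ℕ := ⌊(N:ℝ) ^ (δ / M)⌋₊

lemma ZZ_pow_le {δ : ℝ} {M N : ℕ} (hM : 0 < M) (_hN : 0 < N) :
    ((ZZ δ M N ^ M : ℕ) : ℝ) ≤ (N:ℝ) ^ δ := by
  have hM' : (M:ℝ) ≠ 0 := by exact_mod_cast hM.ne'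
  push_cast
  have h1 : (ZZ δ M N : ℝ) ≤ (N:ℝ) ^ (δ / M) := Nat.floor_le (by positivity)
  refine (pow_le_pow_left₀ (Nat.cast_nonneg _) h1 M).trans (le_of_eq ?_)
  rw [← Real.rpow_natCast, ← Real.rpow_mul (Nat.cast_nonneg N), div_mul_cancel₀ _ hM']

lemma ev_ZZ {δ : ℝ} (hδ : 0 < δ) {M : ℕ} (hM : 0 < M) :
    ∀ᶠ N : ℕ in atTop, 2 ≤ ZZ δ M N ∧ δ / (2 * M) * Real.log N ≤ Real.log (ZZ δ M N) := by
  have hM' : (0:ℝ) < M := by exact_mod_cast hM
  have hs : 0 < δ / M := by positivity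
  filter_upwards [ev_rpow_ge hs 2, ev_log_ge (2 * M / δ * Real.log 2), eventually_ge_atTop 1]
    with N h1 h2 hN
  have hN0 : (0:ℝ) < N := by exact_mod_cast (show 0 < N by omega)
  have h3 : 2 ≤ ZZ δ M N := by
    unfold ZZ
    exact Nat.le_floor (by exact_mod_cast h1)
  refine ⟨h3, ?_⟩
  have h4 : (N:ℝ) ^ (δ / M) / 2 ≤ ZZ δ M N := by
    have := Nat.lt_floor_add_one ((N:ℝ) ^ (δ / M))
    unfold ZZ
    linarith
  have h5 := Real.log_le_log (by positivity) h4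
  rw [Real.log_div (by positivity) (by norm_num), Real.log_rpow hN0] at h5
  have h6 : Real.log 2 ≤ δ / (2 * M) * Real.log N := by
    have h7 : δ / (2 * M) * (2 * M / δ * Real.log 2) ≤ δ / (2 * M) * Real.log N :=
      mul_le_mul_of_nonneg_left h2 (by positivity)
    have h8 : δ / (2 * M) * (2 * M / δ * Real.log 2) = Real.log 2 := by
      field_simp
    linarith
  have h9 : δ / M * Real.log N = 2 * (δ / (2 * M) * Real.log N) := by
    field_simp
  linarith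

/-- The error term is negligible. -/
lemma ev_err {θ : ℝ} (hBV : BVHyp θ) (k W : ℕ) (hW : 0 < W) (s : ℕ) :
    ∀ᶠ N : ℕ in atTop, ∀ (P : Finset ℕ) (K0 R : ℕ), Setting P W K0 R → R ≤ N →
      W * (R * R) ≤ N → W * (R * R) ≤ ⌊((3 * N : ℕ):ℝ) ^ θ⌋₊ →
      L0 P k ^ 2 * ∑ B : P → Bool, FB P N s W (R * R) B * pm (fun _ => (2 * (k:ℝ) + 1) ^ 2) B ≤
        N / (Real.log N) ^ 2 := by
  set c : ℕ := (2 * k + 1) ^ 2 with hc
  set a : ℕ := 20 * k + 10 * c ^ 2 + 4 with ha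
  set A : ℕ := a + 20 * k + 3 with hA
  obtain ⟨C, hC, hsum⟩ := sum_EE_le hBV A
  filter_upwards [ev_LL_le, ev_log_ge (5 + 3 * C), ev_log_ge 2, eventually_ge_atTop 3,
    eventually_ge_atTop s] with N hLL hlog5 hlog2 hN3 hs P K0 R hS hRN hWN hWθ
  set x := Real.log N with hx
  have hx0 : 0 < x := by linarith
  have hN0 : (0:ℝ) < N := by exact_mod_cast (show 0 < N by omega)
  have hlog3 : Real.log (3 * N : ℕ) ≤ 2 * x := by
    push_cast
    rw [Real.log_mul (by norm_num) hN0.ne']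
    have : Real.log 3 ≤ x := Real.log_le_log (by norm_num) (by exact_mod_cast hN3)
    linarith
  have hlog3' : x ≤ Real.log (3 * N : ℕ) := by
    refine Real.log_le_log hN0 ?_
    push_cast
    linarith
  have hLLR : LL R ≤ x ^ 5 := (LL_mono hRN).trans hLL
  have hLL1 := LL_ge_one R
  have hL0 : L0 P k ≤ x ^ (10 * k) := by
    refine (L0_le hS.prime hS.le).trans ?_
    refine (pow_le_pow_left₀ (by linarith) hLLR (2 * k)).trans (le_of_eq ?_)
    rw [← pow_mul]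
    congr 1
    ring
  have hL00 := L0_ge_one (k := k) (P := P) (fun p hp => (hS.prime p hp).two_le)
  have hL02 : L0 P k ^ 2 ≤ x ^ (20 * k) := by
    refine (pow_le_pow_left₀ (by linarith) hL0 2).trans (le_of_eq ?_)
    rw [← pow_mul]
    congr 1
    ring
  have hcc : (2 * (k:ℝ) + 1) ^ 2 = (c:ℝ) := by rw [hc]; push_cast; ring
  rw [hcc]
  have ht : 0 < x ^ a := by positivity
  have h1 := sum_split (P := P) (N := N) (s := s) (W := W) (Y := R * R) c ht
  have h2 := sum_FB_pm_le hS hW (N := N) (s := s) (Y := R * R) (by omega) hs hWN (c ^ 2)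
  have h3 := sum_FB_le hS hW (N := N) (s := s) (Y := R * R) hWθ
  have h4 := hsum N s (by omega) hs
  have h5 : (2 * Real.log (3 * N : ℕ) + 1) * N * LL R ^ (2 * c ^ 2) ≤
      5 * N * x ^ (10 * c ^ 2 + 1) := by
    have e1 : LL R ^ (2 * c ^ 2) ≤ x ^ (10 * c ^ 2) := by
      refine (pow_le_pow_left₀ (by linarith) hLLR _).trans (le_of_eq ?_)
      rw [← pow_mul]
      congr 1
      ring
    calc (2 * Real.log (3 * N : ℕ) + 1) * N * LL R ^ (2 * c ^ 2)
        ≤ (5 * x) * N * x ^ (10 * c ^ 2) := by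
          have : 2 * Real.log (3 * N : ℕ) + 1 ≤ 5 * x := by linarith
          have h0 : (0:ℝ) ≤ Real.log (3 * N : ℕ) := Real.log_natCast_nonneg _
          gcongr
      _ = _ := by rw [pow_succ]; ring
  have h6 : ∑ B : P → Bool, FB P N s W (R * R) B ≤ 3 * C * N / x ^ A := by
    refine (h3.trans h4).trans ?_
    push_cast
    have e1 : x ^ A ≤ Real.log (3 * (N:ℝ)) ^ A := by
      refine pow_le_pow_left₀ hx0.le ?_ A
      push_cast at hlog3'
      exact hlog3'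
    have e2 : C * (3 * (N:ℝ)) = 3 * C * N := by ring
    rw [e2]
    exact div_le_div_of_nonneg_left (by positivity) (by positivity) e1
  have h7 : ∑ B : P → Bool, FB P N s W (R * R) B * pm (fun _ => (c:ℝ)) B ≤
      5 * N * x ^ (10 * c ^ 2 + 1) / x ^ a + x ^ a * (3 * C * N / x ^ A) := by
    refine h1.trans (add_le_add ?_ ?_)
    · exact div_le_div_of_nonneg_right (h2.trans h5) ht.le
    · exact mul_le_mul_of_nonneg_left h6 ht.le
  have h8 : 0 ≤ ∑ B : P → Bool, FB P N s W (R * R) B * pm (fun _ => (c:ℝ)) B :=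
    Finset.sum_nonneg fun B _ => mul_nonneg (FB_nonneg _ _ _ _ B)
      (pm_nonneg (fun _ _ => Nat.cast_nonneg c) B)
  calc L0 P k ^ 2 * ∑ B : P → Bool, FB P N s W (R * R) B * pm (fun _ => (c:ℝ)) B
      ≤ x ^ (20 * k) * (5 * N * x ^ (10 * c ^ 2 + 1) / x ^ a + x ^ a * (3 * C * N / x ^ A)) :=
        mul_le_mul hL02 h7 h8 (by positivity)
    _ = (5 + 3 * C) * N / x ^ 3 := by
        have e1 : x ^ a = x ^ (20 * k) * x ^ (10 * c ^ 2 + 1) * x ^ 3 := by
          rw [ha, ← pow_add, ← pow_add]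
          congr 1
        have e2 : x ^ A = x ^ a * x ^ (20 * k) * x ^ 3 := by
          rw [hA, ← pow_add, ← pow_add]
        have e3 : x ^ (20 * k) * (5 * N * x ^ (10 * c ^ 2 + 1) / x ^ a) = 5 * N / x ^ 3 := by
          rw [e1]
          field_simp
        have e4 : x ^ (20 * k) * (x ^ a * (3 * C * N / x ^ A)) = 3 * C * N / x ^ 3 := by
          rw [e2]
          field_simp
        rw [mul_add, e3, e4]
        ring
    _ ≤ x * N / x ^ 3 := by gcongr
    _ = N / x ^ 2 := by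
        field_simp

end Pool.Agent.Maynard
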