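import Pool.Agent.Lib.Maynard.Cells

/-!
# Numerical form of the model bounds
-/

open Finset

namespace Pool.Agent.Maynard

variable {P : Finset ℕ}

lemma prod_one_add_le_exp {ι : Type*} (s : Finset ι) (x : ι → ℝ) (h0 : ∀ i ∈ s, 0 ≤ x i) :
    ∏ i ∈ s, (1 + x i) ≤ Real.exp (∑ i ∈ s, x i) := by
  rw [Real.exp_sum]
  refine Finset.prod_le_prod (fun i hi => by have := h0 i hi; linarith) fun i _ => ?_
  have := Real.add_one_le_exp (x i)
  linarith

lemma exp_le_one_add {t : ℝ} (h0 : 0 ≤ t) (h1 : t ≤ 1) : Real.exp t ≤ 1 + 2 * t := by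
  have h2 := Real.abs_exp_sub_one_le (x := t) (by rw [abs_of_nonneg h0]; exact h1)
  rw [abs_of_nonneg h0] at h2
  have := (abs_le.1 h2).2
  linarith

lemma prod_le_of_sq {K0 : ℕ} (hK0 : 2 ≤ K0) (hPK : ∀ p ∈ P, K0 ≤ p) (x : ℕ → ℝ) {C : ℝ}
    (hC : 0 ≤ C) (h0 : ∀ p ∈ P, 0 ≤ x p) (h1 : ∀ p ∈ P, x p ≤ C / (p:ℝ) ^ 2)
    (h2 : 2 * C / K0 ≤ 1) : ∏ p ∈ P, (1 + x p) ≤ 1 + 4 * C / K0 := by
  have hK : (0:ℝ) < K0 := by exact_mod_cast (show 0 < K0 by omega)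
  have h3 : ∑ p ∈ P, x p ≤ 2 * C / K0 := by
    refine (Finset.sum_le_sum h1).trans ?_
    have e : ∀ p ∈ P, C / (p:ℝ) ^ 2 = C * (1 / (p:ℝ) ^ 2) := fun p _ => by ring
    rw [Finset.sum_congr rfl e, ← Finset.mul_sum]
    have := mul_le_mul_of_nonneg_left (sum_inv_sq_le hK0 hPK) hC
    refine this.trans (le_of_eq ?_)
    ring
  refine (prod_one_add_le_exp P x h0).trans ?_
  refine (Real.exp_le_exp.2 h3).trans ?_
  refine (exp_le_one_add (by positivity) h2).trans (le_of_eq ?_)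
  ring

/-- harmonic number of `T` -/
noncomputable def hT (T : ℕ) : ℝ := ∑ j ∈ Finset.range T, 1 / ((j:ℝ) + 1)

/-- sum of inverse squares -/
noncomputable def gT2 (T : ℕ) : ℝ := ∑ j ∈ Finset.range T, (1 / ((j:ℝ) + 1)) ^ 2

lemma hT_ge_one {T : ℕ} (hT1 : 1 ≤ T) : 1 ≤ hT T := by
  unfold hT
  have : (fun j : ℕ => 1 / ((j:ℝ) + 1)) 0 ≤ ∑ j ∈ Finset.range T, 1 / ((j:ℝ) + 1) :=
    Finset.single_le_sum (f := fun j : ℕ => 1 / ((j:ℝ) + 1)) (fun j _ => by positivity)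
      (Finset.mem_range.2 (by omega))
  simpa using this

lemma gT2_ge_one {T : ℕ} (hT1 : 1 ≤ T) : 1 ≤ gT2 T := by
  unfold gT2
  have : (fun j : ℕ => (1 / ((j:ℝ) + 1)) ^ 2) 0 ≤ ∑ j ∈ Finset.range T, (1 / ((j:ℝ) + 1)) ^ 2 :=
    Finset.single_le_sum (f := fun j : ℕ => (1 / ((j:ℝ) + 1)) ^ 2) (fun j _ => by positivity)
      (Finset.mem_range.2 (by omega))
  simpa using this

lemma gT2_le_two (T : ℕ) : gT2 T ≤ 2 := by
  have h : ∀ T : ℕ, gT2 (T + 1) ≤ 2 - 1 / ((T:ℝ) + 1) := by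
    intro T
    induction T with
    | zero => norm_num [gT2]
    | succ n ih =>
      unfold gT2 at *
      rw [Finset.sum_range_succ]
      have hn : (0:ℝ) ≤ n := Nat.cast_nonneg _
      have : (1 / (((n + 1 : ℕ):ℝ) + 1)) ^ 2 ≤ 1 / ((n:ℝ) + 1) - 1 / (((n + 1 : ℕ):ℝ) + 1) := by
        push_cast
        have e : 1 / ((n:ℝ) + 1) - 1 / (((n:ℝ) + 1) + 1) = 1 / (((n:ℝ) + 1) * ((n:ℝ) + 1 + 1)) := by
          field_simp
          ring
        rw [e, div_pow, one_pow]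
        refine one_div_le_one_div_of_le (by positivity) (by nlinarith)
      linarith
  cases T with
  | zero => norm_num [gT2]
  | succ n =>
    have := h n
    have h2 : (0:ℝ) ≤ 1 / ((n:ℝ) + 1) := by positivity
    linarith

lemma hT_le (T : ℕ) : hT T ≤ T := by
  unfold hT
  calc ∑ j ∈ Finset.range T, 1 / ((j:ℝ) + 1) ≤ ∑ j ∈ Finset.range T, (1:ℝ) := by
        refine Finset.sum_le_sum fun j _ => ?_
        rw [div_le_one (by positivity)]
        have : (0:ℝ) ≤ j := Nat.cast_nonneg _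
        linarith
    _ = T := by simp

lemma sum_cells (hP : ∀ p ∈ P, p.Prime) {Z : ℕ} (hZ : 2 ≤ Z) (T : ℕ) (φ : ℕ → ℝ) (a : ℕ → ℝ) :
    ∑ B : P → Bool, (if Nat.log Z (val B) < T then φ (Nat.log Z (val B)) else 0) * pm a B =
      ∑ j ∈ Finset.range T, φ j *
        ∑ B : P → Bool, (if Z ^ j ≤ val B ∧ val B < Z ^ (j + 1) then pm a B else 0) := by
  simp_rw [Finset.mul_sum]
  rw [Finset.sum_comm]
  refine Finset.sum_congr rfl fun B _ => ?_
  have hv : 0 < val B := val_pos (fun p hp => (hP p hp).pos) B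
  have h1 : ∀ j, (Z ^ j ≤ val B ∧ val B < Z ^ (j + 1)) ↔ j = Nat.log Z (val B) := by
    intro j
    rw [← Nat.log_eq_iff (Or.inr ⟨by omega, hv.ne'⟩)]
    exact eq_comm
  simp_rw [h1]
  by_cases h : Nat.log Z (val B) < T
  · rw [if_pos h, Finset.sum_eq_single (Nat.log Z (val B))]
    · simp
    · intro j _ hj
      rw [if_neg hj, mul_zero]
    · intro h'
      exact absurd (Finset.mem_range.2 h) h'
  · rw [if_neg h, zero_mul]
    symm
    refine Finset.sum_eq_zero fun j hj => ?_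
    rw [if_neg, mul_zero]
    rintro rfl
    exact h (Finset.mem_range.1 hj)

/-- The setting: `P` consists of the primes at most `R` not dividing `W`, all at least `K0`. -/
structure Setting (P : Finset ℕ) (W K0 R : ℕ) : Prop where
  prime : ∀ p ∈ P, p.Prime
  ndvd : ∀ p ∈ P, ¬ p ∣ W
  ge : ∀ p ∈ P, K0 ≤ p
  le : ∀ p ∈ P, p ≤ R
  mem : ∀ p, p.Prime → ¬ p ∣ W → p ≤ R → p ∈ P

section

variable {k W K0 R Z T : ℕ}

/-- lower cell constant -/
noncomputable def cellL (k W K0 Z : ℕ) : ℝ :=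
  cW W * Real.log Z * (1 - 2 * ((k:ℝ) + 1) / K0) - 2 * KV W

/-- upper cell constant -/
noncomputable def cellU (W K0 Z : ℕ) : ℝ :=
  (cW W * Real.log Z + KV W) * (1 + 32 / K0)

lemma log_ratio {Z : ℕ} (hZ : 2 ≤ Z) (j : ℕ) :
    Real.log (((Z ^ (j + 1) : ℕ) : ℝ) / ((Z ^ j : ℕ) : ℝ)) = Real.log Z := by
  have : (Z:ℝ) ≠ 0 := by exact_mod_cast (show Z ≠ 0 by omega)
  congr 1
  push_cast
  rw [div_eq_iff (pow_ne_zero _ this), pow_succ]
  ring

lemma cell_lo (hS : Setting P W K0 R) (hW : 0 < W) (hK0 : 2 * (k + 1) ≤ K0) (hZ : 2 ≤ Z) {j : ℕ}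
    (hj : Z ^ (j + 1) ≤ R) :
    cellL k W K0 Z ≤
      ∑ B : P → Bool, (if Z ^ j ≤ val B ∧ val B < Z ^ (j + 1) then pm (alo k) B else 0) := by
  have h1 := cell_lower (P := P) (k := k) (W := W) (K0 := K0) (a := Z ^ j) (b := Z ^ (j + 1)) hW
    hS.prime hK0 hS.ge (fun p hp hpW hpb => hS.mem p hp hpW (hpb.le.trans hj))
    (pow_pos (by omega) j) (Nat.pow_lt_pow_right (by omega) (Nat.lt_succ_self j))
  rw [log_ratio hZ] at h1
  exact h1

lemma cell_up (hS : Setting P W K0 R) (hW : 0 < W) (hK0 : 16 ≤ K0) (hZ : 2 ≤ Z) (j : ℕ) :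
    ∑ B : P → Bool, (if Z ^ j ≤ val B ∧ val B < Z ^ (j + 1) then pm aup B else 0) ≤
      cellU W K0 Z := by
  have h1 := cell_upper (P := P) (W := W) (a := Z ^ j) (b := Z ^ (j + 1)) hW
    hS.prime hS.ndvd
    (pow_pos (by omega) j) (Nat.pow_lt_pow_right (by omega) (Nat.lt_succ_self j))
  rw [log_ratio hZ] at h1
  refine h1.trans ?_
  unfold cellU
  have hK : (16:ℝ) ≤ K0 := by exact_mod_cast hK0
  refine mul_le_mul_of_nonneg_left ?_ ?_
  · have := prod_le_of_sq (P := P) (K0 := K0) (by omega) hS.ge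
      (fun p => (2 * (p:ℝ) - 1) / ((p:ℝ) * ((p:ℝ) - 1) ^ 2)) (C := 8) (by norm_num)
      (fun p hp => ?_) (fun p hp => ?_) ?_
    · refine this.trans (le_of_eq ?_)
      ring
    · have : (2:ℝ) ≤ p := by exact_mod_cast (hS.prime p hp).two_le
      apply div_nonneg
      · linarith
      · positivity
    · have h2 : (2:ℝ) ≤ p := by exact_mod_cast (hS.prime p hp).two_le
      have h3 : 0 < (p:ℝ) - 1 := by linarith
      rw [div_le_div_iff₀ (by positivity) (by positivity)]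
      nlinarith [mul_pos (show (0:ℝ) < p by linarith) h3, sq_nonneg ((p:ℝ) - 2)]
    · rw [div_le_one (by linarith)]
      linarith
  · have := KV_pos hW
    have := mul_nonneg (cW_nonneg W) (Real.log_natCast_nonneg Z)
    linarith

lemma gz_eq_ite (Z T n : ℕ) :
    gz Z T n = if Nat.log Z n < T then 1 / ((Nat.log Z n : ℝ) + 1) else 0 := rfl

lemma A1_ge (hS : Setting P W K0 R) (hW : 0 < W) (hk1 : 1 ≤ k) (hK0 : 2 * (k + 1) ≤ K0)
    (hZ : 2 ≤ Z) (hR : Z ^ T ≤ R) : hT T * cellL k W K0 Z ≤ A1 P Z T := by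
  have hP2 : ∀ p ∈ P, 2 ≤ p := fun p hp => (hS.prime p hp).two_le
  have h1 : ∑ B : P → Bool, gz Z T (val B) * pm (alo k) B ≤ A1 P Z T := by
    unfold A1
    refine Finset.sum_le_sum fun B _ => mul_le_mul_of_nonneg_left ?_ (gz_nonneg _ _ _)
    unfold pm
    refine Finset.prod_le_prod (fun p _ => ?_) fun p _ => ?_
    · split_ifs
      · exact alo_nonneg (by have := hS.ge p p.2; omega)
      · exact zero_le_one
    · split_ifs
      · have h2 : (2:ℝ) ≤ (p:ℕ) := by exact_mod_cast hP2 p p.2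
        have h3 : (1:ℝ) ≤ k := by exact_mod_cast hk1
        unfold alo
        rw [div_le_div_iff₀ (by nlinarith) (by linarith)]
        nlinarith
      · exact le_rfl
  refine le_trans ?_ h1
  have h2 := sum_cells hS.prime hZ T (fun j => 1 / ((j:ℝ) + 1)) (alo k)
  simp_rw [gz_eq_ite]
  rw [h2]
  unfold hT
  rw [Finset.sum_mul]
  refine Finset.sum_le_sum fun j hj => mul_le_mul_of_nonneg_left ?_ (by positivity)
  refine cell_lo hS hW hK0 hZ (le_trans ?_ hR)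
  exact Nat.pow_le_pow_right (by omega) (Finset.mem_range.1 hj)

lemma A2lo_ge (hS : Setting P W K0 R) (hW : 0 < W) (hK0 : 2 * (k + 1) ≤ K0)
    (hZ : 2 ≤ Z) (hR : Z ^ T ≤ R) : gT2 T * cellL k W K0 Z ≤ A2lo P k Z T := by
  have h2 := sum_cells hS.prime hZ T (fun j => (1 / ((j:ℝ) + 1)) ^ 2) (alo k)
  have h3 : A2lo P k Z T = ∑ B : P → Bool, (if Nat.log Z (val B) < T then
      (fun j : ℕ => (1 / ((j:ℝ) + 1)) ^ 2) (Nat.log Z (val B)) else 0) * pm (alo k) B := by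
    unfold A2lo
    refine Finset.sum_congr rfl fun B _ => ?_
    rw [gz_eq_ite]
    split_ifs
    · rfl
    · simp
  rw [h3, h2]
  unfold gT2
  rw [Finset.sum_mul]
  refine Finset.sum_le_sum fun j hj => mul_le_mul_of_nonneg_left ?_ (by positivity)
  refine cell_lo hS hW hK0 hZ (le_trans ?_ hR)
  exact Nat.pow_le_pow_right (by omega) (Finset.mem_range.1 hj)

lemma A2_le (hS : Setting P W K0 R) (hW : 0 < W) (hK0 : 16 ≤ K0) (hZ : 2 ≤ Z) :
    A2 P Z T ≤ gT2 T * cellU W K0 Z := by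
  have h2 := sum_cells hS.prime hZ T (fun j => (1 / ((j:ℝ) + 1)) ^ 2) aup
  have h3 : A2 P Z T = ∑ B : P → Bool, (if Nat.log Z (val B) < T then
      (fun j : ℕ => (1 / ((j:ℝ) + 1)) ^ 2) (Nat.log Z (val B)) else 0) * pm aup B := by
    unfold A2
    refine Finset.sum_congr rfl fun B _ => ?_
    rw [gz_eq_ite]
    split_ifs
    · rfl
    · simp
  rw [h3, h2]
  unfold gT2
  rw [Finset.sum_mul]
  refine Finset.sum_le_sum fun j _ => mul_le_mul_of_nonneg_left ?_ (by positivity)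
  exact cell_up hS hW hK0 hZ j

lemma A2h_le (hS : Setting P W K0 R) (hW : 0 < W) (hK0 : 16 ≤ K0) (hZ : 2 ≤ Z) :
    A2h P Z T ≤ hT T * cellU W K0 Z := by
  have h2 := sum_cells hS.prime hZ T (fun j => 1 / ((j:ℝ) + 1)) aup
  have h3 : A2h P Z T = ∑ B : P → Bool, (if Nat.log Z (val B) < T then
      (fun j : ℕ => 1 / ((j:ℝ) + 1)) (Nat.log Z (val B)) else 0) * pm aup B := by
    unfold A2h
    refine Finset.sum_congr rfl fun B _ => ?_
    rw [gz_eq_ite]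
    split_ifs
    · congr 1
      field_simp
    · simp
  rw [h3, h2]
  unfold hT
  rw [Finset.sum_mul]
  refine Finset.sum_le_sum fun j _ => mul_le_mul_of_nonneg_left ?_ (by positivity)
  exact cell_up hS hW hK0 hZ j

lemma sq_aux {p : ℝ} (h2 : 2 ≤ p) : p ^ 2 ≤ 4 * (p - 1) ^ 2 := by nlinarith

lemma e1_le (hPK : ∀ p ∈ P, K0 ≤ p) (hP2 : ∀ p ∈ P, 2 ≤ p) (hK2 : 2 ≤ K0)
    (hK : 2 * (4 * (k:ℝ)) / K0 ≤ 1) : e1 P k ≤ 1 + 4 * (4 * (k:ℝ)) / K0 := by
  unfold e1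
  rw [Finset.prod_coe_sort P (fun p => 1 + (k:ℝ) / ((p:ℝ) - 1) ^ 2)]
  refine prod_le_of_sq (P := P) (K0 := K0) hK2 hPK
    (fun p => (k:ℝ) / ((p:ℝ) - 1) ^ 2) (C := 4 * k) (by positivity)
    (fun p hp => by positivity) (fun p hp => ?_) hK
  have h2 : (2:ℝ) ≤ p := by exact_mod_cast hP2 p hp
  have h3 : (0:ℝ) < ((p:ℝ) - 1) ^ 2 := by
    have : (0:ℝ) < (p:ℝ) - 1 := by linarith
    positivity
  rw [div_le_div_iff₀ h3 (by positivity)]
  have h4 := mul_le_mul_of_nonneg_left (sq_aux h2) (Nat.cast_nonneg (α := ℝ) k)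
  linarith

lemma e2_le (hPK : ∀ p ∈ P, K0 ≤ p) (hP2 : ∀ p ∈ P, 2 ≤ p) (hkP : ∀ p ∈ P, k ≤ p) (hk1 : 1 ≤ k)
    (hK2 : 2 ≤ K0)
    (hK : 2 * (4 * (2:ℝ) ^ k) / K0 ≤ 1) : e2 P k ≤ 1 + 4 * (4 * (2:ℝ) ^ k) / K0 := by
  unfold e2
  rw [Finset.prod_coe_sort P (fun p => 1 + 2 ^ k * (alo k p) ^ 2)]
  refine prod_le_of_sq (P := P) (K0 := K0) hK2 hPK
    (fun p => 2 ^ k * (alo k p) ^ 2) (C := 4 * 2 ^ k) (by positivity)
    (fun p hp => by positivity) (fun p hp => ?_) hK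
  have h2 : (2:ℝ) ≤ p := by exact_mod_cast hP2 p hp
  have hk' : (1:ℝ) ≤ k := by exact_mod_cast hk1
  have hp1 : (0:ℝ) < (p:ℝ) - 1 := by linarith
  have h3 : alo k p ≤ 2 / p := by
    unfold alo
    rw [div_le_div_iff₀ (by positivity) (by linarith)]
    have e1 : ((p:ℝ) - k) * p ≤ ((p:ℝ) - 1) * p :=
      mul_le_mul_of_nonneg_right (by linarith) (by linarith)
    have e2 : ((p:ℝ) - 1) * p ≤ 2 * ((p:ℝ) - 1) ^ 2 := by nlinarith
    linarith
  have h4 : 0 ≤ alo k p := alo_nonneg (hkP p hp)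
  have h5 := pow_le_pow_left₀ h4 h3 2
  have h6 : (0:ℝ) ≤ 2 ^ k := by positivity
  calc (2:ℝ) ^ k * alo k p ^ 2 ≤ 2 ^ k * (2 / p) ^ 2 := mul_le_mul_of_nonneg_left h5 h6
    _ = _ := by rw [div_pow]; ring

lemma pow_eta {k : ℕ} {η : ℝ} (hη : 0 < η) (hkη : (k:ℝ) * η = 1 / 16) {n : ℕ} (hn : n ≤ k) :
    (1 + η) ^ n ≤ 9 / 8 := by
  have e1 : (1 + η) ^ n ≤ Real.exp (n * η) := by
    rw [Real.exp_nat_mul]
    refine pow_le_pow_left₀ (by linarith) ?_ n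
    have := Real.add_one_le_exp η
    linarith
  have e2 : (n:ℝ) * η ≤ 1 / 16 := by
    have : (n:ℝ) ≤ k := by exact_mod_cast hn
    rw [← hkη]
    exact mul_le_mul_of_nonneg_right this hη.le
  refine e1.trans ((Real.exp_le_exp.2 e2).trans
    ((exp_le_one_add (by norm_num) (by norm_num)).trans ?_))
  norm_num

lemma pow_eta' {k : ℕ} {η : ℝ} (hη : 0 < η) (hη32 : η ≤ 1 / 32) (hkη : (k:ℝ) * η = 1 / 16) :
    15 / 16 ≤ (1 - η) ^ (k - 1) := by
  have e3 := one_add_mul_le_pow (a := -η) (by linarith) (k - 1)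
  have e4 : ((k - 1 : ℕ) : ℝ) * η ≤ 1 / 16 := by
    have : ((k - 1 : ℕ) : ℝ) ≤ k := by exact_mod_cast (show k - 1 ≤ k by omega)
    rw [← hkη]
    exact mul_le_mul_of_nonneg_right this hη.le
  rw [← sub_eq_add_neg] at e3
  linarith

lemma bad_arith {k : ℕ} {D h G η A2 A2h MT : ℝ} (hk : 2 ≤ k) (hD : 0 < D) (hh : 1 ≤ h)
    (hG : 1 ≤ G) (hη : 0 < η) (hkη : (k:ℝ) * η = 1 / 16)
    (hA20 : 0 ≤ A2) (hA2 : A2 ≤ (1 + η) * (D * G)) (hA2h0 : 0 ≤ A2h)
    (hA2h : A2h ≤ (1 + η) * (D * h)) (hMT : 7 * (k:ℝ) * h ≤ MT) :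
    (k:ℝ) / MT * (A2 ^ (k - 2) * A2h) ≤ (1 / 6) * (D * G) ^ (k - 1) := by
  have hk' : (0:ℝ) < k := by exact_mod_cast (show 0 < k by omega)
  have hh0 : 0 < h := by linarith
  have hx0 : 0 < D * G := by positivity
  have hMT0 : 0 < MT := lt_of_lt_of_le (by positivity) hMT
  have e1 : A2 ^ (k - 2) ≤ ((1 + η) * (D * G)) ^ (k - 2) := pow_le_pow_left₀ hA20 hA2 _
  have e2 : A2 ^ (k - 2) * A2h ≤ ((1 + η) * (D * G)) ^ (k - 2) * ((1 + η) * (D * h)) :=
    mul_le_mul e1 hA2h hA2h0 (by positivity)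
  have e3 : (k:ℝ) / MT ≤ (k:ℝ) / (7 * k * h) :=
    div_le_div_of_nonneg_left hk'.le (by positivity) hMT
  have e4 : (k:ℝ) / (7 * k * h) = 1 / (7 * h) := by
    field_simp
  have hk21 : k - 1 = (k - 2) + 1 := by omega
  have e5 : ((1 + η) * (D * G)) ^ (k - 2) * ((1 + η) * (D * h)) =
      ((1 + η) ^ (k - 1)) * ((D * G) ^ (k - 2) * (D * h)) := by
    rw [hk21, mul_pow, pow_succ]; ring
  have e6 := pow_eta (k := k) (n := k - 1) hη hkη (by omega)
  have e7 : D ≤ D * G := by nlinarith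
  have e8 : 0 ≤ (D * G) ^ (k - 2) := by positivity
  have e9 : (k:ℝ) / MT * (A2 ^ (k - 2) * A2h) ≤
      (1 / (7 * h)) * (((1 + η) ^ (k - 1)) * ((D * G) ^ (k - 2) * (D * h))) := by
    rw [← e4, ← e5]
    exact mul_le_mul e3 e2 (mul_nonneg (pow_nonneg hA20 _) hA2h0) (by positivity)
  have e10 : (1 / (7 * h)) * (((1 + η) ^ (k - 1)) * ((D * G) ^ (k - 2) * (D * h))) =
      (1 / 7) * ((1 + η) ^ (k - 1)) * ((D * G) ^ (k - 2) * D) := by
    field_simp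
  have e11 : (1 / 7) * ((1 + η) ^ (k - 1)) * ((D * G) ^ (k - 2) * D) ≤
      (1 / 7) * (9 / 8) * ((D * G) ^ (k - 2) * (D * G)) := by
    refine mul_le_mul (by linarith) (mul_le_mul_of_nonneg_left e7 e8) (by positivity) (by norm_num)
  rw [e10] at e9
  have e12 : (D * G) ^ (k - 1) = (D * G) ^ (k - 2) * (D * G) := by rw [hk21, pow_succ]
  rw [e12]
  have : 0 ≤ (D * G) ^ (k - 2) * (D * G) := by positivity
  linarith

lemma final_arith {k : ℕ} {D h G η A1 A2lo A2 A2h MT E1 E2 : ℝ} (hk : 2 ≤ k) (hD : 0 < D)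
    (hh : 1 ≤ h) (hG : 1 ≤ G) (hη : 0 < η) (hη32 : η ≤ 1 / 32) (hkη : (k:ℝ) * η = 1 / 16)
    (hA1 : (1 - η) * (D * h) ≤ A1) (hA2lo : (1 - η) * (D * G) ≤ A2lo)
    (hA20 : 0 ≤ A2) (hA2 : A2 ≤ (1 + η) * (D * G)) (hA2h0 : 0 ≤ A2h)
    (hA2h : A2h ≤ (1 + η) * (D * h)) (hMT : 7 * (k:ℝ) * h ≤ MT)
    (hE1 : E1 ≤ 1 + 1 / 256) (hE2' : 1 ≤ E2) (hE2 : E2 ≤ 1 + 1 / 128) :
    1 / 2 * D ^ 2 * h ^ 2 * (D * G) ^ (k - 1) ≤
      (2 - E1) ^ 2 * A1 ^ 2 * (A2lo ^ (k - 1) / E2 - (k:ℝ) / MT * (A2 ^ (k - 2) * A2h)) := by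
  have hh0 : 0 < h := by linarith
  have hG0 : 0 < G := by linarith
  have hη1 : 0 < 1 - η := by linarith
  have hbad := bad_arith hk hD hh hG hη hkη hA20 hA2 hA2h0 hA2h hMT
  set x := D * G with hx
  have hx0 : 0 < x := by positivity
  have hxk : 0 ≤ x ^ (k - 1) := by positivity
  have hmain : (15 / 16) * x ^ (k - 1) ≤ A2lo ^ (k - 1) := by
    have e1 := pow_le_pow_left₀ (by positivity) hA2lo (k - 1)
    rw [mul_pow] at e1
    have e2 := pow_eta' hη hη32 hkη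
    exact (mul_le_mul_of_nonneg_right e2 hxk).trans e1
  have hmain2 : (9 / 10) * x ^ (k - 1) ≤ A2lo ^ (k - 1) / E2 := by
    rw [le_div_iff₀ (by linarith)]
    have e4 : 9 / 10 * x ^ (k - 1) * E2 ≤ 9 / 10 * x ^ (k - 1) * (1 + 1 / 128) :=
      mul_le_mul_of_nonneg_left hE2 (by positivity)
    linarith
  have hdiff : (11 / 15) * x ^ (k - 1) ≤ A2lo ^ (k - 1) / E2 -
      (k:ℝ) / MT * (A2 ^ (k - 2) * A2h) := by linarith
  have hA1sq : (1 - η) ^ 2 * (D * h) ^ 2 ≤ A1 ^ 2 := by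
    rw [← mul_pow]
    exact pow_le_pow_left₀ (by positivity) hA1 2
  have hηsq : (31 / 32 : ℝ) ^ 2 ≤ (1 - η) ^ 2 := pow_le_pow_left₀ (by norm_num) (by linarith) 2
  have he1sq : (255 / 256 : ℝ) ^ 2 ≤ (2 - E1) ^ 2 :=
    pow_le_pow_left₀ (by norm_num) (by linarith) 2
  have hDh : 0 ≤ (D * h) ^ 2 := by positivity
  have hA : (31 / 32 : ℝ) ^ 2 * (D * h) ^ 2 ≤ A1 ^ 2 :=
    (mul_le_mul_of_nonneg_right hηsq hDh).trans hA1sq
  have hB : (255 / 256 : ℝ) ^ 2 * ((31 / 32 : ℝ) ^ 2 * (D * h) ^ 2) ≤ (2 - E1) ^ 2 * A1 ^ 2 :=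
    mul_le_mul he1sq hA (by positivity) (sq_nonneg _)
  have hC := mul_le_mul hB hdiff (by positivity) (by positivity)
  refine le_trans ?_ hC
  have : 0 ≤ (D * h) ^ 2 * x ^ (k - 1) := by positivity
  have e : 1 / 2 * D ^ 2 * h ^ 2 * x ^ (k - 1) = 1 / 2 * ((D * h) ^ 2 * x ^ (k - 1)) := by ring
  rw [e]
  linarith

/-- size of the sieve sum -/
noncomputable def SS (k W Z T : ℕ) : ℝ := (cW W * Real.log Z * gT2 T) ^ k

/-- The two bounds in the model. -/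
theorem model_bounds {M : ℕ} (hS : Setting P W K0 R) (hW : 0 < W) (hk : 2 ≤ k) (hT1 : 1 ≤ T)
    (hTk : T ≤ k) (hM : 8 * (k:ℝ) * hT T ≤ M) (hK0 : 2 ^ (k + 10) * k ≤ K0) (hZ : 2 ≤ Z)
    (hR : Z ^ T ≤ R) (hZK : 64 * (k:ℝ) * KV W ≤ cW W * Real.log Z) :
    (∀ (q : ℕ) (j : Col P k), EG (wq q j) (cc Z T M) ≤
      ((k:ℝ) + 1) ^ (2 * (P.filter (· ∣ q)).card) * (2 * SS k W Z T)) ∧
    (∀ m : Fin k, (1 / 2) * (cW W * Real.log Z) ^ 2 * hT T ^ 2 * SS (k - 1) W Z T ≤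
      EG (fun p : P => w2 m (p:ℕ)) (cc Z T M)) := by
  have hk' : (2:ℝ) ≤ k := by exact_mod_cast hk
  have hkpos : (0:ℝ) < k := by linarith
  have h2k : k + 1 ≤ 2 ^ k := Nat.lt_two_pow_self
  have h4 : 4 ≤ 2 ^ k := by
    calc 4 = 2 ^ 2 := by norm_num
      _ ≤ 2 ^ k := Nat.pow_le_pow_right (by norm_num) hk
  have hK1 : 1024 * (2 ^ k * k) ≤ K0 := by
    have : 2 ^ (k + 10) * k = 1024 * (2 ^ k * k) := by rw [pow_add]; ring
    omega
  have hK0r : (1024:ℝ) * (2 ^ k * k) ≤ K0 := by exact_mod_cast hK1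
  have h2kr : (k:ℝ) + 1 ≤ 2 ^ k := by exact_mod_cast h2k
  have h4r : (4:ℝ) ≤ 2 ^ k := by exact_mod_cast h4
  have hK0pos : (0:ℝ) < K0 := lt_of_lt_of_le (by positivity) hK0r
  have hP2 : ∀ p ∈ P, 2 ≤ p := fun p hp => (hS.prime p hp).two_le
  have hkP : ∀ p ∈ P, k ≤ p := by
    intro p hp
    have h1 := hS.ge p hp
    have : k ≤ 1024 * (2 ^ k * k) := by nlinarith
    omega
  have hK16 : 16 ≤ K0 := by nlinarith
  have hKk : 2 * (k + 1) ≤ K0 := by nlinarith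
  have hq0 : 4 * (k:ℝ) ≤ 2 ^ k * k := mul_le_mul_of_nonneg_right h4r hkpos.le
  have hq0' : 2 ^ k * (2:ℝ) ≤ 2 ^ k * k := mul_le_mul_of_nonneg_left hk' (by positivity)
  have hq2 : 4 * (4 * (k:ℝ)) / K0 ≤ 1 / 256 := by
    rw [div_le_div_iff₀ hK0pos (by norm_num)]
    linarith
  have hq1 : 2 * (4 * (k:ℝ)) / K0 ≤ 1 := by
    rw [div_le_one hK0pos]
    linarith
  have hq4 : 4 * (4 * (2:ℝ) ^ k) / K0 ≤ 1 / 128 := by
    rw [div_le_div_iff₀ hK0pos (by norm_num)]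
    linarith
  have hq3 : 2 * (4 * (2:ℝ) ^ k) / K0 ≤ 1 := by
    rw [div_le_one hK0pos]
    linarith
  -- the basic quantities
  set D := cW W * Real.log Z with hD
  have hKVpos := KV_pos hW
  have hDpos : 0 < D := lt_of_lt_of_le (by positivity) hZK
  set η : ℝ := 1 / (16 * k) with hη
  have hηpos : 0 < η := by positivity
  have hη32 : η ≤ 1 / 32 := by
    rw [hη]
    exact one_div_le_one_div_of_le (by norm_num) (by linarith)
  have hKV1 : KV W ≤ D * (1 / (64 * k)) := by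
    rw [mul_one_div, le_div_iff₀ (by positivity)]
    linarith
  have hL : (1 - η) * D ≤ cellL k W K0 Z := by
    unfold cellL
    rw [← hD]
    have e1 : 2 * ((k:ℝ) + 1) / K0 ≤ 1 / (64 * k) := by
      rw [div_le_div_iff₀ hK0pos (by positivity)]
      nlinarith
    have e2 : D * (2 * ((k:ℝ) + 1) / K0) ≤ D * (1 / (64 * k)) :=
      mul_le_mul_of_nonneg_left e1 hDpos.le
    have e3 : D * (1 / (64 * k)) * 4 = η * D := by
      rw [hη]; field_simp; norm_num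
    have e4 : 0 < D * (1 / (64 * k)) := by positivity
    nlinarith
  have hU : cellU W K0 Z ≤ (1 + η) * D := by
    unfold cellU
    rw [← hD]
    have e1 : 32 / (K0:ℝ) ≤ 1 / (64 * k) := by
      rw [div_le_div_iff₀ hK0pos (by positivity)]
      nlinarith
    have e0 : (1:ℝ) / (64 * k) ≤ 1 / 128 :=
      one_div_le_one_div_of_le (by norm_num) (by linarith)
    have e3 : D * (1 / (64 * k)) * 4 = η * D := by
      rw [hη]; field_simp; norm_num
    have e4 : 0 < (1:ℝ) / (64 * k) := by positivity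
    calc (D + KV W) * (1 + 32 / K0) ≤ (D + D * (1 / (64 * k))) * (1 + 1 / (64 * k)) := by
          gcongr
      _ ≤ D + D * (1 / (64 * k)) * 4 := by nlinarith [mul_pos hDpos e4]
      _ = (1 + η) * D := by rw [e3]; ring
  have hh := hT_ge_one hT1
  have hG := gT2_ge_one hT1
  have hG2 := gT2_le_two T
  have hG0 : 0 < gT2 T := by linarith
  have hh0 : 0 < hT T := by linarith
  have hcL0 : 0 ≤ cellL k W K0 Z := le_trans (mul_nonneg (by linarith) hDpos.le) hL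
  have hA2 : A2 P Z T ≤ (1 + η) * (D * gT2 T) := by
    refine (A2_le hS hW hK16 hZ).trans ?_
    calc gT2 T * cellU W K0 Z ≤ gT2 T * ((1 + η) * D) := by gcongr
      _ = _ := by ring
  have hA20 := A2_nonneg P Z T
  constructor
  · intro q j
    refine (EG_cc_upper hS.prime hkP q j Z T M).trans ?_
    refine mul_le_mul_of_nonneg_left ?_ (by positivity)
    have e1 : A2 P Z T ^ k ≤ ((1 + η) * (D * gT2 T)) ^ k := pow_le_pow_left₀ hA20 hA2 k
    rw [mul_pow] at e1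
    have e2 := pow_eta (k := k) (n := k) hηpos (by rw [hη]; field_simp) le_rfl
    have e3 : 0 ≤ (D * gT2 T) ^ k := by positivity
    unfold SS
    rw [← hD]
    nlinarith
  · intro m
    -- the error factors
    have he1 : e1 P k ≤ 1 + 1 / 256 := by
      refine (e1_le hS.ge hP2 (by omega) hq1).trans ?_
      linarith
    have he2 : e2 P k ≤ 1 + 1 / 128 := by
      refine (e2_le hS.ge hP2 hkP (by omega) (by omega) hq3).trans ?_
      linarith
    have he2' : 1 ≤ e2 P k := by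
      unfold e2
      have : ∀ p ∈ (Finset.univ : Finset P), (1:ℝ) ≤ 1 + 2 ^ k * (alo k (p:ℕ)) ^ 2 := fun p _ => by
        have : (0:ℝ) ≤ 2 ^ k * (alo k (p:ℕ)) ^ 2 := by positivity
        linarith
      calc (1:ℝ) = ∏ p : P, (1:ℝ) := by simp
        _ ≤ _ := Finset.prod_le_prod (fun _ _ => zero_le_one) this
    have hTM : (T:ℝ) < M := by
      have e1 : (T:ℝ) ≤ k := by exact_mod_cast hTk
      nlinarith
    have hMT7 : 7 * (k:ℝ) * hT T ≤ (M:ℝ) - T := by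
      have e1 : (T:ℝ) ≤ k := by exact_mod_cast hTk
      nlinarith
    refine le_trans ?_ (EG_cc_lower hP2 hkP hk Z T M hT1 (by exact_mod_cast hTM) m (by linarith))
    have hA1 : (1 - η) * (D * hT T) ≤ A1 P Z T := by
      refine le_trans ?_ (A1_ge hS hW (by omega) hKk hZ hR)
      calc (1 - η) * (D * hT T) = hT T * ((1 - η) * D) := by ring
        _ ≤ _ := by gcongr
    have hA2lo : (1 - η) * (D * gT2 T) ≤ A2lo P k Z T := by
      refine le_trans ?_ (A2lo_ge hS hW hKk hZ hR)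
      calc (1 - η) * (D * gT2 T) = gT2 T * ((1 - η) * D) := by ring
        _ ≤ _ := by gcongr
    have hA2h : A2h P Z T ≤ (1 + η) * (D * hT T) := by
      refine (A2h_le hS hW hK16 hZ).trans ?_
      calc hT T * cellU W K0 Z ≤ hT T * ((1 + η) * D) := by gcongr
        _ = _ := by ring
    have hA2h0 : 0 ≤ A2h P Z T := hA20.trans (A2_le_A2h P Z T)
    have := final_arith hk hDpos hh hG hηpos hη32 (by rw [hη]; field_simp) hA1 hA2lo hA20 hA2
      hA2h0 hA2h hMT7 he1 he2' he2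
    unfold SS
    rw [← hD]
    exact this

end

end Pool.Agent.Maynard
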