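import Pool.Agent.Lib.Maynard.Lower2
import Pool.Agent.Lib.Maynard.Harm

/-!
# Cell sums
-/

open Finset

namespace Pool.Agent.Maynard

variable {P : Finset ℕ}

lemma prime_dvd_val (hP : ∀ p ∈ P, p.Prime) (B : P → Bool) (p : P) :
    (p:ℕ) ∣ val B ↔ B p = true := by
  have hp := (hP p p.2)
  unfold val
  rw [hp.prime.dvd_finsetProd_iff]
  constructor
  · rintro ⟨q, _, hq⟩
    have hq' := (hP q q.2)
    split_ifs at hq with h
    · have : (p:ℕ) = q := (Nat.prime_dvd_prime_iff_eq hp hq').1 hq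
      have : p = q := Subtype.ext this
      rw [this]; exact h
    · exact absurd hq hp.prime.not_dvd_one
  · intro h
    exact ⟨p, Finset.mem_univ _, by rw [if_pos h]⟩

lemma val_injective (hP : ∀ p ∈ P, p.Prime) : Function.Injective (val (P := P)) := by
  intro B B' h
  funext p
  have h1 := prime_dvd_val hP B p
  have h2 := prime_dvd_val hP B' p
  rw [h] at h1
  rw [h2] at h1
  exact Bool.eq_iff_iff.2 h1.symm

lemma val_coprime (hP : ∀ p ∈ P, p.Prime) {W : ℕ} (hW : ∀ p ∈ P, ¬ p ∣ W) (B : P → Bool) :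
    W.Coprime (val B) := by
  unfold val
  refine Nat.Coprime.prod_right fun p _ => ?_
  split_ifs
  · exact ((hP p p.2).coprime_iff_not_dvd.2 (hW p p.2)).symm
  · exact Nat.coprime_one_right _

/-- the selection attached to an integer -/
def sel (P : Finset ℕ) (s : ℕ) : P → Bool := fun p => decide ((p:ℕ) ∣ s)

lemma val_sel (hP : ∀ p ∈ P, p.Prime) {s : ℕ} (hs : Squarefree s) (hs2 : ∀ p, p.Prime → p ∣ s → p ∈ P) :
    val (sel P s) = s := by
  unfold val sel
  rw [Finset.prod_coe_sort P (fun p => if decide (p ∣ s) = true then p else 1)]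
  simp only [decide_eq_true_eq]
  rw [← Finset.prod_filter]
  have : P.filter (· ∣ s) = s.primeFactors := by
    ext p
    simp only [Finset.mem_filter, Nat.mem_primeFactors]
    constructor
    · rintro ⟨h1, h2⟩
      exact ⟨hP p h1, h2, hs.ne_zero⟩
    · rintro ⟨h1, h2, _⟩
      exact ⟨hs2 p h1 h2, h2⟩
  rw [this]
  exact Nat.prod_primeFactors_of_squarefree hs

lemma one_sub_sum_le_prod {ι : Type*} (s : Finset ι) (x : ι → ℝ) (h0 : ∀ i ∈ s, 0 ≤ x i)
    (h1 : ∀ i ∈ s, x i ≤ 1) : 1 - ∑ i ∈ s, x i ≤ ∏ i ∈ s, (1 - x i) := by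
  classical
  induction s using Finset.induction_on with
  | empty => simp
  | insert i s hi ih =>
    rw [Finset.sum_insert hi, Finset.prod_insert hi]
    have h2 := ih (fun j hj => h0 j (Finset.mem_insert_of_mem hj))
      (fun j hj => h1 j (Finset.mem_insert_of_mem hj))
    have h3 := h0 i (Finset.mem_insert_self _ _)
    have h4 := h1 i (Finset.mem_insert_self _ _)
    have h5 : 0 ≤ ∑ j ∈ s, x j := Finset.sum_nonneg fun j hj => h0 j (Finset.mem_insert_of_mem hj)
    have h6 := mul_le_mul_of_nonneg_left h2 (sub_nonneg.2 h4)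
    nlinarith

lemma sum_inv_sq_le {K0 : ℕ} (hK0 : 2 ≤ K0) (hP : ∀ p ∈ P, K0 ≤ p) :
    ∑ p ∈ P, 1 / (p:ℝ) ^ 2 ≤ 2 / (K0:ℝ) := by
  have h1 : ∀ n : ℕ, ∑ p ∈ Finset.Ico K0 (K0 + n), 1 / (p:ℝ) ^ 2 ≤
      1 / ((K0:ℝ) - 1) - 1 / ((K0:ℝ) + n - 1) := by
    intro n
    have hK : (2:ℝ) ≤ K0 := by exact_mod_cast hK0
    induction n with
    | zero => simp
    | succ n ih =>
      rw [← add_assoc, Finset.sum_Ico_succ_top (by omega)]
      have hn : (0:ℝ) ≤ n := Nat.cast_nonneg _
      have h2 : 1 / (((K0 + n : ℕ) : ℝ)) ^ 2 ≤ 1 / ((K0:ℝ) + n - 1) - 1 / ((K0:ℝ) + (n + 1 : ℕ) - 1) := by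
        push_cast
        have e1 : 1 / ((K0:ℝ) + n - 1) - 1 / ((K0:ℝ) + (n + 1) - 1) =
            1 / (((K0:ℝ) + n - 1) * ((K0:ℝ) + n)) := by
          have : (K0:ℝ) + n - 1 ≠ 0 := by linarith
          have : (K0:ℝ) + (n + 1) - 1 ≠ 0 := by linarith
          have : (K0:ℝ) + n ≠ 0 := by linarith
          field_simp
          ring
        rw [e1]
        refine one_div_le_one_div_of_le ?_ ?_
        · apply mul_pos <;> linarith
        · nlinarith
      linarith
  have h2 : P ⊆ Finset.Ico K0 (K0 + (P.sup id + 1)) := by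
    intro p hp
    have h3 : p ≤ P.sup id := Finset.le_sup (f := id) hp
    have := hP p hp
    simp only [Finset.mem_Ico]
    omega
  refine (Finset.sum_le_sum_of_subset_of_nonneg h2 fun p _ _ => by positivity).trans ?_
  refine (h1 _).trans ?_
  have hK : (2:ℝ) ≤ K0 := by exact_mod_cast hK0
  have h3 : 0 ≤ 1 / ((K0:ℝ) + (P.sup id + 1 : ℕ) - 1) := by
    have : (0:ℝ) ≤ ((P.sup id + 1 : ℕ) : ℝ) := Nat.cast_nonneg _
    apply div_nonneg zero_le_one
    linarith
  have h4 : 1 / ((K0:ℝ) - 1) ≤ 2 / K0 := by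
    rw [div_le_div_iff₀ (by linarith) (by linarith)]
    linarith
  linarith

lemma sum_dvd_le {W d a b : ℕ} (hd : 0 < d) :
    ∑ s ∈ (Finset.range b).filter (fun s => W.Coprime s ∧ a ≤ s ∧ d ∣ s), 1 / (s:ℝ) ≤
      (1 / (d:ℝ)) * win W d a b := by
  unfold win
  rw [Finset.mul_sum]
  have h1 : ∀ s ∈ (Finset.range b).filter (fun s => W.Coprime s ∧ a ≤ s ∧ d ∣ s),
      1 / (s:ℝ) = (fun t : ℕ => 1 / (d:ℝ) * (1 / (t:ℝ))) (s / d) := by
    intro s hs
    simp only [Finset.mem_filter, Finset.mem_range] at hs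
    obtain ⟨t, rfl⟩ := hs.2.2.2
    simp only [Nat.mul_div_cancel_left t hd]
    push_cast
    rw [one_div_mul_one_div]
  rw [Finset.sum_congr rfl h1, ← Finset.sum_image (f := fun t : ℕ => 1 / (d:ℝ) * (1 / (t:ℝ)))
    (g := fun s => s / d)]
  · refine Finset.sum_le_sum_of_subset_of_nonneg ?_ fun t _ _ => by positivity
    intro t ht
    simp only [Finset.mem_image, Finset.mem_filter, Finset.mem_range] at ht ⊢
    obtain ⟨s, ⟨h2, h3, h4, h5⟩, rfl⟩ := ht
    obtain ⟨t, rfl⟩ := h5
    rw [Nat.mul_div_cancel_left t hd]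
    refine ⟨?_, Nat.Coprime.coprime_mul_left_right h3, h4, h2⟩
    exact lt_of_le_of_lt (Nat.le_mul_of_pos_left t hd) h2
  · intro s hs s' hs' hss
    simp only [Finset.coe_filter, Finset.mem_range, Set.mem_ofPred_eq] at hs hs'
    obtain ⟨t, rfl⟩ := hs.2.2.2
    obtain ⟨t', rfl⟩ := hs'.2.2.2
    simp only [Nat.mul_div_cancel_left _ hd] at hss
    rw [hss]

/-- lower bound for a cell -/
theorem cell_lower {k W K0 a b : ℕ} (hW : 0 < W) (hP : ∀ p ∈ P, p.Prime)
    (hK0 : 2 * (k + 1) ≤ K0) (hPK : ∀ p ∈ P, K0 ≤ p) (hPb : ∀ p, p.Prime → ¬ p ∣ W → p < b → p ∈ P)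
    (ha : 0 < a) (hab : a < b) :
    cW W * Real.log ((b:ℝ) / a) * (1 - 2 * ((k:ℝ) + 1) / K0) - 2 * KV W ≤
      ∑ B : P → Bool, if a ≤ val B ∧ val B < b then pm (alo k) B else 0 := by
  classical
  have hK2 : 2 ≤ K0 := by omega
  set S := (Finset.range b).filter (fun s => W.Coprime s ∧ a ≤ s) with hS
  have hprimes : ∀ s ∈ S, ∀ p, p.Prime → p ∣ s → p ∈ P := by
    intro s hs p hp hps
    simp only [hS, Finset.mem_filter, Finset.mem_range] at hs
    refine hPb p hp (fun hpW => ?_) (lt_of_le_of_lt (Nat.le_of_dvd (by omega) hps) hs.1)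
    exact Nat.not_coprime_of_dvd_of_dvd hp.one_lt hpW hps hs.2.1
  -- the sum over `B` is at least the sum over squarefree `s`
  have h1 : ∑ s ∈ S.filter Squarefree, pm (alo k) (sel P s) ≤
      ∑ B : P → Bool, if a ≤ val B ∧ val B < b then pm (alo k) B else 0 := by
    rw [← Finset.sum_filter]
    have hinj : Set.InjOn (sel P) (S.filter Squarefree : Finset ℕ) := by
      intro s hs s' hs' h
      simp only [Finset.coe_filter, Set.mem_ofPred_eq] at hs hs'
      rw [← val_sel hP hs.2 (hprimes s hs.1), ← val_sel hP hs'.2 (hprimes s' hs'.1), h]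
    rw [← Finset.sum_image (f := fun B => pm (alo k) B) hinj]
    refine Finset.sum_le_sum_of_subset_of_nonneg ?_ fun B _ _ =>
      pm_nonneg (fun p hp => alo_nonneg (by have := hPK p hp; omega)) B
    intro B hB
    simp only [Finset.mem_image, Finset.mem_filter, Finset.mem_univ, true_and] at hB ⊢
    obtain ⟨s, ⟨hs, hsf⟩, rfl⟩ := hB
    rw [val_sel hP hsf (hprimes s hs)]
    simp only [hS, Finset.mem_filter, Finset.mem_range] at hs
    exact ⟨hs.2.2, hs.1⟩
  refine le_trans ?_ h1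
  -- pointwise bound
  have h2 : ∀ s ∈ S.filter Squarefree, (1 / (s:ℝ)) * (1 - ∑ p ∈ P.filter (· ∣ s), (k:ℝ) / p) ≤
      pm (alo k) (sel P s) := by
    intro s hs
    simp only [Finset.mem_filter] at hs
    have e0 : pm (alo k) (sel P s) = ∏ p ∈ P.filter (· ∣ s), alo k p := by
      unfold pm sel
      rw [Finset.prod_coe_sort P (fun p => if decide (p ∣ s) = true then alo k p else 1)]
      simp only [decide_eq_true_eq]
      rw [← Finset.prod_filter]
    have e1 : (s:ℝ) = ∏ p ∈ P.filter (· ∣ s), (p:ℝ) := by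
      conv_lhs => rw [← val_sel hP hs.2 (hprimes s hs.1)]
      unfold val sel
      rw [Finset.prod_coe_sort P (fun p => if decide (p ∣ s) = true then p else 1)]
      simp only [decide_eq_true_eq]
      rw [← Finset.prod_filter]
      push_cast
      rfl
    have e2 : 1 - ∑ p ∈ P.filter (· ∣ s), (k:ℝ) / p ≤ ∏ p ∈ P.filter (· ∣ s), (1 - (k:ℝ) / p) := by
      refine one_sub_sum_le_prod _ _ (fun p _ => by positivity) fun p hp => ?_
      have hp' := Finset.mem_of_mem_filter p hp
      have h3 := hPK p hp'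
      have h4 : (0:ℝ) < p := by exact_mod_cast (hP p hp').pos
      rw [div_le_one h4]
      exact_mod_cast (show k ≤ p by omega)
    have e3 : ∏ p ∈ P.filter (· ∣ s), (1 - (k:ℝ) / p) * (1 / (p:ℝ)) ≤ pm (alo k) (sel P s) := by
      rw [e0]
      refine Finset.prod_le_prod (fun p hp => ?_) fun p hp => ?_
      · have hp' := Finset.mem_of_mem_filter p hp
        have h3 := hPK p hp'
        have h4 : (0:ℝ) < p := by exact_mod_cast (hP p hp').pos
        refine mul_nonneg ?_ (by positivity)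
        rw [sub_nonneg, div_le_one h4]
        exact_mod_cast (show k ≤ p by omega)
      · have hp' := Finset.mem_of_mem_filter p hp
        have h3 := hPK p hp'
        have h4 : (2:ℝ) ≤ p := by exact_mod_cast (hP p hp').two_le
        have h5 : (k:ℝ) ≤ p := by exact_mod_cast (show k ≤ p by omega)
        unfold alo
        have e4 : (1 - (k:ℝ) / p) * (1 / (p:ℝ)) = ((p:ℝ) - k) / (p:ℝ) ^ 2 := by
          field_simp
        rw [e4]
        refine div_le_div_of_nonneg_left (by linarith) (by nlinarith) (by nlinarith)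
    refine le_trans ?_ e3
    rw [Finset.prod_mul_distrib]
    have e5 : ∏ p ∈ P.filter (· ∣ s), (1 / (p:ℝ)) = 1 / (s:ℝ) := by
      rw [e1, Finset.prod_div_distrib, Finset.prod_const_one]
    rw [e5, mul_comm]
    exact mul_le_mul_of_nonneg_right e2 (by positivity)
  refine le_trans ?_ (Finset.sum_le_sum h2)
  -- pass to all integers
  have h3 : ∑ s ∈ S, (1 / (s:ℝ)) * (1 - ∑ p ∈ P.filter (· ∣ s), (k:ℝ) / p -
        ((P.filter (fun p => p ^ 2 ∣ s)).card : ℝ)) ≤
      ∑ s ∈ S.filter Squarefree, (1 / (s:ℝ)) * (1 - ∑ p ∈ P.filter (· ∣ s), (k:ℝ) / p) := by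
    rw [Finset.sum_filter Squarefree]
    refine Finset.sum_le_sum fun s hs => ?_
    have hx : 0 ≤ ∑ p ∈ P.filter (· ∣ s), (k:ℝ) / p := Finset.sum_nonneg fun p _ => by positivity
    split_ifs with hsf
    · refine mul_le_mul_of_nonneg_left ?_ (by positivity)
      have : (0:ℝ) ≤ ((P.filter (fun p => p ^ 2 ∣ s)).card : ℝ) := Nat.cast_nonneg _
      linarith
    · have h4 : 0 < (P.filter (fun p => p ^ 2 ∣ s)).card := by
        rw [Finset.card_pos]
        rw [Nat.squarefree_iff_prime_squarefree] at hsf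
        push Not at hsf
        obtain ⟨p, hp, hps⟩ := hsf
        refine ⟨p, Finset.mem_filter.2 ⟨hprimes s hs p hp (dvd_trans (dvd_mul_right p p) hps), ?_⟩⟩
        rw [sq]; exact hps
      have h5 : (1:ℝ) ≤ ((P.filter (fun p => p ^ 2 ∣ s)).card : ℝ) := by exact_mod_cast h4
      refine mul_nonpos_of_nonneg_of_nonpos (by positivity) (by linarith)
  refine le_trans ?_ h3
  -- evaluate
  set D := cW W * Real.log ((b:ℝ) / a) with hD
  have hD0 : 0 ≤ D := by
    refine mul_nonneg (cW_nonneg W) (Real.log_nonneg ?_)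
    rw [le_div_iff₀ (by exact_mod_cast ha), one_mul]
    exact_mod_cast hab.le
  have hKV := KV_pos hW
  have hsum : ∑ s ∈ S, (1 / (s:ℝ)) * (1 - ∑ p ∈ P.filter (· ∣ s), (k:ℝ) / p -
        ((P.filter (fun p => p ^ 2 ∣ s)).card : ℝ)) =
      win W 1 a b - ∑ p ∈ P, ((k:ℝ) / p) * ∑ s ∈ S.filter (p ∣ ·), 1 / (s:ℝ) -
        ∑ p ∈ P, ∑ s ∈ S.filter (p ^ 2 ∣ ·), 1 / (s:ℝ) := by
    have e1 : ∀ s ∈ S, (1 / (s:ℝ)) * (1 - ∑ p ∈ P.filter (· ∣ s), (k:ℝ) / p -
        ((P.filter (fun p => p ^ 2 ∣ s)).card : ℝ)) =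
        1 / (s:ℝ) - (∑ p ∈ P, if p ∣ s then (k:ℝ) / p * (1 / (s:ℝ)) else 0) -
        ∑ p ∈ P, if p ^ 2 ∣ s then 1 / (s:ℝ) else 0 := by
      intro s _
      rw [← Finset.sum_filter, ← Finset.sum_filter, Finset.sum_const, nsmul_eq_mul,
        ← Finset.sum_mul]
      ring
    rw [Finset.sum_congr rfl e1, Finset.sum_sub_distrib, Finset.sum_sub_distrib, Finset.sum_comm,
      Finset.sum_comm (s := S) (t := P)]
    congr 1
    · congr 1
      · unfold win
        refine Finset.sum_congr ?_ fun _ _ => rfl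
        ext s
        simp only [hS, Finset.mem_filter, Finset.mem_range, one_mul]
        tauto
      · refine Finset.sum_congr rfl fun p _ => ?_
        rw [← Finset.sum_filter, Finset.mul_sum]
    · refine Finset.sum_congr rfl fun p _ => ?_
      rw [← Finset.sum_filter]
  rw [hsum]
  have hwin : ∀ d, 0 < d → ∑ s ∈ S.filter (d ∣ ·), 1 / (s:ℝ) ≤ (1 / (d:ℝ)) * (D + KV W) := by
    intro d hd
    have e1 : S.filter (d ∣ ·) =
        (Finset.range b).filter (fun s => W.Coprime s ∧ a ≤ s ∧ d ∣ s) := by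
      ext s
      simp only [hS, Finset.mem_filter, Finset.mem_range]
      tauto
    rw [e1]
    refine (sum_dvd_le hd).trans ?_
    refine mul_le_mul_of_nonneg_left ?_ (by positivity)
    exact win_upper hW hd ha hab.le
  have h4 : ∑ p ∈ P, ((k:ℝ) / p) * ∑ s ∈ S.filter (p ∣ ·), 1 / (s:ℝ) ≤
      (k:ℝ) * (D + KV W) * ∑ p ∈ P, 1 / (p:ℝ) ^ 2 := by
    rw [Finset.mul_sum]
    refine Finset.sum_le_sum fun p hp => ?_
    have e1 := hwin p (hP p hp).pos
    have e2 := mul_le_mul_of_nonneg_left e1 (show (0:ℝ) ≤ (k:ℝ) / p by positivity)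
    refine e2.trans (le_of_eq ?_)
    have : (p:ℝ) ≠ 0 := by exact_mod_cast (hP p hp).ne_zero
    field_simp
  have h5 : ∑ p ∈ P, ∑ s ∈ S.filter (p ^ 2 ∣ ·), 1 / (s:ℝ) ≤
      (D + KV W) * ∑ p ∈ P, 1 / (p:ℝ) ^ 2 := by
    rw [Finset.mul_sum]
    refine Finset.sum_le_sum fun p hp => ?_
    have e1 := hwin (p ^ 2) (pow_pos (hP p hp).pos 2)
    push_cast at e1
    linarith
  have h6 := sum_inv_sq_le hK2 hPK
  have h7 := win_lower hW ha hab
  have hK0' : (0:ℝ) < K0 := by exact_mod_cast (show 0 < K0 by omega)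
  have h8 : ((k:ℝ) + 1) * (D + KV W) * ∑ p ∈ P, 1 / (p:ℝ) ^ 2 ≤
      ((k:ℝ) + 1) * (D + KV W) * (2 / K0) :=
    mul_le_mul_of_nonneg_left h6 (by positivity)
  have h9 : 2 * ((k:ℝ) + 1) / K0 ≤ 1 := by
    rw [div_le_one hK0']
    exact_mod_cast hK0
  have h10 : KV W * (2 * ((k:ℝ) + 1) / K0) ≤ KV W * 1 := mul_le_mul_of_nonneg_left h9 hKV.le
  have h11 : ((k:ℝ) + 1) * (D + KV W) * (2 / K0) =
      D * (2 * ((k:ℝ) + 1) / K0) + KV W * (2 * ((k:ℝ) + 1) / K0) := by ring
  linarith

/-- upper bound for a cell -/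
theorem cell_upper {W a b : ℕ} (hW : 0 < W) (hP : ∀ p ∈ P, p.Prime) (hPW : ∀ p ∈ P, ¬ p ∣ W)
    (ha : 0 < a) (hab : a < b) :
    ∑ B : P → Bool, (if a ≤ val B ∧ val B < b then pm aup B else 0) ≤
      (cW W * Real.log ((b:ℝ) / a) + KV W) *
        ∏ p ∈ P, (1 + (2 * (p:ℝ) - 1) / ((p:ℝ) * ((p:ℝ) - 1) ^ 2)) := by
  classical
  set y : ℕ → ℝ := fun p => (2 * (p:ℝ) - 1) / ((p:ℝ) * ((p:ℝ) - 1) ^ 2) with hy
  have hy0 : ∀ p ∈ P, 0 ≤ y p := by
    intro p hp
    have : (2:ℝ) ≤ p := by exact_mod_cast (hP p hp).two_le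
    simp only [hy]
    apply div_nonneg
    · linarith
    · positivity
  have haup : ∀ p ∈ P, aup p = 1 / (p:ℝ) + y p := by
    intro p hp
    have h2 : (2:ℝ) ≤ p := by exact_mod_cast (hP p hp).two_le
    have h3 : (p:ℝ) - 1 ≠ 0 := by linarith
    have h4 : (p:ℝ) ≠ 0 := by linarith
    simp only [hy, aup]
    field_simp
    ring
  set c : P → Bool → Bool → ℝ := fun p D B =>
    if B then (if D then y p else 1 / ((p:ℕ):ℝ)) else (if D then 0 else 1) with hc
  have h1 : ∀ B : P → Bool, pm aup B = ∑ D : P → Bool, ∏ p : P, c p (D p) (B p) := by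
    intro B
    have e1 : ∑ D : P → Bool, ∏ p : P, c p (D p) (B p) = ∏ p : P, ∑ D : Bool, c p D (B p) := by
      rw [Finset.prod_univ_sum, Fintype.piFinset_univ]
    rw [e1]
    unfold pm
    refine Finset.prod_congr rfl fun p _ => ?_
    rw [Fintype.sum_bool]
    simp only [hc]
    by_cases hB : B p = true
    · simp only [hB, if_true, Bool.false_eq_true, if_false]
      rw [haup p p.2]; ring
    · simp [hB]
  have h2 : ∑ B : P → Bool, (if a ≤ val B ∧ val B < b then pm aup B else 0) =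
      ∑ D : P → Bool, ∑ B : P → Bool,
        (if a ≤ val B ∧ val B < b then ∏ p : P, c p (D p) (B p) else 0) := by
    rw [Finset.sum_comm]
    refine Finset.sum_congr rfl fun B _ => ?_
    split_ifs
    · exact h1 B
    · simp
  rw [h2]
  have h3 : ∀ D : P → Bool, ∑ B : P → Bool,
      (if a ≤ val B ∧ val B < b then ∏ p : P, c p (D p) (B p) else 0) ≤
      (cW W * Real.log ((b:ℝ) / a) + KV W) * ∏ p : P, (if D p then y p else 1) := by
    intro D
    have hyD : 0 ≤ ∏ p : P, (if D p then y p else 1) := by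
      refine Finset.prod_nonneg fun p _ => ?_
      split_ifs
      · exact hy0 p p.2
      · exact zero_le_one
    -- restrict to `D ≤ B`
    have e1 : ∀ B : P → Bool, (if a ≤ val B ∧ val B < b then ∏ p : P, c p (D p) (B p) else 0) =
        if (∀ p, D p = true → B p = true) ∧ a ≤ val B ∧ val B < b then
          (∏ p : P, (if D p then y p else 1)) *
            (1 / (val (fun p => B p && !(D p)) : ℝ)) else 0 := by
      intro B
      by_cases hab' : a ≤ val B ∧ val B < b
      · rw [if_pos hab']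
        by_cases hDB : ∀ p, D p = true → B p = true
        · rw [if_pos ⟨hDB, hab'⟩]
          unfold val
          push_cast
          rw [one_div, ← Finset.prod_inv_distrib, ← Finset.prod_mul_distrib]
          refine Finset.prod_congr rfl fun p _ => ?_
          simp only [hc]
          by_cases hD : D p = true
          · have := hDB p hD
            simp [hD, this]
          · by_cases hB : B p = true
            · simp [hD, hB]
            · simp [hD, hB]
        · rw [if_neg (fun h => hDB h.1)]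
          push Not at hDB
          obtain ⟨p, hp1, hp2⟩ := hDB
          refine Finset.prod_eq_zero (Finset.mem_univ p) ?_
          simp [hc, hp1, hp2]
      · rw [if_neg hab', if_neg (fun h => hab' h.2)]
    simp_rw [e1]
    rw [← Finset.sum_filter, ← Finset.mul_sum, mul_comm]
    refine mul_le_mul_of_nonneg_right ?_ hyD
    have hvalpos : ∀ B : P → Bool, 0 < val B := val_pos fun p hp => (hP p hp).pos
    have hsplit : ∀ B : P → Bool, (∀ p, D p = true → B p = true) →
        val B = val D * val (fun p => B p && !(D p)) := by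
      intro B hDB
      unfold val
      rw [← Finset.prod_mul_distrib]
      refine Finset.prod_congr rfl fun p _ => ?_
      by_cases hD : D p = true
      · simp [hD, hDB p hD]
      · simp [hD]
    have e2 : ∑ B ∈ Finset.univ.filter (fun B : P → Bool =>
        (∀ p, D p = true → B p = true) ∧ a ≤ val B ∧ val B < b),
        (1 / (val (fun p => B p && !(D p)) : ℝ)) ≤ win W (val D) a b := by
      have hinj : Set.InjOn (fun B : P → Bool => val (fun p => B p && !(D p)))
          ((Finset.univ.filter (fun B : P → Bool =>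
            (∀ p, D p = true → B p = true) ∧ a ≤ val B ∧ val B < b) : Finset (P → Bool)) :
            Set (P → Bool)) := by
        intro B hB B' hB' h
        simp only [Finset.coe_filter, Finset.mem_univ, true_and, Set.mem_ofPred_eq] at hB hB'
        apply val_injective hP
        rw [hsplit B hB.1, hsplit B' hB'.1]
        congr 1
      have := Finset.sum_image (f := fun s : ℕ => 1 / (s:ℝ)) hinj
      rw [← this]
      unfold win
      refine Finset.sum_le_sum_of_subset_of_nonneg ?_ fun s _ _ => by positivity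
      intro s hs
      simp only [Finset.mem_image, Finset.mem_filter, Finset.mem_univ, true_and,
        Finset.mem_range] at hs ⊢
      obtain ⟨B, ⟨h4, h5, h6⟩, rfl⟩ := hs
      rw [hsplit B h4] at h5 h6
      refine ⟨lt_of_le_of_lt (Nat.le_mul_of_pos_left _ (hvalpos D)) h6,
        val_coprime hP hPW _, h5, h6⟩
    exact e2.trans (win_upper hW (hvalpos D) ha hab.le)
  refine (Finset.sum_le_sum fun D _ => h3 D).trans (le_of_eq ?_)
  rw [← Finset.mul_sum]
  congr 1
  have e1 : ∑ D : P → Bool, ∏ p : P, (if D p then y p else 1) =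
      ∏ p : P, ∑ D : Bool, (if D then y p else 1) := by
    rw [Finset.prod_univ_sum, Fintype.piFinset_univ]
  rw [e1]
  rw [← Finset.prod_coe_sort P (fun p => 1 + (2 * (p:ℝ) - 1) / ((p:ℝ) * ((p:ℝ) - 1) ^ 2))]
  refine Finset.prod_congr rfl fun p _ => ?_
  rw [Fintype.sum_bool]
  simp [hy]
  ring

end Pool.Agent.Maynard
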