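import Pool.Agent.Lib.Maynard.Theta

/-!
# The error term of the prime-weighted sum
-/

open Finset

namespace Pool.Agent.Maynard

variable {k : ℕ} {P : Finset ℕ}

/-- truncated discrepancy -/
noncomputable def FB (P : Finset ℕ) (N s W Y : ℕ) (B : P → Bool) : ℝ :=
  if val B ≤ Y then EE N s (W * val B) else 0

lemma FB_nonneg (N s W Y : ℕ) (B : P → Bool) : 0 ≤ FB P N s W Y B := by
  unfold FB
  split_ifs
  · exact EE_nonneg _ _ _
  · exact le_rfl

lemma tot_mg (z z' : Col P k) : tot (fun p => mg (z p) (z' p)) =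
    val (fun p => decide (z p ≠ none) || decide (z' p ≠ none)) := by
  unfold tot
  congr 1
  funext p
  by_cases h1 : z p = none
  · simp [mg, h1]
  · simp [mg, h1]

lemma val_or_le (hP : ∀ p ∈ P, 0 < p) (B B' : P → Bool) :
    val (fun p => B p || B' p) ≤ val B * val B' := by
  unfold val
  rw [← Finset.prod_mul_distrib]
  refine Finset.prod_le_prod' fun p _ => ?_
  have hp := hP p p.2
  by_cases h1 : B p = true
  · by_cases h2 : B' p = true
    · simp only [h1, h2, Bool.or_self, if_true]
      exact Nat.le_mul_of_pos_left _ hp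
    · simp [h1, h2]
  · by_cases h2 : B' p = true
    · simp [h1, h2]
    · simp [h1, h2]

lemma sum_lam_EE_le (hP : ∀ p ∈ P, p.Prime) {Z T M : ℕ} (hZ : 2 ≤ Z) (N s W : ℕ) :
    ∑ z : Col P k, ∑ z' : Col P k, |lam (cc Z T M) z| * |lam (cc Z T M) z'| *
        EE N s (W * tot (fun p => mg (z p) (z' p))) ≤
      L0 P k ^ 2 * ∑ B : P → Bool, FB P N s W (Z ^ M * Z ^ M) B *
        pm (fun _ => (2 * (k:ℝ) + 1) ^ 2) B := by
  classical
  have hP2 : ∀ p ∈ P, 2 ≤ p := fun p hp => (hP p hp).two_le
  have hP0 : ∀ p ∈ P, 0 < p := fun p hp => (hP p hp).pos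
  -- pointwise
  have h1 : ∀ z z' : Col P k, |lam (cc Z T M) z| * |lam (cc Z T M) z'| *
        EE N s (W * tot (fun p => mg (z p) (z' p))) ≤
      L0 P k ^ 2 * (FB P N s W (Z ^ M * Z ^ M)
        (fun p => decide (z p ≠ none) || decide (z' p ≠ none)) * (two z * two z')) := by
    intro z z'
    have hL := L0_ge_one (k := k) hP2
    by_cases h0 : lam (cc Z T M) z = 0
    · rw [h0, abs_zero, zero_mul, zero_mul]
      have := FB_nonneg (P := P) N s W (Z ^ M * Z ^ M)
        (fun p => decide (z p ≠ none) || decide (z' p ≠ none))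
      have := two_nonneg z
      have := two_nonneg z'
      positivity
    by_cases h0' : lam (cc Z T M) z' = 0
    · rw [h0', abs_zero, mul_zero, zero_mul]
      have := FB_nonneg (P := P) N s W (Z ^ M * Z ^ M)
        (fun p => decide (z p ≠ none) || decide (z' p ≠ none))
      have := two_nonneg z
      have := two_nonneg z'
      positivity
    have h2 := abs_lam_le (k := k) (Z := Z) (T := T) (M := M) hP2 z
    have h3 := abs_lam_le (k := k) (Z := Z) (T := T) (M := M) hP2 z'
    have h4 := lam_support hP hZ h0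
    have h5 := lam_support hP hZ h0'
    have h6 : FB P N s W (Z ^ M * Z ^ M) (fun p => decide (z p ≠ none) || decide (z' p ≠ none)) =
        EE N s (W * tot (fun p => mg (z p) (z' p))) := by
      unfold FB
      rw [tot_mg, if_pos]
      refine (val_or_le hP0 _ _).trans ?_
      exact Nat.mul_le_mul h4 h5
    rw [h6]
    have hE := EE_nonneg N s (W * tot (fun p => mg (z p) (z' p)))
    have h7 : |lam (cc Z T M) z| * |lam (cc Z T M) z'| ≤ (two z * L0 P k) * (two z' * L0 P k) :=
      mul_le_mul h2 h3 (abs_nonneg _) ((abs_nonneg _).trans h2)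
    calc _ ≤ (two z * L0 P k) * (two z' * L0 P k) *
          EE N s (W * tot (fun p => mg (z p) (z' p))) := mul_le_mul_of_nonneg_right h7 hE
      _ = _ := by ring
  refine (Finset.sum_le_sum fun z _ => Finset.sum_le_sum fun z' _ => h1 z z').trans ?_
  simp_rw [← Finset.mul_sum]
  refine mul_le_mul_of_nonneg_left ?_ (sq_nonneg _)
  -- rewrite as a sum over functions into pairs
  have h2 : ∑ z : Col P k, ∑ z' : Col P k, (FB P N s W (Z ^ M * Z ^ M)
        (fun p => decide (z p ≠ none) || decide (z' p ≠ none)) * (two z * two z')) =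
      ∑ x : P → Option (Fin k) × Option (Fin k), FB P N s W (Z ^ M * Z ^ M)
        (fun p => decide ((x p).1 ≠ none) || decide ((x p).2 ≠ none)) *
        ∏ p : P, ((if (x p).1 = none then (1:ℝ) else 2) * (if (x p).2 = none then (1:ℝ) else 2)) := by
    rw [← Fintype.sum_prod_type']
    symm
    refine Fintype.sum_equiv (Equiv.arrowProdEquivProdArrow P (fun _ => Option (Fin k))
      (fun _ => Option (Fin k))) _ _ fun x => ?_
    unfold two
    rw [Finset.prod_mul_distrib]
    rfl
  rw [h2]
  refine push' (ι := P) (X := Option (Fin k) × Option (Fin k)) (Z := Bool)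
    (fun _ x => decide (x.1 ≠ none) || decide (x.2 ≠ none))
    (fun _ x => (if x.1 = none then (1:ℝ) else 2) * (if x.2 = none then (1:ℝ) else 2))
    (fun _ x => by split_ifs <;> norm_num) _ (FB P N s W (Z ^ M * Z ^ M)) (fun x => le_rfl)
    (fun B => FB_nonneg _ _ _ _ B) (fun p b => if b then (2 * (k:ℝ) + 1) ^ 2 else 1) (fun p b => ?_)
  have hsum : ∑ x : Option (Fin k), (if x = none then (1:ℝ) else 2) = 2 * (k:ℝ) + 1 := by
    rw [Fintype.sum_option]
    simp
    ring
  cases b with
  | true =>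
    simp only [if_true]
    calc _ ≤ ∑ x : Option (Fin k) × Option (Fin k),
          (if x.1 = none then (1:ℝ) else 2) * (if x.2 = none then (1:ℝ) else 2) := by
          refine Finset.sum_le_sum fun x _ => ?_
          split_ifs <;> norm_num
      _ = (2 * (k:ℝ) + 1) ^ 2 := by
          rw [Fintype.sum_prod_type]
          have e := Finset.sum_mul_sum Finset.univ Finset.univ
            (fun x : Option (Fin k) => if x = none then (1:ℝ) else 2)
            (fun x : Option (Fin k) => if x = none then (1:ℝ) else 2)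
          rw [hsum] at e
          rw [sq, e]
  | false =>
    simp only [Bool.false_eq_true, if_false]
    rw [Finset.sum_eq_single (none, none)]
    · simp
    · rintro ⟨x, y⟩ _ hxy
      rw [if_neg]
      intro h
      apply hxy
      simp only [Bool.or_eq_false_iff, decide_eq_false_iff_not, not_not] at h
      rw [h.1, h.2]
    · intro h; exact absurd (Finset.mem_univ _) h

/-- weighted sum of discrepancies -/
lemma sum_FB_pm_le {W K0 R : ℕ} (hS : Setting P W K0 R) (hW : 0 < W) {N s Y : ℕ} (hN : 1 ≤ N)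
    (hs : s ≤ N) (hY : W * Y ≤ N) (c : ℕ) :
    ∑ B : P → Bool, FB P N s W Y B * pm (fun _ => (c:ℝ)) B ≤
      (2 * Real.log (3 * N : ℕ) + 1) * N * LL R ^ (2 * c) := by
  have hP2 : ∀ p ∈ P, 2 ≤ p := fun p hp => (hS.prime p hp).two_le
  have h1 : ∀ B : P → Bool, FB P N s W Y B * pm (fun _ => (c:ℝ)) B ≤
      (2 * Real.log (3 * N : ℕ) + 1) * N * pm (fun p => ((2 * c : ℕ) : ℝ) / p) B := by
    intro B
    have hlog : (0:ℝ) ≤ Real.log (3 * N : ℕ) := Real.log_natCast_nonneg _
    have hpm : pm (P := P) (fun p => ((2 * c : ℕ) : ℝ) / p) B =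
        pm (fun _ => (c:ℝ)) B * pm (fun p => 2 / (p:ℝ)) B := by
      unfold pm
      rw [← Finset.prod_mul_distrib]
      refine Finset.prod_congr rfl fun p _ => ?_
      split_ifs
      · push_cast; ring
      · ring
    have hpc : 0 ≤ pm (P := P) (fun _ => (c:ℝ)) B := pm_nonneg (fun _ _ => Nat.cast_nonneg c) B
    have hp2 : 0 ≤ pm (P := P) (fun p => 2 / (p:ℝ)) B := pm_nonneg (fun _ _ => by positivity) B
    have hvpos : 0 < val B := val_pos (fun p hp => (hS.prime p hp).pos) B
    rw [hpm]
    have key : FB P N s W Y B ≤ (2 * Real.log (3 * N : ℕ) + 1) * N * pm (fun p => 2 / (p:ℝ)) B := by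
      unfold FB
      split_ifs with hv
      · have h2 := EE_trivial (Q := W * val B) hN hs (by positivity)
          ((Nat.mul_le_mul_left W hv).trans hY)
        have h3 : (N:ℝ) / (W * val B : ℕ) ≤ N * pm (fun p => 2 / (p:ℝ)) B := by
          rw [div_eq_mul_inv]
          refine mul_le_mul_of_nonneg_left ?_ (Nat.cast_nonneg N)
          have h4 : ((W * val B : ℕ) : ℝ)⁻¹ ≤ ((val B : ℕ) : ℝ)⁻¹ := by
            have e1 : (0:ℝ) < ((val B : ℕ) : ℝ) := by exact_mod_cast hvpos
            have e2 : ((val B : ℕ) : ℝ) ≤ ((W * val B : ℕ) : ℝ) := by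
              exact_mod_cast Nat.le_mul_of_pos_left _ hW
            exact inv_anti₀ e1 e2
          refine h4.trans ?_
          unfold val pm
          push_cast
          rw [← Finset.prod_inv_distrib]
          refine Finset.prod_le_prod (fun p _ => ?_) fun p _ => ?_
          · split_ifs <;> positivity
          · split_ifs
            · rw [inv_eq_one_div]
              have : (0:ℝ) < ((p:ℕ):ℝ) := by exact_mod_cast (hS.prime p p.2).pos
              gcongr
              norm_num
            · norm_num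
        have h5 : (N:ℝ) / Nat.totient (W * val B) ≤ N * pm (fun p => 2 / (p:ℝ)) B := by
          rw [div_eq_mul_inv]
          refine mul_le_mul_of_nonneg_left ?_ (Nat.cast_nonneg N)
          have h4 : ((Nat.totient (W * val B) : ℕ) : ℝ)⁻¹ ≤ ((Nat.totient (val B) : ℕ) : ℝ)⁻¹ := by
            have e1 : (0:ℝ) < ((Nat.totient (val B) : ℕ) : ℝ) := by
              exact_mod_cast Nat.totient_pos.2 hvpos
            have e2 : ((Nat.totient (val B) : ℕ) : ℝ) ≤ ((Nat.totient (W * val B) : ℕ) : ℝ) := by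
              rw [Nat.totient_mul (val_coprime hS.prime hS.ndvd B)]
              exact_mod_cast Nat.le_mul_of_pos_left _ (Nat.totient_pos.2 hW)
            exact inv_anti₀ e1 e2
          refine h4.trans ?_
          rw [totient_tot hS.prime]
          unfold pm
          rw [← Finset.prod_inv_distrib]
          refine Finset.prod_le_prod (fun p _ => ?_) fun p _ => ?_
          · have := phi_pos hP2 p p.2
            split_ifs <;> positivity
          · have h6 := phi_pos hP2 p p.2
            have h7 : (2:ℝ) ≤ ((p:ℕ):ℝ) := by exact_mod_cast hP2 p p.2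
            split_ifs
            · rw [inv_eq_one_div, div_le_div_iff₀ h6 (by linarith)]
              linarith
            · norm_num
        have h6 : 2 * Real.log (3 * N : ℕ) * ((N:ℝ) / (W * val B : ℕ)) ≤
            2 * Real.log (3 * N : ℕ) * (N * pm (fun p => 2 / (p:ℝ)) B) :=
          mul_le_mul_of_nonneg_left h3 (by positivity)
        nlinarith
      · positivity
    calc FB P N s W Y B * pm (fun _ => (c:ℝ)) B
        ≤ ((2 * Real.log (3 * N : ℕ) + 1) * N * pm (fun p => 2 / (p:ℝ)) B) *
          pm (fun _ => (c:ℝ)) B := mul_le_mul_of_nonneg_right key hpc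
      _ = _ := by ring
  refine (Finset.sum_le_sum fun B _ => h1 B).trans ?_
  rw [← Finset.mul_sum]
  refine mul_le_mul_of_nonneg_left ?_ ?_
  · have h2 : ∑ B : P → Bool, pm (fun p => ((2 * c : ℕ) : ℝ) / p) B =
        ∏ p ∈ P, (1 + ((2 * c : ℕ) : ℝ) / p) := by
      unfold pm
      have e1 : ∑ D : P → Bool, ∏ p : P, (if D p then ((2 * c : ℕ) : ℝ) / (p:ℕ) else 1) =
          ∏ p : P, ∑ D : Bool, (if D then ((2 * c : ℕ) : ℝ) / (p:ℕ) else 1) := by
        rw [Finset.prod_univ_sum, Fintype.piFinset_univ]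
      rw [e1, ← Finset.prod_coe_sort P (fun p => 1 + ((2 * c : ℕ) : ℝ) / p)]
      refine Finset.prod_congr rfl fun p _ => ?_
      rw [Fintype.sum_bool]
      simp
      ring
    rw [h2]
    exact prod_inv_le hS.prime hS.le (2 * c)
  · have hlog : (0:ℝ) ≤ Real.log (3 * N : ℕ) := Real.log_natCast_nonneg _
    positivity

/-- unweighted sum of discrepancies -/
lemma sum_FB_le {W K0 R : ℕ} (hS : Setting P W K0 R) (hW : 0 < W) {N s Y X : ℕ}
    (hY : W * Y ≤ X) :
    ∑ B : P → Bool, FB P N s W Y B ≤ ∑ Q ∈ Finset.Ioc 0 X, EE N s Q := by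
  classical
  unfold FB
  rw [← Finset.sum_filter]
  have hinj : Set.InjOn (fun B : P → Bool => W * val B)
      ((Finset.univ.filter (fun B : P → Bool => val B ≤ Y) : Finset (P → Bool)) :
        Set (P → Bool)) := by
    intro B _ B' _ h
    exact val_injective hS.prime (Nat.eq_of_mul_eq_mul_left hW h)
  rw [← Finset.sum_image (f := fun Q => EE N s Q) hinj]
  refine Finset.sum_le_sum_of_subset_of_nonneg ?_ fun Q _ _ => EE_nonneg _ _ _
  intro Q hQ
  simp only [Finset.mem_image, Finset.mem_filter, Finset.mem_univ, true_and,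
    Finset.mem_Ioc] at hQ ⊢
  obtain ⟨B, hB, rfl⟩ := hQ
  have : 0 < val B := val_pos (fun p hp => (hS.prime p hp).pos) B
  exact ⟨by positivity, (Nat.mul_le_mul_left W hB).trans hY⟩

/-- splitting with a parameter -/
lemma sum_split {N s W Y : ℕ} (c : ℕ) {t : ℝ} (ht : 0 < t) :
    ∑ B : P → Bool, FB P N s W Y B * pm (fun _ => (c:ℝ)) B ≤
      (∑ B : P → Bool, FB P N s W Y B * pm (fun _ => ((c ^ 2 : ℕ):ℝ)) B) / t +
        t * ∑ B : P → Bool, FB P N s W Y B := by
  rw [Finset.sum_div, Finset.mul_sum, ← Finset.sum_add_distrib]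
  refine Finset.sum_le_sum fun B _ => ?_
  have hF := FB_nonneg N s W Y B
  have h1 : pm (P := P) (fun _ => ((c ^ 2 : ℕ):ℝ)) B = pm (fun _ => (c:ℝ)) B ^ 2 := by
    unfold pm
    rw [← Finset.prod_pow]
    refine Finset.prod_congr rfl fun p _ => ?_
    split_ifs
    · push_cast; ring
    · ring
  rw [h1]
  set x := pm (P := P) (fun _ => (c:ℝ)) B with hx
  have h2 : x ≤ x ^ 2 / t + t := by
    rw [div_add' _ _ _ ht.ne', le_div_iff₀ ht]
    nlinarith [sq_nonneg (x - t), sq_nonneg x, sq_nonneg t]
  calc FB P N s W Y B * x ≤ FB P N s W Y B * (x ^ 2 / t + t) := mul_le_mul_of_nonneg_left h2 hF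
    _ = _ := by ring

/-- The prime-weighted sieve sum. -/
theorem sum_theta_ge {W K0 Z T M : ℕ} (hS : Setting P W K0 (Z ^ M))
    (hZ : 2 ≤ Z) {h : Fin k → ℕ} (hsep : Sep P h)
    {N a : ℕ} (hRN : Z ^ M ≤ N) (m0 : Fin k) (ha : (a + h m0).Coprime W) :
    (N:ℝ) / Nat.totient W * EG (fun p : P => w2 m0 (p:ℕ)) (cc Z T M) -
      L0 P k ^ 2 * ∑ B : P → Bool, FB P N (h m0) W (Z ^ M * Z ^ M) B *
        pm (fun _ => (2 * (k:ℝ) + 1) ^ 2) B ≤
    ∑ n ∈ (Finset.Ioc N (2 * N)).filter (fun n => n ≡ a [MOD W]),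
        tht (n + h m0) * GG (cc Z T M) (JJ (P := P) h n) ^ 2 := by
  have h1 := compare (fun p : P => w2 m0 (p:ℕ)) (cc Z T M)
    ((Finset.Ioc N (2 * N)).filter (fun n => n ≡ a [MOD W])) (fun n => tht (n + h m0))
    (fun n => JJ (P := P) h n) ((N:ℝ) / Nat.totient W)
    (fun z z' => EE N (h m0) (W * tot (fun p => mg (z p) (z' p)))) (fun z z' _ _ => by
      refine compare_hyp _ _ _ _ _ (fun μ => EE N (h m0) (W * tot μ))
        (fun μ => EE_nonneg _ _ _) z z' (fun _ => ?_)
      exact theta_model hS hsep hRN m0 ha _)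
  have h2 := sum_lam_EE_le (k := k) (T := T) (M := M) hS.prime hZ N (h m0) W
  have h3 := (abs_le.1 h1).1
  linarith

end Pool.Agent.Maynard
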