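import Pool.Agent.Lib.Maynard.Bounds

/-!
# Bounds for the sieve coefficients
-/

open Finset

namespace Pool.Agent.Maynard

/-! ### A crude Mertens bound -/

lemma sum_inv_dyadic {j : ℕ} (hj : 1 ≤ j) :
    ∑ p ∈ (Finset.Ioc (2 ^ j) (2 ^ (j + 1))).filter Nat.Prime, 1 / (p:ℝ) ≤ 4 / j := by
  have hlog2 : 0 < Real.log 2 := Real.log_pos (by norm_num)
  have hj' : (0:ℝ) < j := by exact_mod_cast hj
  have h1 : ((Finset.Ioc (2 ^ j) (2 ^ (j + 1))).filter Nat.Prime).card * ((j:ℝ) * Real.log 2) ≤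
      Real.log 4 * 2 ^ (j + 1) := by
    have h2 : ∑ p ∈ (Finset.Ioc (2 ^ j) (2 ^ (j + 1))).filter Nat.Prime, ((j:ℝ) * Real.log 2) ≤
        ∑ p ∈ (Finset.Ioc (2 ^ j) (2 ^ (j + 1))).filter Nat.Prime, Real.log p := by
      refine Finset.sum_le_sum fun p hp => ?_
      simp only [Finset.mem_filter, Finset.mem_Ioc] at hp
      rw [← Real.log_pow]
      refine Real.log_le_log (by positivity) ?_
      exact_mod_cast hp.1.1.le
    rw [Finset.sum_const, nsmul_eq_mul] at h2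
    refine h2.trans ?_
    have h3 := Chebyshev.theta_le_log4_mul_x (x := ((2 ^ (j + 1) : ℕ) : ℝ)) (by positivity)
    rw [Chebyshev.theta_eq_sum_Icc] at h3
    push_cast at h3
    refine le_trans ?_ h3
    refine Finset.sum_le_sum_of_subset_of_nonneg ?_ fun p _ _ => Real.log_natCast_nonneg p
    intro p hp
    simp only [Finset.mem_filter, Finset.mem_Ioc, Finset.mem_Icc] at hp ⊢
    refine ⟨⟨Nat.zero_le _, ?_⟩, hp.2⟩
    rw [Nat.le_floor_iff (by positivity)]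
    exact_mod_cast hp.1.2
  have h4 : ∑ p ∈ (Finset.Ioc (2 ^ j) (2 ^ (j + 1))).filter Nat.Prime, 1 / (p:ℝ) ≤
      ((Finset.Ioc (2 ^ j) (2 ^ (j + 1))).filter Nat.Prime).card * (1 / 2 ^ j) := by
    have : ∑ p ∈ (Finset.Ioc (2 ^ j) (2 ^ (j + 1))).filter Nat.Prime, 1 / (p:ℝ) ≤
      ∑ p ∈ (Finset.Ioc (2 ^ j) (2 ^ (j + 1))).filter Nat.Prime, (1 / (2:ℝ) ^ j) := by
      refine Finset.sum_le_sum fun p hp => ?_
      simp only [Finset.mem_filter, Finset.mem_Ioc] at hp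
      refine one_div_le_one_div_of_le (by positivity) ?_
      exact_mod_cast hp.1.1.le
    rwa [Finset.sum_const, nsmul_eq_mul] at this
  refine h4.trans ?_
  have hlog4 : Real.log 4 = 2 * Real.log 2 := by
    rw [show (4:ℝ) = 2 ^ 2 by norm_num, Real.log_pow]; norm_num
  rw [hlog4] at h1
  have h5 : ((Finset.Ioc (2 ^ j) (2 ^ (j + 1))).filter Nat.Prime).card * (j:ℝ) ≤
      2 * 2 ^ (j + 1) := by
    have h6 : (((Finset.Ioc (2 ^ j) (2 ^ (j + 1))).filter Nat.Prime).card * (j:ℝ)) * Real.log 2 ≤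
        (2 * 2 ^ (j + 1)) * Real.log 2 := by linarith
    exact le_of_mul_le_mul_right h6 hlog2
  rw [mul_one_div, div_le_div_iff₀ (by positivity) hj']
  have h6 : (2:ℝ) ^ (j + 1) = 2 * 2 ^ j := by rw [pow_succ]; ring
  rw [h6] at h5
  linarith

lemma sum_inv_two_pow (J : ℕ) :
    ∑ p ∈ (Finset.Icc 1 (2 ^ (J + 1))).filter Nat.Prime, 1 / (p:ℝ) ≤ 1 / 2 + 4 * (harmonic J : ℝ) := by
  induction J with
  | zero =>
    have : (Finset.Icc 1 (2 ^ (0 + 1))).filter Nat.Prime = {2} := by decide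
    rw [this]
    simp
  | succ J ih =>
    have h1 : (Finset.Icc 1 (2 ^ (J + 1 + 1))).filter Nat.Prime =
        (Finset.Icc 1 (2 ^ (J + 1))).filter Nat.Prime ∪
        (Finset.Ioc (2 ^ (J + 1)) (2 ^ (J + 1 + 1))).filter Nat.Prime := by
      ext p
      have : 2 ^ (J + 1) ≤ 2 ^ (J + 1 + 1) := Nat.pow_le_pow_right (by norm_num) (by omega)
      have h0 : 1 ≤ 2 ^ (J + 1) := Nat.one_le_two_pow
      simp only [Finset.mem_union, Finset.mem_filter, Finset.mem_Icc, Finset.mem_Ioc]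
      constructor
      · rintro ⟨⟨h2, h3⟩, h4⟩
        by_cases h5 : p ≤ 2 ^ (J + 1)
        · exact Or.inl ⟨⟨h2, h5⟩, h4⟩
        · exact Or.inr ⟨⟨by omega, h3⟩, h4⟩
      · rintro (⟨⟨h2, h3⟩, h4⟩ | ⟨⟨h2, h3⟩, h4⟩)
        · exact ⟨⟨h2, by omega⟩, h4⟩
        · exact ⟨⟨by omega, h3⟩, h4⟩
    rw [h1, Finset.sum_union]
    · have h2 := sum_inv_dyadic (j := J + 1) (by omega)
      rw [harmonic_succ]
      push_cast at h2 ⊢
      have e : 4 * ((harmonic J : ℝ) + ((J:ℝ) + 1)⁻¹) = 4 * (harmonic J : ℝ) + 4 / ((J:ℝ) + 1) := by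
        rw [mul_add, div_eq_mul_inv]
      rw [e]
      linarith
    · rw [Finset.disjoint_left]
      intro p hp hp'
      simp only [Finset.mem_filter, Finset.mem_Icc, Finset.mem_Ioc] at hp hp'
      omega

/-- the size function `e^5 (log_2 R + 1)^4` -/
noncomputable def LL (R : ℕ) : ℝ := Real.exp 5 * ((Nat.log 2 R : ℝ) + 1) ^ 4

lemma LL_ge_one (R : ℕ) : 1 ≤ LL R := by
  unfold LL
  have h1 : (1:ℝ) ≤ Real.exp 5 := Real.one_le_exp (by norm_num)
  have h2 : (1:ℝ) ≤ ((Nat.log 2 R : ℝ) + 1) ^ 4 := by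
    refine one_le_pow₀ ?_
    have : (0:ℝ) ≤ (Nat.log 2 R : ℝ) := Nat.cast_nonneg _
    linarith
  nlinarith

lemma LL_mono {R R' : ℕ} (h : R ≤ R') : LL R ≤ LL R' := by
  unfold LL
  have : (Nat.log 2 R : ℝ) ≤ (Nat.log 2 R' : ℝ) := by exact_mod_cast Nat.log_mono_right h
  gcongr

lemma sum_inv_primes_le {P : Finset ℕ} {R : ℕ} (hP : ∀ p ∈ P, p.Prime) (hR : ∀ p ∈ P, p ≤ R) :
    ∑ p ∈ P, 1 / (p:ℝ) ≤ 5 + 4 * Real.log ((Nat.log 2 R : ℝ) + 1) := by
  set J := Nat.log 2 R with hJ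
  have h1 : P ⊆ (Finset.Icc 1 (2 ^ (J + 1))).filter Nat.Prime := by
    intro p hp
    have h2 := hP p hp
    have h3 := hR p hp
    have h4 : R < 2 ^ (J + 1) := Nat.lt_pow_succ_log_self (by norm_num) R
    simp only [Finset.mem_filter, Finset.mem_Icc]
    exact ⟨⟨h2.one_lt.le, by omega⟩, h2⟩
  refine (Finset.sum_le_sum_of_subset_of_nonneg h1 fun p _ _ => by positivity).trans ?_
  refine (sum_inv_two_pow J).trans ?_
  have h5 : (harmonic J : ℝ) ≤ 1 + Real.log ((J:ℝ) + 1) := by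
    have h6 := harmonic_le_one_add_log J
    rcases Nat.eq_zero_or_pos J with h7 | h7
    · rw [h7]; simp
    · have : Real.log J ≤ Real.log ((J:ℝ) + 1) :=
        Real.log_le_log (by exact_mod_cast h7) (by linarith)
      linarith
  linarith

lemma prod_inv_le {P : Finset ℕ} {R : ℕ} (hP : ∀ p ∈ P, p.Prime) (hR : ∀ p ∈ P, p ≤ R) (c : ℕ) :
    ∏ p ∈ P, (1 + (c:ℝ) / p) ≤ LL R ^ c := by
  refine (prod_one_add_le_exp P (fun p => (c:ℝ) / p) (fun p _ => by positivity)).trans ?_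
  have h1 := sum_inv_primes_le hP hR
  have h2 : ∑ p ∈ P, (c:ℝ) / p = c * ∑ p ∈ P, 1 / (p:ℝ) := by
    rw [Finset.mul_sum]
    exact Finset.sum_congr rfl fun p _ => by ring
  have h3 : ∑ p ∈ P, (c:ℝ) / p ≤ c * (5 + 4 * Real.log ((Nat.log 2 R : ℝ) + 1)) := by
    rw [h2]
    exact mul_le_mul_of_nonneg_left h1 (Nat.cast_nonneg c)
  refine (Real.exp_le_exp.2 h3).trans (le_of_eq ?_)
  rw [Real.exp_nat_mul]
  congr 1
  unfold LL
  rw [Real.exp_add]
  congr 1
  have : (4:ℝ) * Real.log ((Nat.log 2 R : ℝ) + 1) = ((4:ℕ):ℝ) * Real.log ((Nat.log 2 R : ℝ) + 1) := by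
    norm_num
  rw [this, Real.exp_nat_mul, Real.exp_log (by positivity)]

/-! ### The coefficients `λ` -/

variable {P : Finset ℕ} {k W K0 R Z T M : ℕ}

/-- `2^{number of coloured primes}` -/
noncomputable def two (z : Col P k) : ℝ := ∏ p : P, (if z p = none then 1 else 2)

lemma two_nonneg (z : Col P k) : 0 ≤ two z := by
  unfold two
  refine Finset.prod_nonneg fun p _ => ?_
  split_ifs <;> norm_num

/-- the factor `Λ_0` -/
noncomputable def L0 (P : Finset ℕ) (k : ℕ) : ℝ := ∏ p : P, (1 + (k:ℝ) / ((p:ℝ) - 1))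

lemma L0_ge_one (hP : ∀ p ∈ P, 2 ≤ p) : 1 ≤ L0 P k := by
  unfold L0
  have : ∀ p ∈ (Finset.univ : Finset P), (1:ℝ) ≤ 1 + (k:ℝ) / ((p:ℝ) - 1) := fun p _ => by
    have h1 := phi_pos hP p p.2
    have : (0:ℝ) ≤ (k:ℝ) / ((p:ℝ) - 1) := by positivity
    linarith
  calc (1:ℝ) = ∏ p : P, (1:ℝ) := by simp
    _ ≤ _ := Finset.prod_le_prod (fun _ _ => zero_le_one) this

lemma L0_le (hP : ∀ p ∈ P, p.Prime) (hR : ∀ p ∈ P, p ≤ R) : L0 P k ≤ LL R ^ (2 * k) := by
  unfold L0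
  rw [Finset.prod_coe_sort P (fun p => 1 + (k:ℝ) / ((p:ℝ) - 1))]
  refine le_trans ?_ (prod_inv_le hP hR (2 * k))
  refine Finset.prod_le_prod (fun p hp => ?_) fun p hp => ?_
  · have h2 : (2:ℝ) ≤ p := by exact_mod_cast (hP p hp).two_le
    have : (0:ℝ) ≤ (k:ℝ) / ((p:ℝ) - 1) := div_nonneg (Nat.cast_nonneg k) (by linarith)
    linarith
  · have h2 : (2:ℝ) ≤ p := by exact_mod_cast (hP p hp).two_le
    have h3 : (k:ℝ) / ((p:ℝ) - 1) ≤ ((2 * k : ℕ):ℝ) / p := by
      rw [div_le_div_iff₀ (by linarith) (by linarith)]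
      push_cast
      have : (0:ℝ) ≤ k := Nat.cast_nonneg k
      nlinarith
    linarith

lemma lam_support (hP : ∀ p ∈ P, p.Prime) (hZ : 2 ≤ Z) {z : Col P k}
    (h : lam (cc Z T M) z ≠ 0) : tot z ≤ Z ^ M := by
  unfold lam at h
  obtain ⟨χ, _, hχ⟩ := Finset.exists_ne_zero_of_sum_ne_zero h
  have h1 : cc Z T M χ ≠ 0 := left_ne_zero_of_mul hχ
  have h2 : ∏ p : P, lk (p:ℕ) (χ p) (z p) ≠ 0 := right_ne_zero_of_mul hχ
  have h3 : yy Z T M χ ≠ 0 := by
    intro h0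
    apply h1
    unfold cc
    rw [h0, zero_div]
  refine le_trans ?_ (tot_le hZ h3)
  unfold tot
  refine val_le (fun p hp => (hP p hp).pos) fun p hp => ?_
  simp only [ne_eq, decide_eq_true_eq] at hp ⊢
  have h4 : lk (p:ℕ) (χ p) (z p) ≠ 0 := by
    intro h0
    exact h2 (Finset.prod_eq_zero (Finset.mem_univ p) h0)
  unfold lk at h4
  rw [if_neg hp] at h4
  by_cases h5 : z p = χ p
  · rw [← h5]; exact hp
  · rw [if_neg h5] at h4
    exact absurd rfl h4

lemma abs_lam_le (hP : ∀ p ∈ P, 2 ≤ p) (z : Col P k) :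
    |lam (cc Z T M) z| ≤ two z * L0 P k := by
  unfold lam
  have h1 : |∑ χ : Col P k, cc Z T M χ * ∏ p : P, lk (p:ℕ) (χ p) (z p)| ≤
      ∑ χ : Col P k, ∏ p : P, (|lk (p:ℕ) (χ p) (z p)| /
        (if χ p = none then 1 else ((p:ℕ):ℝ) - 1)) := by
    refine (Finset.abs_sum_le_sum_abs _ _).trans (Finset.sum_le_sum fun χ _ => ?_)
    rw [abs_mul, abs_of_nonneg (cc_nonneg hP Z T M χ), Finset.abs_prod,
      cc_mul_prod Z T M χ (fun p x => |lk (p:ℕ) x (z p)|)]
    refine mul_le_of_le_one_left ?_ (yy_le_one Z T M χ)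
    refine Finset.prod_nonneg fun p _ => div_nonneg (abs_nonneg _) ?_
    have := phi_pos hP p p.2
    split_ifs <;> linarith
  refine h1.trans ?_
  have h2 : ∑ χ : Col P k, ∏ p : P, (|lk (p:ℕ) (χ p) (z p)| /
        (if χ p = none then 1 else ((p:ℕ):ℝ) - 1)) =
      ∏ p : P, ∑ x : Option (Fin k), (|lk (p:ℕ) x (z p)| /
        (if x = none then 1 else ((p:ℕ):ℝ) - 1)) := by
    rw [Finset.prod_univ_sum, Fintype.piFinset_univ]
  rw [h2]
  unfold two L0
  rw [← Finset.prod_mul_distrib]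
  refine Finset.prod_le_prod (fun p _ => Finset.sum_nonneg fun x _ => ?_) fun p _ => ?_
  · refine div_nonneg (abs_nonneg _) ?_
    have := phi_pos hP p p.2
    split_ifs <;> linarith
  · have hp1 := phi_pos hP p p.2
    have hp2 : (2:ℝ) ≤ (p:ℕ) := by exact_mod_cast hP p p.2
    rw [Fintype.sum_option]
    cases hz : z p with
    | none =>
      simp only [lk, if_true, abs_one, div_one, reduceCtorEq, if_false, one_mul]
      rw [Finset.sum_const, Finset.card_univ, Fintype.card_fin, nsmul_eq_mul, mul_one_div]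
    | some i =>
      have e1 : ∑ x : Fin k, |lk (p:ℕ) (some x) (some i)| /
          (if (some x : Option (Fin k)) = none then 1 else ((p:ℕ):ℝ) - 1) =
          (p:ℝ) / ((p:ℝ) - 1) := by
        rw [Finset.sum_eq_single i]
        · simp [lk]
        · intro j _ hj
          simp [lk, Ne.symm hj]
        · intro h; exact absurd (Finset.mem_univ _) h
      rw [e1]
      simp only [lk, reduceCtorEq, if_false, if_true, abs_zero, zero_div, zero_add]
      have e2 : (p:ℝ) / ((p:ℝ) - 1) ≤ 2 := by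
        rw [div_le_iff₀ hp1]; linarith
      have e3 : (0:ℝ) ≤ (k:ℝ) / ((p:ℝ) - 1) := by positivity
      linarith

/-- The `ℓ¹` norm of `λ`. -/
lemma sum_abs_lam_le (hP : ∀ p ∈ P, p.Prime) (hR : ∀ p ∈ P, p ≤ R) (hZ : 2 ≤ Z) :
    ∑ z : Col P k, |lam (cc Z T M) z| ≤ (Z:ℝ) ^ M * LL R ^ (4 * k) := by
  have hP2 : ∀ p ∈ P, 2 ≤ p := fun p hp => (hP p hp).two_le
  have h1 : ∀ z : Col P k, |lam (cc Z T M) z| ≤
      (L0 P k * (Z:ℝ) ^ M) * ∏ p : P, (if z p = none then (1:ℝ) else 2 / (p:ℕ)) := by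
    intro z
    by_cases h : lam (cc Z T M) z = 0
    · rw [h, abs_zero]
      have : 0 ≤ ∏ p : P, (if z p = none then (1:ℝ) else 2 / (p:ℕ)) :=
        Finset.prod_nonneg fun p _ => by split_ifs <;> positivity
      have := L0_ge_one (k := k) hP2
      positivity
    · have h2 := abs_lam_le (k := k) (Z := Z) (T := T) (M := M) hP2 z
      have h3 : (tot z : ℝ) ≤ (Z:ℝ) ^ M := by exact_mod_cast lam_support hP hZ h
      have h4 : two z = (tot z : ℝ) * ∏ p : P, (if z p = none then (1:ℝ) else 2 / (p:ℕ)) := by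
        unfold two tot val
        push_cast
        rw [← Finset.prod_mul_distrib]
        refine Finset.prod_congr rfl fun p _ => ?_
        by_cases hz : z p = none
        · simp [hz]
        · have : ((p:ℕ):ℝ) ≠ 0 := by exact_mod_cast (hP p p.2).ne_zero
          simp [hz]
          field_simp
      rw [h4] at h2
      refine h2.trans ?_
      have h5 : 0 ≤ ∏ p : P, (if z p = none then (1:ℝ) else 2 / (p:ℕ)) :=
        Finset.prod_nonneg fun p _ => by split_ifs <;> positivity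
      have h6 := L0_ge_one (k := k) hP2
      calc (tot z : ℝ) * (∏ p : P, (if z p = none then (1:ℝ) else 2 / (p:ℕ))) * L0 P k
          ≤ (Z:ℝ) ^ M * (∏ p : P, (if z p = none then (1:ℝ) else 2 / (p:ℕ))) * L0 P k := by
            gcongr
        _ = _ := by ring
  refine (Finset.sum_le_sum fun z _ => h1 z).trans ?_
  rw [← Finset.mul_sum]
  have h2 : ∑ z : Col P k, ∏ p : P, (if z p = none then (1:ℝ) else 2 / (p:ℕ)) =
      ∏ p : P, ∑ x : Option (Fin k), (if x = none then (1:ℝ) else 2 / (p:ℕ)) := by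
    rw [Finset.prod_univ_sum, Fintype.piFinset_univ]
  rw [h2]
  have h3 : ∏ p : P, ∑ x : Option (Fin k), (if x = none then (1:ℝ) else 2 / (p:ℕ)) ≤
      LL R ^ (2 * k) := by
    refine le_trans (le_of_eq ?_) (prod_inv_le hP hR (2 * k))
    rw [← Finset.prod_coe_sort P (fun p => 1 + ((2 * k : ℕ) : ℝ) / p)]
    refine Finset.prod_congr rfl fun p _ => ?_
    rw [Fintype.sum_option]
    simp only [if_true, reduceCtorEq, if_false]
    rw [Finset.sum_const, Finset.card_univ, Fintype.card_fin, nsmul_eq_mul]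
    push_cast
    ring
  have h4 := L0_le (k := k) hP hR
  have h5 := L0_ge_one (k := k) hP2
  have h6 := LL_ge_one R
  calc (L0 P k * (Z:ℝ) ^ M) * ∏ p : P, ∑ x : Option (Fin k), (if x = none then (1:ℝ) else 2 / (p:ℕ))
      ≤ (LL R ^ (2 * k) * (Z:ℝ) ^ M) * LL R ^ (2 * k) := by
        gcongr
    _ = (Z:ℝ) ^ M * LL R ^ (4 * k) := by
        rw [show 4 * k = 2 * k + 2 * k by ring, pow_add]; ring

/-- pointwise bound for `G` -/
lemma abs_GG_le (hP : ∀ p ∈ P, p.Prime) (hR : ∀ p ∈ P, p ≤ R) (hZ : 2 ≤ Z) (y : Col P k) :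
    |GG (cc Z T M) y| ≤ (Z:ℝ) ^ M * LL R ^ (4 * k) := by
  rw [GG_eq]
  refine (Finset.abs_sum_le_sum_abs _ _).trans (le_trans (Finset.sum_le_sum fun z _ => ?_)
    (sum_abs_lam_le (T := T) hP hR hZ))
  rw [abs_mul]
  refine mul_le_of_le_one_right (abs_nonneg _) ?_
  rw [abs_of_nonneg (Finset.prod_nonneg fun p _ => el_nonneg _ _)]
  exact Finset.prod_le_one (fun p _ => el_nonneg _ _) fun p _ => el_le_one _ _

end Pool.Agent.Maynard
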