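import Pool.Agent.Lib.Maynard.Weights

/-!
# The lower bound in the model with one shift prime
-/

open Finset

namespace Pool.Agent.Maynard

variable {k : ℕ}

/-- local weights when `n + h_m` is prime -/
noncomputable def w2 (m : Fin k) (p : ℕ) (y : Option (Fin k)) : ℝ :=
  if y = some m then 0 else if y = none then 1 - ((k:ℝ) - 1) / ((p:ℝ) - 1) else 1 / ((p:ℝ) - 1)

/-- second basis -/
noncomputable def p2 (m : Fin k) (p : ℕ) (z y : Option (Fin k)) : ℝ :=
  if z = none then 1 else if z = some m then 0 else if z = y then 2 - (p:ℝ) else 1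

/-- change of basis -/
noncomputable def l2 (m : Fin k) (p : ℕ) (x z : Option (Fin k)) : ℝ :=
  if z = none then (if x = none ∨ x = some m then 1 else -(1 / ((p:ℝ) - 1)))
  else if z = some m then 0 else if x = z then (p:ℝ) / ((p:ℝ) - 1) else 0

/-- bound factors -/
noncomputable def k2 (m : Fin k) (p : ℕ) (z : Option (Fin k)) : ℝ :=
  if z = none then 1 else if z = some m then 0 else (p:ℝ) - k

lemma ps_eq2 {p : ℕ} (hp : 2 ≤ p) (m : Fin k) (x y : Option (Fin k)) (hy : y ≠ some m) :
    ps p x y = ∑ z, l2 m p x z * p2 m p z y := by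
  have hp' : (2:ℝ) ≤ p := by exact_mod_cast hp
  have hp1 : (p:ℝ) - 1 ≠ 0 := by linarith
  rw [Fintype.sum_option]
  cases x with
  | none =>
    rw [ps_none, Finset.sum_eq_zero]
    · simp [l2, p2]
    · intro i _
      by_cases hi : some i = some m
      · simp [l2, hi]
      · simp [l2]
  | some j =>
    by_cases hj : j = m
    · subst hj
      rw [ps_some, if_neg (Ne.symm hy), Finset.sum_eq_zero]
      · simp [l2, p2]
      · intro i _
        by_cases hi : i = j
        · simp [l2, hi]
        · simp [l2, Ne.symm hi]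
    · rw [Finset.sum_eq_single j]
      · rw [ps_some]
        by_cases hjy : some j = y
        · subst hjy
          simp [l2, p2, hj]
          field_simp
          ring
        · simp [l2, p2, hj, hjy]
          field_simp
          ring
      · intro i _ hi
        simp [l2, Ne.symm hi]
      · intro h; exact absurd (Finset.mem_univ _) h

lemma w2_nonneg {p : ℕ} (hp : 2 ≤ p) (hk : k ≤ p) (m : Fin k) (y : Option (Fin k)) :
    0 ≤ w2 m p y := by
  have hp' : (2:ℝ) ≤ p := by exact_mod_cast hp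
  have hk' : (k:ℝ) ≤ p := by exact_mod_cast hk
  have hp1 : (0:ℝ) < (p:ℝ) - 1 := by linarith
  unfold w2
  split_ifs
  · exact le_rfl
  · rw [sub_nonneg, div_le_one hp1]
    linarith
  · positivity

lemma local_lower {p : ℕ} (hp : 2 ≤ p) (m : Fin k) (a : Option (Fin k) → ℝ) :
    ∑ z, k2 m p z * a z ^ 2 ≤ ∑ y, w2 m p y * (∑ z, a z * p2 m p z y) ^ 2 := by
  have hp' : (2:ℝ) ≤ p := by exact_mod_cast hp
  have hp1 : (0:ℝ) < (p:ℝ) - 1 := by linarith
  have hp0 : (p:ℝ) - 1 ≠ 0 := hp1.ne'
  set β : Fin k → ℝ := fun i => if i = m then 0 else a (some i) with hβ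
  set S := ∑ i, β i with hS
  set E := a none + S with hE
  have h0 : ∑ z, a z * p2 m p z none = E := by
    rw [Fintype.sum_option]
    simp only [p2, if_true, mul_one, reduceCtorEq, if_false, hE, hS, hβ, Option.some.injEq]
    congr 1
    refine Finset.sum_congr rfl fun i _ => ?_
    split_ifs <;> ring
  have hi : ∀ i : Fin k, i ≠ m → ∑ z, a z * p2 m p z (some i) = E - ((p:ℝ) - 1) * β i := by
    intro i him
    rw [Fintype.sum_option]
    simp only [p2, if_true, mul_one, reduceCtorEq, if_false, Option.some.injEq]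
    have : ∑ x : Fin k, a (some x) * (if x = m then 0 else if x = i then 2 - (p:ℝ) else 1) =
        ∑ x : Fin k, (β x - if x = i then ((p:ℝ) - 1) * β x else 0) := by
      refine Finset.sum_congr rfl fun x _ => ?_
      simp only [hβ]
      by_cases h1 : x = m
      · subst h1
        simp [Ne.symm him]
      · by_cases h2 : x = i
        · simp only [h2, if_true]
          rw [if_neg him, if_neg him]
          ring
        · simp [h1, h2]
    rw [this, Finset.sum_sub_distrib]
    simp only [Finset.sum_ite_eq', Finset.mem_univ, if_true, hE, hS]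
    ring
  have hr := Fintype.sum_option (fun y : Option (Fin k) => w2 m p y * (∑ z, a z * p2 m p z y) ^ 2)
  have hl := Fintype.sum_option (fun z : Option (Fin k) => k2 m p z * a z ^ 2)
  rw [hr, hl, h0]
  have hr2 : ∑ i : Fin k, w2 m p (some i) * (∑ z, a z * p2 m p z (some i)) ^ 2 =
      ∑ i : Fin k, ((1 / ((p:ℝ) - 1)) * (E - ((p:ℝ) - 1) * β i) ^ 2 -
        if i = m then (1 / ((p:ℝ) - 1)) * E ^ 2 else 0) := by
    refine Finset.sum_congr rfl fun i _ => ?_
    by_cases him : i = m
    · subst him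
      simp [w2, hβ]
    · rw [hi i him]
      simp [w2, him]
  have hr3 : ∑ i : Fin k, ((1 / ((p:ℝ) - 1)) * (E - ((p:ℝ) - 1) * β i) ^ 2 -
        if i = m then (1 / ((p:ℝ) - 1)) * E ^ 2 else 0) =
      (((k:ℝ) - 1) / ((p:ℝ) - 1)) * E ^ 2 - 2 * E * S + ((p:ℝ) - 1) * ∑ i, β i ^ 2 := by
    rw [Finset.sum_sub_distrib]
    have e1 : ∀ i : Fin k, (1 / ((p:ℝ) - 1)) * (E - ((p:ℝ) - 1) * β i) ^ 2 =
        (1 / ((p:ℝ) - 1)) * E ^ 2 - (2 * E) * β i + ((p:ℝ) - 1) * β i ^ 2 := by
      intro i
      field_simp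
      ring
    simp_rw [e1]
    rw [Finset.sum_add_distrib, Finset.sum_sub_distrib, Finset.sum_const, Finset.card_univ,
      Fintype.card_fin, nsmul_eq_mul, ← Finset.mul_sum, ← Finset.mul_sum, ← hS]
    simp only [Finset.sum_ite_eq', Finset.mem_univ, if_true]
    field_simp
    ring
  have hl2 : ∑ i : Fin k, k2 m p (some i) * a (some i) ^ 2 = ((p:ℝ) - k) * ∑ i, β i ^ 2 := by
    rw [Finset.mul_sum]
    refine Finset.sum_congr rfl fun i _ => ?_
    by_cases him : i = m
    · subst him
      simp [k2, hβ]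
    · simp [k2, hβ, him]
  have hcs : S ^ 2 ≤ ((k:ℝ) - 1) * ∑ i, β i ^ 2 := by
    have e1 : S = ∑ i ∈ Finset.univ.erase m, β i := by
      rw [hS, ← Finset.add_sum_erase _ _ (Finset.mem_univ m)]
      simp [hβ]
    have e2 : ∑ i, β i ^ 2 = ∑ i ∈ Finset.univ.erase m, β i ^ 2 := by
      rw [← Finset.add_sum_erase _ _ (Finset.mem_univ m)]
      simp [hβ]
    rw [e1, e2]
    refine (sq_sum_le_card_mul_sum_sq).trans (le_of_eq ?_)
    congr 1
    rw [Finset.card_erase_of_mem (Finset.mem_univ m), Finset.card_univ, Fintype.card_fin]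
    have : 1 ≤ k := by have := m.pos; omega
    push_cast [this]
    ring
  rw [hr2, hr3, hl2]
  simp only [k2, w2, if_true, reduceCtorEq, if_false, one_mul]
  have e3 : (1 - ((k:ℝ) - 1) / ((p:ℝ) - 1)) * E ^ 2 + ((((k:ℝ) - 1) / ((p:ℝ) - 1)) * E ^ 2 -
      2 * E * S + ((p:ℝ) - 1) * ∑ i, β i ^ 2) = a none ^ 2 - S ^ 2 + ((p:ℝ) - 1) * ∑ i, β i ^ 2 := by
    rw [hE]; ring
  rw [e3]
  nlinarith

variable {P : Finset ℕ}

/-- the coefficients in the second basis -/
noncomputable def bb (m : Fin k) (c : Col P k → ℝ) (z : Col P k) : ℝ :=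
  ∑ χ : Col P k, c χ * ∏ p : P, l2 m (p:ℕ) (χ p) (z p)

theorem EG_lower (hP : ∀ p ∈ P, 2 ≤ p) (hk : ∀ p ∈ P, k ≤ p) (m : Fin k) (c : Col P k → ℝ) :
    ∑ z : Col P k, (∏ p : P, k2 m (p:ℕ) (z p)) * bb m c z ^ 2 ≤
      EG (fun p : P => w2 m (p:ℕ)) c := by
  have h1 : EG (fun p : P => w2 m (p:ℕ)) c = ∑ y : Col P k, (∏ p : P, w2 m (p:ℕ) (y p)) *
      (∑ z : Col P k, bb m c z * ∏ p : P, p2 m (p:ℕ) (z p) (y p)) ^ 2 := by
    unfold EG
    refine Finset.sum_congr rfl fun y _ => ?_
    by_cases h : ∃ p : P, y p = some m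
    · obtain ⟨p, hp⟩ := h
      have : ∏ p : P, w2 m (p:ℕ) (y p) = 0 :=
        Finset.prod_eq_zero (Finset.mem_univ p) (by simp [w2, hp])
      rw [this, zero_mul, zero_mul]
    · push Not at h
      congr 2
      unfold GG bb
      rw [← basis_change c (fun p => l2 m (p:ℕ)) (fun p z => p2 m (p:ℕ) z (y p))]
      refine Finset.sum_congr rfl fun χ _ => ?_
      congr 1
      exact Finset.prod_congr rfl fun p _ => ps_eq2 (hP p p.2) m _ _ (h p)
  rw [h1]
  refine le_tensor (fun p : P => w2 m (p:ℕ)) (fun p y => w2_nonneg (hP p p.2) (hk p p.2) m y)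
    (fun p : P => k2 m (p:ℕ)) (fun p z => ?_) (fun p : P => p2 m (p:ℕ)) (fun p a => ?_) _
  · unfold k2
    have : (k:ℝ) ≤ (p:ℕ) := by exact_mod_cast hk p p.2
    split_ifs <;> linarith
  · exact local_lower (hP p p.2) m a

/-! ### Lower bound for the coefficients -/

/-- positive part of `l2` -/
noncomputable def lp (m : Fin k) (p : ℕ) (x z : Option (Fin k)) : ℝ :=
  if z = none then (if x = none ∨ x = some m then 1 else 0)
  else if z = some m then 0 else if x = z then (p:ℝ) / ((p:ℝ) - 1) else 0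

lemma lp_cases {p : ℕ} (hp : 2 ≤ p) (m : Fin k) (x z : Option (Fin k)) :
    (lp m p x z = l2 m p x z ∧ 0 ≤ l2 m p x z) ∨ (lp m p x z = 0) := by
  have hp' : (2:ℝ) ≤ p := by exact_mod_cast hp
  have hp1 : (0:ℝ) < (p:ℝ) - 1 := by linarith
  have h3 : (0:ℝ) ≤ (p:ℝ) / ((p:ℝ) - 1) := div_nonneg (by linarith) hp1.le
  unfold lp l2
  split_ifs
  · left; exact ⟨rfl, zero_le_one⟩
  · right; rfl
  · right; rfl
  · left; exact ⟨rfl, h3⟩
  · right; rfl

lemma lp_nonneg {p : ℕ} (hp : 2 ≤ p) (m : Fin k) (x z : Option (Fin k)) : 0 ≤ lp m p x z := by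
  rcases lp_cases hp m x z with h | h
  · rw [h.1]; exact h.2
  · rw [h]

lemma bb_ge (hP : ∀ p ∈ P, 2 ≤ p) (m : Fin k) (c : Col P k → ℝ) (hc : ∀ χ, 0 ≤ c χ)
    (z : Col P k) :
    2 * (∑ χ : Col P k, c χ * ∏ p : P, lp m (p:ℕ) (χ p) (z p)) -
      (∑ χ : Col P k, c χ * ∏ p : P, |l2 m (p:ℕ) (χ p) (z p)|) ≤ bb m c z := by
  unfold bb
  rw [Finset.mul_sum, ← Finset.sum_sub_distrib]
  refine Finset.sum_le_sum fun χ _ => ?_
  have h1 : 2 * ∏ p : P, lp m (p:ℕ) (χ p) (z p) - ∏ p : P, |l2 m (p:ℕ) (χ p) (z p)| ≤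
      ∏ p : P, l2 m (p:ℕ) (χ p) (z p) := by
    by_cases h : ∃ p : P, lp m (p:ℕ) (χ p) (z p) = 0
    · obtain ⟨p, hp⟩ := h
      rw [Finset.prod_eq_zero (Finset.mem_univ p) hp, ← Finset.abs_prod]
      have := neg_abs_le (∏ p : P, l2 m (p:ℕ) (χ p) (z p))
      linarith
    · push Not at h
      have h2 : ∀ p : P, lp m (p:ℕ) (χ p) (z p) = l2 m (p:ℕ) (χ p) (z p) ∧
          0 ≤ l2 m (p:ℕ) (χ p) (z p) := fun p =>
        (lp_cases (hP p p.2) m (χ p) (z p)).resolve_right (h p)
      rw [Finset.prod_congr rfl fun p _ => (h2 p).1,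
        Finset.prod_congr rfl fun p _ => abs_of_nonneg (h2 p).2]
      linarith
  nlinarith [mul_le_mul_of_nonneg_left h1 (hc χ)]

/-- the error factor -/
noncomputable def e1 (P : Finset ℕ) (k : ℕ) : ℝ := ∏ p : P, (1 + (k:ℝ) / ((p:ℝ) - 1) ^ 2)

lemma cc_mul_prod (Z T M : ℕ) (χ : Col P k) (t : P → Option (Fin k) → ℝ) :
    cc Z T M χ * ∏ p : P, t p (χ p) =
      yy Z T M χ * ∏ p : P, (t p (χ p) / (if χ p = none then 1 else ((p:ℕ):ℝ) - 1)) := by
  unfold cc pc
  rw [Finset.prod_div_distrib]
  ring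

lemma abs_sum_le (hP : ∀ p ∈ P, 2 ≤ p) (Z T M : ℕ) (m : Fin k) (z : Col P k)
    (hz : ∀ p, z p ≠ some m) :
    ∑ χ : Col P k, cc Z T M χ * ∏ p : P, |l2 m (p:ℕ) (χ p) (z p)| ≤
      e1 P k * ∑ χ : Col P k, cc Z T M χ * ∏ p : P, lp m (p:ℕ) (χ p) (z p) := by
  classical
  have hP0 : ∀ p ∈ P, 0 < p := fun p hp => by have := hP p hp; omega
  have e2 : ∀ χ : Col P k, cc Z T M χ * ∏ p : P, |l2 m (p:ℕ) (χ p) (z p)| =
      yy Z T M χ * ∏ p : P, (|l2 m (p:ℕ) (χ p) (z p)| /
        (if χ p = none then 1 else ((p:ℕ):ℝ) - 1)) := fun χ =>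
    cc_mul_prod Z T M χ (fun p x => |l2 m (p:ℕ) x (z p)|)
  have e3 : ∀ χ : Col P k, cc Z T M χ * ∏ p : P, lp m (p:ℕ) (χ p) (z p) =
      yy Z T M χ * ∏ p : P, (lp m (p:ℕ) (χ p) (z p) /
        (if χ p = none then 1 else ((p:ℕ):ℝ) - 1)) := fun χ =>
    cc_mul_prod Z T M χ (fun p x => lp m (p:ℕ) x (z p))
  simp_rw [e2, e3]
  have key := push' (ι := P) (X := Option (Fin k)) (Z := Option (Fin k))
    (fun p x => if z p = none then (if x = none ∨ x = some m then x else none) else x)
    (fun p x => |l2 m (p:ℕ) x (z p)| / (if x = none then 1 else ((p:ℕ):ℝ) - 1))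
    (fun p x => ?_) (fun χ => yy Z T M χ) (fun χ => yy Z T M χ) (fun χ => ?_)
    (fun χ => yy_nonneg _ _ _ _)
    (fun p x => (1 + (k:ℝ) / ((p:ℝ) - 1) ^ 2) *
      (lp m (p:ℕ) x (z p) / (if x = none then 1 else ((p:ℕ):ℝ) - 1))) (fun p x => ?_)
  · refine key.trans (le_of_eq ?_)
    rw [Finset.mul_sum]
    refine Finset.sum_congr rfl fun χ _ => ?_
    rw [Finset.prod_mul_distrib]
    unfold e1
    ring
  · have := phi_pos hP p p.2
    refine div_nonneg (abs_nonneg _) ?_
    split_ifs <;> linarith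
  · refine yy_anti hP0 Z T M fun p => ?_
    split_ifs with h1 h2
    · exact Or.inr rfl
    · exact Or.inl rfl
    · exact Or.inr rfl
  · have hp1 := phi_pos hP p p.2
    have hE : (1:ℝ) ≤ 1 + (k:ℝ) / ((p:ℝ) - 1) ^ 2 := by
      have : (0:ℝ) ≤ (k:ℝ) / ((p:ℝ) - 1) ^ 2 := by positivity
      linarith
    cases hzp : z p with
    | some i =>
      have him : i ≠ m := fun h => hz p (by rw [hzp, h])
      simp only [reduceCtorEq, if_false]
      rw [Finset.sum_ite_eq' Finset.univ x, if_pos (Finset.mem_univ _)]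
      have : |l2 m (p:ℕ) x (some i)| = lp m (p:ℕ) x (some i) := by
        unfold l2 lp
        simp only [reduceCtorEq, if_false, Option.some.injEq, him]
        split_ifs
        · rw [abs_of_nonneg]; positivity
        · simp
      rw [this]
      refine le_mul_of_one_le_left (div_nonneg (lp_nonneg (hP p p.2) _ _ _) ?_) hE
      split_ifs <;> linarith
    | none =>
      simp only [if_true]
      cases x with
      | some i =>
        by_cases him : i = m
        · subst him
          rw [Finset.sum_eq_single (some i)]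
          · simp only [l2, lp, if_true, reduceCtorEq, if_false, or_true, abs_one]
            refine le_mul_of_one_le_left (by positivity) hE
          · intro y _ hy
            by_cases h1 : y = none ∨ y = some i
            · rw [if_pos h1, if_neg hy]
            · rw [if_neg h1, if_neg (by simp)]
          · intro h; exact absurd (Finset.mem_univ _) h
        · rw [Finset.sum_eq_zero]
          · simp [lp, him]
          · intro y _
            by_cases h1 : y = none ∨ y = some m
            · rw [if_pos h1, if_neg]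
              rintro rfl
              rcases h1 with h1 | h1
              · exact absurd h1 (by simp)
              · exact him (by simpa using h1)
            · rw [if_neg h1, if_neg (by simp)]
      | none =>
        rw [Fintype.sum_option]
        simp only [true_or, if_true, l2, lp, abs_one, div_one, mul_one, reduceCtorEq, false_or,
          Option.some.injEq, if_false]
        have : ∑ x : Fin k, (if (if x = m then some x else none) = none then
            |if x = m then (1:ℝ) else -(1 / ((p:ℝ) - 1))| / ((p:ℝ) - 1) else 0) ≤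
            ∑ x : Fin k, 1 / ((p:ℝ) - 1) ^ 2 := by
          refine Finset.sum_le_sum fun x _ => ?_
          by_cases hx : x = m
          · simp only [hx, if_true, reduceCtorEq, if_false]
            positivity
          · simp only [hx, if_false, if_true, abs_neg]
            rw [abs_of_nonneg (by positivity)]
            apply le_of_eq
            field_simp
        have h2 : ∑ x : Fin k, 1 / ((p:ℝ) - 1) ^ 2 = (k:ℝ) / ((p:ℝ) - 1) ^ 2 := by
          rw [Finset.sum_const, Finset.card_univ, Fintype.card_fin, nsmul_eq_mul]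
          ring
        rw [h2] at this
        linarith

/-- `A_1` -/
noncomputable def A1 (P : Finset ℕ) (Z T : ℕ) : ℝ :=
  ∑ B : P → Bool, gz Z T (val B) * pm (fun p => 1 / ((p:ℝ) - 1)) B

lemma A1_nonneg (hP : ∀ p ∈ P, 2 ≤ p) (Z T : ℕ) : 0 ≤ A1 P Z T := by
  refine Finset.sum_nonneg fun B _ => mul_nonneg (gz_nonneg _ _ _) (pm_nonneg (fun p hp => ?_) B)
  have := phi_pos hP p hp
  positivity

lemma main_ge (hP : ∀ p ∈ P, 2 ≤ p) (Z T M : ℕ) (m : Fin k) (z : Col P k)
    (hz : ∀ p, z p ≠ some m) (hlev : lev Z z + T ≤ M) :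
    (∏ i, gz Z T (cp z i)) * A1 P Z T / pc (fun p => (p:ℝ) - 1) z ≤
      ∑ χ : Col P k, cc Z T M χ * ∏ p : P, lp m (p:ℕ) (χ p) (z p) := by
  classical
  have hP0 : ∀ p ∈ P, 0 < p := fun p hp => by have := hP p hp; omega
  have hpc := pc_pos (phi_pos hP) z
  have e3 : ∀ χ : Col P k, cc Z T M χ * ∏ p : P, lp m (p:ℕ) (χ p) (z p) =
      yy Z T M χ * ∏ p : P, (lp m (p:ℕ) (χ p) (z p) /
        (if χ p = none then 1 else ((p:ℕ):ℝ) - 1)) := fun χ =>
    cc_mul_prod Z T M χ (fun p x => lp m (p:ℕ) x (z p))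
  simp_rw [e3]
  rw [div_le_iff₀ hpc]
  have key := push' (ι := P) (X := Bool) (Z := Option (Fin k))
    (fun p b => if z p = none then (if b then some m else none) else z p)
    (fun p b => if b then 1 / (((p:ℕ):ℝ) - 1) else 1)
    (fun p x => ?_) (fun B => (∏ i, gz Z T (cp z i)) * gz Z T (val B)) (fun χ => yy Z T M χ)
    (fun B => ?_)
    (fun χ => yy_nonneg _ _ _ _)
    (fun p x => (lp m (p:ℕ) x (z p) / (if x = none then 1 else ((p:ℕ):ℝ) - 1)) *
      (if z p = none then 1 else ((p:ℕ):ℝ) - 1)) (fun p x => ?_)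
  · refine le_trans (le_of_eq ?_) (key.trans (le_of_eq ?_))
    · unfold A1 pm
      rw [Finset.mul_sum]
      refine Finset.sum_congr rfl fun B _ => ?_
      ring
    · rw [Finset.sum_mul]
      refine Finset.sum_congr rfl fun χ _ => ?_
      rw [Finset.prod_mul_distrib]
      unfold pc
      ring
  · have := phi_pos hP p p.2
    split_ifs
    · positivity
    · exact zero_le_one
  · set χ : Col P k := fun p => if z p = none then (if B p then some m else none) else z p with hχ
    change (∏ i, gz Z T (cp z i)) * gz Z T (val B) ≤ yy Z T M χ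
    by_cases hg : Nat.log Z (val B) < T
    · have h1 : cp χ m ≤ val B := by
        unfold cp
        refine val_le hP0 fun p hp => ?_
        simp only [cl, hχ, decide_eq_true_eq] at hp
        split_ifs at hp with h2 h3
        · exact h3
        · exact absurd hp (hz p)
      have h2 : ∀ i, i ≠ m → cp χ i = cp z i := by
        intro i him
        unfold cp
        congr 1
        funext p
        simp only [cl, hχ]
        by_cases h3 : z p = none
        · simp only [h3, if_true]
          split_ifs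
          · simp [Ne.symm him]
          · simp
        · simp only [h3, if_false]
      have h3 : lev Z χ ≤ M := by
        have e1 : lev Z χ = (Nat.log Z (cp χ m) + 1) +
            ∑ i ∈ Finset.univ.erase m, (Nat.log Z (cp χ i) + 1) := by
          unfold lev
          rw [← Finset.add_sum_erase _ _ (Finset.mem_univ m)]
        have e2 : lev Z z = (Nat.log Z (cp z m) + 1) +
            ∑ i ∈ Finset.univ.erase m, (Nat.log Z (cp z i) + 1) := by
          unfold lev
          rw [← Finset.add_sum_erase _ _ (Finset.mem_univ m)]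
        have e3 : ∑ i ∈ Finset.univ.erase m, (Nat.log Z (cp χ i) + 1) =
            ∑ i ∈ Finset.univ.erase m, (Nat.log Z (cp z i) + 1) :=
          Finset.sum_congr rfl fun i hi => by rw [h2 i (Finset.ne_of_mem_erase hi)]
        have e4 := Nat.log_mono_right (b := Z) h1
        omega
      unfold yy
      rw [if_pos h3, mul_one, ← Finset.mul_prod_erase _ _ (Finset.mem_univ m),
        ← Finset.mul_prod_erase _ (fun i => gz Z T (cp χ i)) (Finset.mem_univ m)]
      have e5 : ∏ i ∈ Finset.univ.erase m, gz Z T (cp χ i) =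
          ∏ i ∈ Finset.univ.erase m, gz Z T (cp z i) :=
        Finset.prod_congr rfl fun i hi => by rw [h2 i (Finset.ne_of_mem_erase hi)]
      rw [e5]
      have e6 : 0 ≤ ∏ i ∈ Finset.univ.erase m, gz Z T (cp z i) :=
        Finset.prod_nonneg fun i _ => gz_nonneg _ _ _
      have e7 : gz Z T (val B) ≤ gz Z T (cp χ m) := gz_anti Z T h1
      have e8 : gz Z T (cp z m) ≤ 1 := gz_le_one _ _ _
      have e9 : 0 ≤ gz Z T (cp z m) := gz_nonneg _ _ _
      have e10 : 0 ≤ gz Z T (val B) := gz_nonneg _ _ _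
      calc gz Z T (cp z m) * (∏ i ∈ Finset.univ.erase m, gz Z T (cp z i)) * gz Z T (val B)
          = (gz Z T (cp z m) * gz Z T (val B)) *
            ∏ i ∈ Finset.univ.erase m, gz Z T (cp z i) := by ring
        _ ≤ (1 * gz Z T (cp χ m)) * ∏ i ∈ Finset.univ.erase m, gz Z T (cp z i) := by
            refine mul_le_mul_of_nonneg_right ?_ e6
            exact mul_le_mul e8 e7 e10 zero_le_one
        _ = _ := by ring
    · have : gz Z T (val B) = 0 := by unfold gz gT; rw [if_neg hg]
      rw [this, mul_zero]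
      exact yy_nonneg _ _ _ _
  · have hp1 := phi_pos hP p p.2
    rw [Fintype.sum_bool]
    cases hzp : z p with
    | some i =>
      have him : i ≠ m := fun h => hz p (by rw [hzp, h])
      simp only [reduceCtorEq, if_false, if_true, Bool.false_eq_true]
      by_cases hx : some i = x
      · subst hx
        simp only [if_true, lp, reduceCtorEq, if_false, Option.some.injEq, him]
        apply le_of_eq
        field_simp
        ring
      · rw [if_neg hx, if_neg hx, add_zero]
        refine mul_nonneg (div_nonneg (lp_nonneg (hP p p.2) _ _ _) ?_) hp1.le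
        split_ifs <;> linarith
    | none =>
      simp only [if_true, Bool.false_eq_true, if_false, mul_one]
      cases x with
      | none => simp [lp]
      | some i =>
        by_cases him : i = m
        · subst him
          simp [lp]
        · simp [lp, him, Ne.symm him]

theorem bb_lower (hP : ∀ p ∈ P, 2 ≤ p) (Z T M : ℕ) (m : Fin k) (z : Col P k)
    (hz : ∀ p, z p ≠ some m) (hlev : lev Z z + T ≤ M) (he : e1 P k ≤ 2) :
    (2 - e1 P k) * ((∏ i, gz Z T (cp z i)) * A1 P Z T / pc (fun p => (p:ℝ) - 1) z) ≤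
      bb m (cc Z T M) z := by
  have h1 := bb_ge hP m (cc Z T M) (fun χ => cc_nonneg hP Z T M χ) z
  have h2 := abs_sum_le hP Z T M m z hz
  have h3 := main_ge hP Z T M m z hz hlev
  have h4 := mul_le_mul_of_nonneg_left h3 (sub_nonneg.2 he)
  linarith

end Pool.Agent.Maynard
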