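import Pool.Agent.Lib.Maynard.Lower

/-!
# The lower bound in the model, final form
-/

open Finset

namespace Pool.Agent.Maynard

variable {k : ℕ} {P : Finset ℕ}

/-- lower density -/
noncomputable def alo (k p : ℕ) : ℝ := ((p:ℝ) - k) / ((p:ℝ) - 1) ^ 2

lemma alo_nonneg {p : ℕ} (hk : k ≤ p) : 0 ≤ alo k p := by
  unfold alo
  have : (k:ℝ) ≤ p := by exact_mod_cast hk
  have : 0 ≤ (p:ℝ) - k := by linarith
  positivity

lemma alo_le_aup (k p : ℕ) : alo k p ≤ aup p := by
  unfold alo aup
  have : (0:ℝ) ≤ k := Nat.cast_nonneg _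
  gcongr
  linarith

/-- the model lower bound restricted to good colourings -/
theorem EG_cc_lower1 (hP : ∀ p ∈ P, 2 ≤ p) (hk : ∀ p ∈ P, k ≤ p) (Z T M : ℕ) (m : Fin k)
    (he : e1 P k ≤ 2) :
    (2 - e1 P k) ^ 2 * A1 P Z T ^ 2 *
      (∑ z : Col P k, if (∀ p, z p ≠ some m) ∧ lev Z z + T ≤ M then
        (∏ i, gz Z T (cp z i) ^ 2) * pc (alo k) z else 0) ≤
      EG (fun p : P => w2 m (p:ℕ)) (cc Z T M) := by
  refine le_trans ?_ (EG_lower hP hk m _)
  rw [Finset.mul_sum]
  refine Finset.sum_le_sum fun z _ => ?_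
  have hk2 : 0 ≤ ∏ p : P, k2 m (p:ℕ) (z p) := by
    refine Finset.prod_nonneg fun p _ => ?_
    unfold k2
    have : (k:ℝ) ≤ (p:ℕ) := by exact_mod_cast hk p p.2
    split_ifs <;> linarith
  split_ifs with h
  · have h1 := bb_lower hP Z T M m z h.1 h.2 he
    have hpc := pc_pos (phi_pos hP) z
    have h0 : 0 ≤ (2 - e1 P k) *
        ((∏ i, gz Z T (cp z i)) * A1 P Z T / pc (fun p => (p:ℝ) - 1) z) := by
      refine mul_nonneg (sub_nonneg.2 he) (div_nonneg (mul_nonneg ?_ (A1_nonneg hP Z T)) hpc.le)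
      exact Finset.prod_nonneg fun i _ => gz_nonneg _ _ _
    have h2 := pow_le_pow_left₀ h0 h1 2
    refine le_trans (le_of_eq ?_) (mul_le_mul_of_nonneg_left h2 hk2)
    have h3 : pc (alo k) z = (∏ p : P, k2 m (p:ℕ) (z p)) / pc (fun p => (p:ℝ) - 1) z ^ 2 := by
      unfold pc
      rw [← Finset.prod_pow, ← Finset.prod_div_distrib]
      refine Finset.prod_congr rfl fun p _ => ?_
      have := h.1 p
      by_cases hzp : z p = none
      · simp [hzp, k2]
      · simp [hzp, k2, this, alo]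
    rw [h3, Finset.prod_pow]
    field_simp
  · rw [mul_zero]
    exact mul_nonneg hk2 (sq_nonneg _)

/-- the tuple functions -/
noncomputable def fm (Z T : ℕ) (m i : Fin k) (B : P → Bool) : ℝ :=
  if i = m then (if ∀ p, B p = false then 1 else 0) else gz Z T (val B) ^ 2

lemma fm_nonneg (Z T : ℕ) (m i : Fin k) (B : P → Bool) : 0 ≤ fm Z T m i B := by
  unfold fm
  split_ifs
  · exact zero_le_one
  · exact le_rfl
  · exact sq_nonneg _

lemma fm_anti (hP : ∀ p ∈ P, 0 < p) (Z T : ℕ) (m i : Fin k) (B B' : P → Bool)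
    (h : ∀ p, B p = true → B' p = true) : fm Z T m i B' ≤ fm Z T m i B := by
  unfold fm
  by_cases him : i = m
  · rw [if_pos him, if_pos him]
    by_cases h1 : ∀ p, B' p = false
    · have h2 : ∀ p, B p = false := by
        intro p
        by_contra hcon
        have := h p (by simpa using hcon)
        rw [h1 p] at this
        exact absurd this (by simp)
      rw [if_pos h1, if_pos h2]
    · rw [if_neg h1]
      split_ifs
      · exact zero_le_one
      · exact le_rfl
  · rw [if_neg him, if_neg him]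
    exact pow_le_pow_left₀ (gz_nonneg _ _ _) (gz_anti Z T (val_le hP h)) 2

lemma gz_one (Z : ℕ) {T : ℕ} (hT : 1 ≤ T) : gz Z T 1 = 1 := by
  unfold gz gT
  rw [Nat.log_one_right, if_pos (by omega)]
  simp

lemma prod_fm {Z T : ℕ} (hT : 1 ≤ T) (m : Fin k) (z : Col P k) :
    ∏ i, fm Z T m i (fun p => cl i (z p)) =
      if ∀ p, z p ≠ some m then ∏ i, gz Z T (cp z i) ^ 2 else 0 := by
  by_cases h : ∀ p, z p ≠ some m
  · rw [if_pos h]
    refine Finset.prod_congr rfl fun i _ => ?_
    unfold fm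
    by_cases him : i = m
    · subst him
      have h1 : ∀ p, cl i (z p) = false := fun p => by simp [cl, h p]
      rw [if_pos rfl, if_pos h1]
      have : cp z i = 1 := by
        unfold cp val
        refine Finset.prod_eq_one fun p _ => ?_
        simp [h1 p]
      rw [this, gz_one Z hT, one_pow]
    · rw [if_neg him]
      rfl
  · rw [if_neg h]
    push Not at h
    obtain ⟨p, hp⟩ := h
    refine Finset.prod_eq_zero (Finset.mem_univ m) ?_
    unfold fm
    rw [if_pos rfl, if_neg]
    push Not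
    exact ⟨p, by simp [cl, hp]⟩

/-- `A_2^-` -/
noncomputable def A2lo (P : Finset ℕ) (k Z T : ℕ) : ℝ :=
  ∑ B : P → Bool, gz Z T (val B) ^ 2 * pm (alo k) B

/-- `A_2` with the level as an extra weight -/
noncomputable def A2h (P : Finset ℕ) (Z T : ℕ) : ℝ :=
  ∑ B : P → Bool, gz Z T (val B) ^ 2 * ((Nat.log Z (val B) : ℝ) + 1) * pm aup B

lemma A2_le_A2h (P : Finset ℕ) (Z T : ℕ) : A2 P Z T ≤ A2h P Z T := by
  refine Finset.sum_le_sum fun B _ => ?_
  have h1 : 0 ≤ gz Z T (val B) ^ 2 := sq_nonneg _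
  have h2 : 0 ≤ pm aup B := pm_nonneg (fun p _ => aup_nonneg p) B
  have h3 : (0:ℝ) ≤ (Nat.log Z (val B) : ℝ) := Nat.cast_nonneg _
  refine mul_le_mul_of_nonneg_right ?_ h2
  exact le_mul_of_one_le_right h1 (by linarith)

/-- error factor -/
noncomputable def e2 (P : Finset ℕ) (k : ℕ) : ℝ := ∏ p : P, (1 + 2 ^ k * (alo k (p:ℕ)) ^ 2)

lemma sum_fm_m (a : ℕ → ℝ) (Z T : ℕ) (m : Fin k) :
    ∑ B : P → Bool, fm Z T m m B * pm a B = 1 := by
  rw [Finset.sum_eq_single (fun _ => false)]
  · simp [fm, pm]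
  · intro B _ hB
    have h0 : ¬ ∀ p, B p = false := fun h => hB (funext h)
    have h1 : fm Z T m m B = 0 := by
      unfold fm
      rw [if_pos rfl, if_neg h0]
    rw [h1, zero_mul]
  · intro h; exact absurd (Finset.mem_univ _) h

lemma prod_sum_fm (a : ℕ → ℝ) (Z T : ℕ) (m : Fin k) :
    ∏ i, ∑ B : P → Bool, fm Z T m i B * pm a B =
      (∑ B : P → Bool, gz Z T (val B) ^ 2 * pm a B) ^ (k - 1) := by
  rw [← Finset.mul_prod_erase _ _ (Finset.mem_univ m), sum_fm_m, one_mul]
  have : ∀ i ∈ Finset.univ.erase m, ∑ B : P → Bool, fm Z T m i B * pm a B =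
      ∑ B : P → Bool, gz Z T (val B) ^ 2 * pm a B := by
    intro i hi
    have him := Finset.ne_of_mem_erase hi
    refine Finset.sum_congr rfl fun B _ => ?_
    unfold fm
    rw [if_neg him]
  rw [Finset.prod_congr rfl this, Finset.prod_const, Finset.card_erase_of_mem (Finset.mem_univ m),
    Finset.card_univ, Fintype.card_fin]

lemma sum_lev_le (hP : ∀ p ∈ P, 2 ≤ p) (hk2 : 2 ≤ k) (Z T : ℕ) (m : Fin k) :
    ∑ z : Col P k, (∏ i, fm Z T m i (fun p => cl i (z p))) * (lev Z z : ℝ) * pc aup z ≤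
      (k:ℝ) * (A2 P Z T ^ (k - 2) * A2h P Z T) := by
  have hA2 := A2_nonneg P Z T
  have hA2h : 0 ≤ A2h P Z T := hA2.trans (A2_le_A2h P Z T)
  have h1 : ∑ z : Col P k, (∏ i, fm Z T m i (fun p => cl i (z p))) * (lev Z z : ℝ) * pc aup z =
      ∑ i0 : Fin k, ∑ z : Col P k, (∏ i, (fm Z T m i (fun p => cl i (z p)) *
        (if i = i0 then ((Nat.log Z (val (fun p => cl i (z p))) : ℝ) + 1) else 1))) * pc aup z := by
    rw [Finset.sum_comm]
    refine Finset.sum_congr rfl fun z _ => ?_
    unfold lev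
    push_cast
    rw [Finset.mul_sum, Finset.sum_mul]
    refine Finset.sum_congr rfl fun i0 _ => ?_
    rw [Finset.prod_mul_distrib, Finset.prod_ite_eq' Finset.univ i0]
    simp [cp]
  rw [h1]
  have h2 : ∀ i0 : Fin k, ∑ z : Col P k, (∏ i, (fm Z T m i (fun p => cl i (z p)) *
        (if i = i0 then ((Nat.log Z (val (fun p => cl i (z p))) : ℝ) + 1) else 1))) * pc aup z ≤
      A2 P Z T ^ (k - 2) * A2h P Z T := by
    intro i0
    refine (col_le_tuple (fun i B => fm Z T m i B *
      (if i = i0 then ((Nat.log Z (val B) : ℝ) + 1) else 1)) (fun i B => ?_) aup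
      (fun p _ => aup_nonneg p)).trans ?_
    · refine mul_nonneg (fm_nonneg _ _ _ _ _) ?_
      split_ifs
      · positivity
      · exact zero_le_one
    have hk1 : k - 1 = (k - 2) + 1 := by omega
    by_cases him : i0 = m
    · subst him
      have e1 : ∀ i ∈ (Finset.univ : Finset (Fin k)),
          ∑ B : P → Bool, fm Z T i0 i B *
            (if i = i0 then ((Nat.log Z (val B) : ℝ) + 1) else 1) * pm aup B =
          ∑ B : P → Bool, fm Z T i0 i B * pm aup B := by
        intro i _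
        refine Finset.sum_congr rfl fun B _ => ?_
        by_cases hi : i = i0
        · subst hi
          by_cases hB : ∀ p, B p = false
          · have : val B = 1 := by
              unfold val
              exact Finset.prod_eq_one fun p _ => by simp [hB p]
            simp [this]
          · have : fm Z T i i B = 0 := by
              unfold fm
              rw [if_pos rfl, if_neg hB]
            rw [this]; simp
        · simp [hi]
      rw [Finset.prod_congr rfl e1, prod_sum_fm, hk1, pow_succ]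
      exact mul_le_mul_of_nonneg_left (A2_le_A2h P Z T) (pow_nonneg hA2 _)
    · rw [← Finset.mul_prod_erase _ _ (Finset.mem_univ m),
        ← Finset.mul_prod_erase _ _ (Finset.mem_erase.2 ⟨him, Finset.mem_univ i0⟩)]
      have e1 : ∑ B : P → Bool, fm Z T m m B *
            (if m = i0 then ((Nat.log Z (val B) : ℝ) + 1) else 1) * pm aup B = 1 := by
        refine Eq.trans ?_ (sum_fm_m (P := P) aup Z T m)
        refine Finset.sum_congr rfl fun B _ => ?_
        rw [if_neg (Ne.symm him)]; ring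
      have e2 : ∑ B : P → Bool, fm Z T m i0 B *
            (if i0 = i0 then ((Nat.log Z (val B) : ℝ) + 1) else 1) * pm aup B = A2h P Z T := by
        unfold A2h
        refine Finset.sum_congr rfl fun B _ => ?_
        unfold fm
        rw [if_neg him, if_pos rfl]
      have e3 : ∀ i ∈ (Finset.univ.erase m).erase i0, ∑ B : P → Bool, fm Z T m i B *
            (if i = i0 then ((Nat.log Z (val B) : ℝ) + 1) else 1) * pm aup B = A2 P Z T := by
        intro i hi
        have h3 := Finset.ne_of_mem_erase hi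
        have h4 := Finset.ne_of_mem_erase (Finset.mem_of_mem_erase hi)
        unfold A2
        refine Finset.sum_congr rfl fun B _ => ?_
        unfold fm
        rw [if_neg h4, if_neg h3]; ring
      rw [e1, e2, Finset.prod_congr rfl e3, Finset.prod_const,
        Finset.card_erase_of_mem (Finset.mem_erase.2 ⟨him, Finset.mem_univ i0⟩),
        Finset.card_erase_of_mem (Finset.mem_univ m), Finset.card_univ, Fintype.card_fin, one_mul,
        mul_comm]
      rfl
  refine (Finset.sum_le_sum fun i0 _ => h2 i0).trans (le_of_eq ?_)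
  rw [Finset.sum_const, Finset.card_univ, Fintype.card_fin, nsmul_eq_mul]

/-- the model lower bound -/
theorem EG_cc_lower (hP : ∀ p ∈ P, 2 ≤ p) (hk : ∀ p ∈ P, k ≤ p) (hk2 : 2 ≤ k) (Z T M : ℕ)
    (hT : 1 ≤ T) (hM : T < M) (m : Fin k) (he : e1 P k ≤ 2) :
    (2 - e1 P k) ^ 2 * A1 P Z T ^ 2 *
      (A2lo P k Z T ^ (k - 1) / e2 P k -
        (k:ℝ) / ((M:ℝ) - T) * (A2 P Z T ^ (k - 2) * A2h P Z T)) ≤
      EG (fun p : P => w2 m (p:ℕ)) (cc Z T M) := by
  have hP0 : ∀ p ∈ P, 0 < p := fun p hp => by have := hP p hp; omega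
  have hMT : (0:ℝ) < (M:ℝ) - T := by
    have : (T:ℝ) < M := by exact_mod_cast hM
    linarith
  refine le_trans (mul_le_mul_of_nonneg_left ?_ (by positivity)) (EG_cc_lower1 hP hk Z T M m he)
  have ha0 : ∀ p ∈ P, 0 ≤ alo k p := fun p hp => alo_nonneg (hk p hp)
  have ha1 : ∀ p ∈ P, alo k p ≤ 1 := by
    intro p hp
    have h2 : (2:ℝ) ≤ p := by exact_mod_cast hP p hp
    have h3 : (2:ℝ) ≤ k := by exact_mod_cast hk2
    unfold alo
    rw [div_le_one (by nlinarith)]
    nlinarith
  have he2 : 1 ≤ e2 P k := by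
    unfold e2
    have : ∀ p ∈ (Finset.univ : Finset P), (1:ℝ) ≤ 1 + 2 ^ k * (alo k (p:ℕ)) ^ 2 := fun p _ => by
      have : (0:ℝ) ≤ 2 ^ k * (alo k (p:ℕ)) ^ 2 := by positivity
      linarith
    calc (1:ℝ) = ∏ p : P, (1:ℝ) := by simp
      _ ≤ _ := Finset.prod_le_prod (fun _ _ => zero_le_one) this
  have h1 : A2lo P k Z T ^ (k - 1) / e2 P k ≤
      ∑ z : Col P k, (∏ i, fm Z T m i (fun p => cl i (z p))) * pc (alo k) z := by
    rw [div_le_iff₀ (by linarith)]
    have := tuple_le_col (P := P) (fun i B => fm Z T m i B) (fun i B => fm_nonneg Z T m i B)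
      (fun i B B' h => fm_anti hP0 Z T m i B B' h) (alo k) ha0 ha1
    rw [prod_sum_fm] at this
    unfold A2lo e2
    linarith
  have h2 := sum_lev_le hP hk2 Z T m
  have h3 : (k:ℝ) / ((M:ℝ) - T) * (A2 P Z T ^ (k - 2) * A2h P Z T) =
      (1 / ((M:ℝ) - T)) * ((k:ℝ) * (A2 P Z T ^ (k - 2) * A2h P Z T)) := by ring
  have h4 := mul_le_mul_of_nonneg_left h2 (show 0 ≤ 1 / ((M:ℝ) - T) by positivity)
  rw [h3]
  refine (sub_le_sub h1 h4).trans ?_
  rw [Finset.mul_sum, ← Finset.sum_sub_distrib]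
  refine Finset.sum_le_sum fun z _ => ?_
  have hF : 0 ≤ ∏ i, fm Z T m i (fun p => cl i (z p)) :=
    Finset.prod_nonneg fun i _ => fm_nonneg _ _ _ _ _
  have hpa : 0 ≤ pc (alo k) z := pc_nonneg ha0 z
  have hpu : 0 ≤ pc aup z := pc_nonneg (fun p _ => aup_nonneg p) z
  have hpp : pc (alo k) z ≤ pc aup z := by
    unfold pc
    refine Finset.prod_le_prod (fun p _ => ?_) fun p _ => ?_
    · split_ifs
      · exact zero_le_one
      · exact ha0 p p.2
    · split_ifs
      · exact le_rfl
      · exact alo_le_aup _ _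
  have hl : (0:ℝ) ≤ (lev Z z : ℝ) := Nat.cast_nonneg _
  split_ifs with h
  · have e1 : (∏ i, fm Z T m i (fun p => cl i (z p))) = ∏ i, gz Z T (cp z i) ^ 2 := by
      rw [prod_fm hT, if_pos h.1]
    rw [← e1]
    have : 0 ≤ 1 / ((M:ℝ) - T) * ((∏ i, fm Z T m i (fun p => cl i (z p))) * (lev Z z : ℝ) *
        pc aup z) := by positivity
    linarith
  · by_cases hm : ∀ p, z p ≠ some m
    · have hlev : M < lev Z z + T := by
        by_contra hcon
        exact h ⟨hm, by omega⟩
      have hlev' : (M:ℝ) - T ≤ lev Z z := by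
        have : (M:ℝ) < (lev Z z + T : ℕ) := by exact_mod_cast hlev
        push_cast at this
        linarith
      have h5 : 1 ≤ 1 / ((M:ℝ) - T) * (lev Z z : ℝ) := by
        rw [one_div, inv_mul_eq_div, le_div_iff₀ hMT]
        linarith
      have h6 : (∏ i, fm Z T m i (fun p => cl i (z p))) * pc (alo k) z ≤
          (∏ i, fm Z T m i (fun p => cl i (z p))) * pc aup z :=
        mul_le_mul_of_nonneg_left hpp hF
      have h7 : (∏ i, fm Z T m i (fun p => cl i (z p))) * pc aup z ≤
          (1 / ((M:ℝ) - T) * (lev Z z : ℝ)) *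
            ((∏ i, fm Z T m i (fun p => cl i (z p))) * pc aup z) :=
        le_mul_of_one_le_left (by positivity) h5
      linarith
    · rw [prod_fm hT, if_neg hm]
      simp

end Pool.Agent.Maynard
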