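import Pool.Agent.Lib.Maynard.Tensor

/-!
# Sieve weights indexed by colourings of a set of primes
-/

open Finset

namespace Pool.Agent.Maynard

/-- A colouring of the primes in `P` with colours `Fin k`; `none` means that the prime does not
occur. -/
abbrev Col (P : Finset ℕ) (k : ℕ) : Type := ↥P → Option (Fin k)

/-- `e(x,y) = 1` if `x = none` or `x = y`. -/
def el {k : ℕ} (x y : Option (Fin k)) : ℝ := if x = none ∨ x = y then 1 else 0

/-- `ψ_p(none, y) = 1`, `ψ_p(some i, y) = 1 - p 1[y = some i]`. -/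
noncomputable def ps {k : ℕ} (p : ℕ) (x y : Option (Fin k)) : ℝ :=
  if x = none then 1 else if x = y then 1 - p else 1

/-- coefficients of `ψ_p(x,·)` in the basis `e(z,·)`. -/
noncomputable def lk {k : ℕ} (p : ℕ) (x z : Option (Fin k)) : ℝ :=
  if z = none then 1 else if z = x then -p else 0

variable {k : ℕ}

lemma el_none (y : Option (Fin k)) : el none y = 1 := by simp [el]
lemma el_some (i : Fin k) (y : Option (Fin k)) : el (some i) y = if some i = y then 1 else 0 := by
  simp [el]
lemma el_nonneg (x y : Option (Fin k)) : 0 ≤ el x y := by unfold el; split_ifs <;> norm_num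
lemma el_le_one (x y : Option (Fin k)) : el x y ≤ 1 := by unfold el; split_ifs <;> norm_num

lemma ps_none (p : ℕ) (y : Option (Fin k)) : ps p none y = 1 := by simp [ps]
lemma ps_some (p : ℕ) (i : Fin k) (y : Option (Fin k)) :
    ps p (some i) y = if some i = y then 1 - (p:ℝ) else 1 := by simp [ps]

lemma ps_eq (p : ℕ) (x y : Option (Fin k)) : ps p x y = ∑ z, lk p x z * el z y := by
  rw [Fintype.sum_option]
  cases x with
  | none =>
    simp [lk, ps_none, el_none]
  | some i =>
    rw [ps_some, el_none]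
    simp only [lk, el_some, if_true, reduceCtorEq, if_false, Option.some.injEq]
    simp only [ite_mul, zero_mul, Finset.sum_ite_eq', Finset.mem_univ, if_true]
    split_ifs with h
    · ring
    · ring

/-! ### The weights -/

variable {P : Finset ℕ}

/-- `G(y) = ∑ c(χ) ∏ ψ_p(χ_p, y_p)` -/
noncomputable def GG (c : Col P k → ℝ) (y : Col P k) : ℝ :=
  ∑ χ : Col P k, c χ * ∏ p : P, ps (p:ℕ) (χ p) (y p)

/-- the coefficients `λ` -/
noncomputable def lam (c : Col P k → ℝ) (z : Col P k) : ℝ :=
  ∑ χ : Col P k, c χ * ∏ p : P, lk (p:ℕ) (χ p) (z p)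

lemma GG_eq (c : Col P k → ℝ) (y : Col P k) :
    GG c y = ∑ z : Col P k, lam c z * ∏ p : P, el (z p) (y p) := by
  unfold GG lam
  rw [← basis_change c (fun p => lk (p:ℕ)) (fun p z => el z (y p))]
  refine Finset.sum_congr rfl fun χ _ => ?_
  congr 1
  exact Finset.prod_congr rfl fun p _ => ps_eq _ _ _

lemma GG_sq (c : Col P k → ℝ) (y : Col P k) :
    GG c y ^ 2 = ∑ z : Col P k, ∑ z' : Col P k, lam c z * lam c z' *
      ∏ p : P, (el (z p) (y p) * el (z' p) (y p)) := by
  rw [GG_eq, sq, Finset.sum_mul_sum]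
  refine Finset.sum_congr rfl fun z _ => Finset.sum_congr rfl fun z' _ => ?_
  rw [Finset.prod_mul_distrib]
  ring

/-- local densities of the weights `w` -/
noncomputable def mm (w : Option (Fin k) → ℝ) (z z' : Option (Fin k)) : ℝ :=
  ∑ y, w y * (el z y * el z' y)

/-- The expectation of `G²` in the product model. -/
noncomputable def EG (w : P → Option (Fin k) → ℝ) (c : Col P k → ℝ) : ℝ :=
  ∑ y : Col P k, (∏ p, w p (y p)) * GG c y ^ 2

lemma EG_eq (w : P → Option (Fin k) → ℝ) (c : Col P k → ℝ) :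
    EG w c = ∑ z : Col P k, ∑ z' : Col P k, lam c z * lam c z' * ∏ p : P, mm (w p) (z p) (z' p) := by
  unfold EG
  simp_rw [GG_sq, Finset.mul_sum]
  rw [Finset.sum_comm]
  refine Finset.sum_congr rfl fun z _ => ?_
  rw [Finset.sum_comm]
  refine Finset.sum_congr rfl fun z' _ => ?_
  unfold mm
  rw [Finset.prod_univ_sum, Fintype.piFinset_univ, Finset.mul_sum]
  refine Finset.sum_congr rfl fun y _ => ?_
  simp only [Finset.prod_mul_distrib]
  ring

/-- Comparison of a weighted count with the model. -/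
lemma compare (w : P → Option (Fin k) → ℝ) (c : Col P k → ℝ) {α : Type*} (A : Finset α)
    (θ : α → ℝ) (J : α → Col P k) (X : ℝ) (E : Col P k → Col P k → ℝ)
    (h : ∀ z z' : Col P k, lam c z ≠ 0 → lam c z' ≠ 0 →
      |∑ n ∈ A, θ n * ∏ p : P, (el (z p) (J n p) * el (z' p) (J n p)) -
      X * ∏ p : P, mm (w p) (z p) (z' p)| ≤ E z z') :
    |∑ n ∈ A, θ n * GG c (J n) ^ 2 - X * EG w c| ≤
      ∑ z : Col P k, ∑ z' : Col P k, |lam c z| * |lam c z'| * E z z' := by
  have h1 : ∑ n ∈ A, θ n * GG c (J n) ^ 2 = ∑ z : Col P k, ∑ z' : Col P k,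
      lam c z * lam c z' * ∑ n ∈ A, θ n * ∏ p : P, (el (z p) (J n p) * el (z' p) (J n p)) := by
    simp_rw [GG_sq, Finset.mul_sum]
    rw [Finset.sum_comm]
    refine Finset.sum_congr rfl fun z _ => ?_
    rw [Finset.sum_comm]
    refine Finset.sum_congr rfl fun z' _ => Finset.sum_congr rfl fun n _ => ?_
    ring
  rw [h1, EG_eq, Finset.mul_sum, ← Finset.sum_sub_distrib]
  refine (Finset.abs_sum_le_sum_abs _ _).trans (Finset.sum_le_sum fun z _ => ?_)
  rw [Finset.mul_sum, ← Finset.sum_sub_distrib]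
  refine (Finset.abs_sum_le_sum_abs _ _).trans (Finset.sum_le_sum fun z' _ => ?_)
  by_cases hz : lam c z = 0
  · simp [hz]
  by_cases hz' : lam c z' = 0
  · simp [hz']
  have h2 : lam c z * lam c z' * ∑ n ∈ A, θ n * ∏ p : P, (el (z p) (J n p) * el (z' p) (J n p)) -
      X * (lam c z * lam c z' * ∏ p : P, mm (w p) (z p) (z' p)) =
      (lam c z * lam c z') * (∑ n ∈ A, θ n * ∏ p : P, (el (z p) (J n p) * el (z' p) (J n p)) -
      X * ∏ p : P, mm (w p) (z p) (z' p)) := by ring
  rw [h2, abs_mul, abs_mul]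
  exact mul_le_mul_of_nonneg_left (h z z' hz hz') (by positivity)

/-! ### Upper bound in the standard model -/

/-- standard weights: each colour has probability `1/p` -/
noncomputable def w1 (k p : ℕ) (y : Option (Fin k)) : ℝ := if y = none then 1 - k / p else 1 / p

/-- point mass -/
noncomputable def wpt (j y : Option (Fin k)) : ℝ := if y = j then 1 else 0

lemma w1_nonneg {p : ℕ} (hp : k ≤ p) (y : Option (Fin k)) : 0 ≤ w1 k p y := by
  unfold w1
  split_ifs
  · rcases Nat.eq_zero_or_pos p with h | h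
    · simp [h]
    · have : (0:ℝ) < p := by exact_mod_cast h
      rw [sub_nonneg, div_le_one this]
      exact_mod_cast hp
  · positivity

lemma local_upper {p : ℕ} (hp : 0 < p) (a : Option (Fin k) → ℝ) :
    ∑ y, w1 k p y * (∑ x, a x * ps p x y) ^ 2 ≤
      ∑ x : Option (Fin k), (if x = none then (1:ℝ) else p) * a x ^ 2 := by
  have hp' : (0:ℝ) < p := by exact_mod_cast hp
  set B := ∑ i : Fin k, a (some i) with hB
  have h0 : ∑ x, a x * ps p x none = a none + B := by
    rw [Fintype.sum_option, ps_none, mul_one]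
    simp [ps_some, hB]
  have hi : ∀ i : Fin k, ∑ x, a x * ps p x (some i) = a none + B - p * a (some i) := by
    intro i
    rw [Fintype.sum_option, ps_none, mul_one]
    simp only [ps_some, Option.some.injEq]
    have : ∑ x : Fin k, a (some x) * (if x = i then 1 - (p:ℝ) else 1) =
        ∑ x : Fin k, (a (some x) - if x = i then (p:ℝ) * a (some x) else 0) := by
      refine Finset.sum_congr rfl fun x _ => ?_
      split_ifs <;> ring
    rw [this, Finset.sum_sub_distrib]
    simp [hB]
    ring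
  have e1 := Fintype.sum_option (fun y : Option (Fin k) => w1 k p y * (∑ x, a x * ps p x y) ^ 2)
  have e2 := Fintype.sum_option
    (fun x : Option (Fin k) => (if x = none then (1:ℝ) else p) * a x ^ 2)
  rw [e1, e2, h0]
  simp_rw [hi]
  simp only [w1, if_true, reduceCtorEq, if_false, one_mul]
  have h1 : ∑ i : Fin k, 1 / (p:ℝ) * (a none + B - p * a (some i)) ^ 2 =
      (k / p) * (a none + B) ^ 2 - 2 * (a none + B) * B + p * ∑ i : Fin k, a (some i) ^ 2 := by
    have : ∀ i : Fin k, 1 / (p:ℝ) * (a none + B - p * a (some i)) ^ 2 =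
        (1 / p) * (a none + B) ^ 2 - 2 * (a none + B) * a (some i) + p * a (some i) ^ 2 := by
      intro i
      field_simp
      ring
    simp_rw [this]
    rw [Finset.sum_add_distrib, Finset.sum_sub_distrib, ← Finset.mul_sum, ← Finset.mul_sum,
      ← hB, Finset.sum_const, Finset.card_univ, Fintype.card_fin, nsmul_eq_mul, ← Finset.mul_sum]
    field_simp
  rw [h1, ← Finset.mul_sum]
  nlinarith [sq_nonneg B]

lemma local_point {p : ℕ} (hp : 2 ≤ p) (j : Option (Fin k)) (a : Option (Fin k) → ℝ) :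
    ∑ y, wpt j y * (∑ x, a x * ps p x y) ^ 2 ≤
      ∑ x : Option (Fin k), (if x = none then (k + 1 : ℝ) else (k + 1) * ((p:ℝ) - 1) ^ 2) * a x ^ 2 := by
  have hp' : (2:ℝ) ≤ p := by exact_mod_cast hp
  have h1 : ∑ y, wpt j y * (∑ x, a x * ps p x y) ^ 2 = (∑ x, a x * ps p x j) ^ 2 := by
    simp [wpt]
  rw [h1]
  refine (sq_sum_le_card_mul_sum_sq).trans ?_
  have hc : ((Finset.univ : Finset (Option (Fin k))).card : ℝ) = k + 1 := by simp
  rw [hc, Finset.mul_sum]
  refine Finset.sum_le_sum fun x _ => ?_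
  cases x with
  | none => simp [ps_none]
  | some i =>
    simp only [reduceCtorEq, if_false]
    rw [mul_pow, ps_some]
    have : (if some i = j then 1 - (p:ℝ) else 1) ^ 2 ≤ ((p:ℝ) - 1) ^ 2 := by
      split_ifs
      · nlinarith
      · nlinarith
    have h2 : 0 ≤ a (some i) ^ 2 := sq_nonneg _
    have h3 : (0:ℝ) ≤ k + 1 := by positivity
    calc ((k:ℝ) + 1) * (a (some i) ^ 2 * (if some i = j then 1 - (p:ℝ) else 1) ^ 2)
        ≤ ((k:ℝ) + 1) * (a (some i) ^ 2 * ((p:ℝ) - 1) ^ 2) := by gcongr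
      _ = _ := by ring

/-- weights for the count in the residue class fixed at the primes dividing `q` -/
noncomputable def wq (q : ℕ) (j : Col P k) (p : P) : Option (Fin k) → ℝ :=
  if (p:ℕ) ∣ q then wpt (j p) else w1 k p

/-- bound factors -/
noncomputable def kq (k : ℕ) (q : ℕ) (p : ℕ) (x : Option (Fin k)) : ℝ :=
  if p ∣ q then (if x = none then (k + 1 : ℝ) else (k + 1) * ((p:ℝ) - 1) ^ 2)
  else (if x = none then (1:ℝ) else p)

theorem EG_upper (hP : ∀ p ∈ P, p.Prime) (hk : ∀ p ∈ P, k ≤ p) (q : ℕ) (j : Col P k)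
    (c : Col P k → ℝ) :
    EG (wq q j) c ≤ ∑ χ : Col P k, (∏ p : P, kq k q p (χ p)) * c χ ^ 2 := by
  unfold EG GG
  refine tensor_le (wq q j) (fun p y => ?_) (fun p => kq k q p) (fun p x => ?_)
    (fun p => ps (p:ℕ)) (fun p a => ?_) c
  · unfold wq
    split_ifs
    · unfold wpt; split_ifs <;> norm_num
    · exact w1_nonneg (hk p p.2) y
  · unfold kq
    split_ifs <;> positivity
  · unfold wq kq
    split_ifs with h
    · exact local_point (hP p p.2).two_le _ _
    · exact local_upper (hP p p.2).pos _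

end Pool.Agent.Maynard
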