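import Pool.Agent.Lib.Maynard.Model

/-!
# Push-forward inequalities between product spaces
-/

open Finset

namespace Pool.Agent.Maynard

section

variable {X Z : Type} [Fintype X] [Fintype Z] [DecidableEq Z] {ι : Type*} [Fintype ι]
  [DecidableEq ι]

/-- push-forward inequality -/
lemma push (r : ι → X → Z) (a : ι → X → ℝ) (ha : ∀ i x, 0 ≤ a i x)
    (F : (ι → X) → ℝ) (F' : (ι → Z) → ℝ) (h : ∀ x, F x ≤ F' (fun i => r i (x i))) :
    ∑ x : ι → X, F x * ∏ i, a i (x i) ≤
      ∑ z : ι → Z, F' z * ∏ i, (∑ x : X, if r i x = z i then a i x else 0) := by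
  have h1 : ∑ z : ι → Z, F' z * ∏ i, (∑ x : X, if r i x = z i then a i x else 0) =
      ∑ x : ι → X, F' (fun i => r i (x i)) * ∏ i, a i (x i) := by
    have h2 : ∀ z : ι → Z, F' z * ∏ i, (∑ x : X, if r i x = z i then a i x else 0) =
        ∑ x : ι → X, F' z * ∏ i, (if r i (x i) = z i then a i (x i) else 0) := by
      intro z
      rw [Finset.prod_univ_sum, Fintype.piFinset_univ, Finset.mul_sum]
    simp_rw [h2]
    rw [Finset.sum_comm]
    refine Finset.sum_congr rfl fun x _ => ?_
    rw [Finset.sum_eq_single (fun i => r i (x i))]
    · simp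
    · intro z _ hz
      obtain ⟨i, hi⟩ : ∃ i, r i (x i) ≠ z i := by
        by_contra hcon
        push Not at hcon
        exact hz (funext fun i => (hcon i).symm)
      rw [Finset.prod_eq_zero (Finset.mem_univ i), mul_zero]
      rw [if_neg hi]
    · intro hx; exact absurd (Finset.mem_univ _) hx
  rw [h1]
  refine Finset.sum_le_sum fun x _ => ?_
  exact mul_le_mul_of_nonneg_right (h x) (Finset.prod_nonneg fun i _ => ha i _)

lemma push' (r : ι → X → Z) (a : ι → X → ℝ) (ha : ∀ i x, 0 ≤ a i x)
    (F : (ι → X) → ℝ) (F' : (ι → Z) → ℝ) (h : ∀ x, F x ≤ F' (fun i => r i (x i)))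
    (hF' : ∀ z, 0 ≤ F' z) (b : ι → Z → ℝ)
    (hb : ∀ i z, ∑ x : X, (if r i x = z then a i x else 0) ≤ b i z) :
    ∑ x : ι → X, F x * ∏ i, a i (x i) ≤ ∑ z : ι → Z, F' z * ∏ i, b i (z i) := by
  refine (push r a ha F F' h).trans (Finset.sum_le_sum fun z _ => ?_)
  refine mul_le_mul_of_nonneg_left (Finset.prod_le_prod (fun i _ => ?_) fun i _ => hb i _) (hF' z)
  exact Finset.sum_nonneg fun x _ => by split_ifs; exacts [ha i x, le_rfl]

end

variable {P : Finset ℕ} {k : ℕ}

/-- product of the primes selected by `B` -/
def val (B : P → Bool) : ℕ := ∏ p : P, if B p then (p:ℕ) else 1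

/-- indicator of the colour `i` -/
def cl (i : Fin k) (x : Option (Fin k)) : Bool := decide (x = some i)

/-- product of the primes of colour `i` -/
def cp (χ : Col P k) (i : Fin k) : ℕ := val (fun p => cl i (χ p))

lemma val_le (hP : ∀ p ∈ P, 0 < p) {B B' : P → Bool} (h : ∀ p, B p = true → B' p = true) :
    val B ≤ val B' := by
  unfold val
  refine Finset.prod_le_prod' fun p _ => ?_
  have hp := hP p p.2
  by_cases hB : B p = true
  · rw [hB, h p hB]
  · rw [if_neg hB]
    split_ifs
    · exact hp
    · exact le_rfl

lemma val_pos (hP : ∀ p ∈ P, 0 < p) (B : P → Bool) : 0 < val B := by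
  unfold val
  refine Finset.prod_pos fun p _ => ?_
  have hp := hP p p.2
  split_ifs
  · exact hp
  · exact one_pos

/-- product measure -/
noncomputable def pm (a : ℕ → ℝ) (B : P → Bool) : ℝ := ∏ p : P, (if B p then a p else 1)

lemma pm_nonneg {a : ℕ → ℝ} (ha : ∀ p ∈ P, 0 ≤ a p) (B : P → Bool) : 0 ≤ pm a B := by
  unfold pm
  refine Finset.prod_nonneg fun p _ => ?_
  split_ifs
  · exact ha p p.2
  · exact zero_le_one

lemma tuple_prod (f : Fin k → (P → Bool) → ℝ) (a : ℕ → ℝ) :
    ∑ z : P → (Fin k → Bool), (∏ i, f i (fun p => z p i)) *
      ∏ p : P, ∏ i, (if z p i then a p else 1) =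
    ∏ i, ∑ B : P → Bool, f i B * pm a B := by
  rw [Finset.prod_univ_sum, Fintype.piFinset_univ]
  refine Fintype.sum_equiv (Equiv.piComm _) _ _ fun z => ?_
  rw [Finset.prod_mul_distrib]
  unfold pm
  congr 1
  rw [Finset.prod_comm]
  rfl

/-- `∏ a_p` over the coloured primes -/
noncomputable def pc (a : ℕ → ℝ) (χ : Col P k) : ℝ := ∏ p : P, (if χ p = none then 1 else a p)

lemma pc_nonneg {a : ℕ → ℝ} (ha : ∀ p ∈ P, 0 ≤ a p) (χ : Col P k) : 0 ≤ pc a χ := by
  unfold pc
  refine Finset.prod_nonneg fun p _ => ?_
  split_ifs
  · exact zero_le_one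
  · exact ha p p.2

/-- colourings are bounded by tuples -/
lemma col_le_tuple (f : Fin k → (P → Bool) → ℝ) (hf : ∀ i B, 0 ≤ f i B) (a : ℕ → ℝ)
    (ha : ∀ p ∈ P, 0 ≤ a p) :
    ∑ χ : Col P k, (∏ i, f i (fun p => cl i (χ p))) * pc a χ ≤
      ∏ i, ∑ B : P → Bool, f i B * pm a B := by
  rw [← tuple_prod]
  unfold pc
  refine push' (ι := P) (X := Option (Fin k)) (Z := Fin k → Bool) (fun _ x => fun i => cl i x)
    (fun (p : P) (x : Option (Fin k)) => if x = none then (1:ℝ) else a p)
    (fun p x => ?_) _ (fun z => ∏ i, f i (fun p => z p i)) (fun x => le_rfl)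
    (fun z => Finset.prod_nonneg fun i _ => hf _ _)
    (fun (p : P) z => ∏ i, (if z i then a p else 1)) (fun p z => ?_)
  · have := ha p p.2
    split_ifs
    · exact zero_le_one
    · exact this
  · have ha' := ha p p.2
    rw [Fintype.sum_option]
    by_cases h0 : z = fun _ => false
    · subst h0
      have : ∀ i : Fin k, (fun j => cl j (some i)) ≠ (fun _ => false : Fin k → Bool) := by
        intro i hi
        have := congrFun hi i
        simp [cl] at this
      rw [Finset.sum_eq_zero (fun i _ => by rw [if_neg (this i)])]
      simp [cl]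
    · have h1 : (fun i => cl i (none : Option (Fin k))) ≠ z := by
        intro h; apply h0; rw [← h]; funext i; simp [cl]
      rw [if_neg h1, zero_add]
      by_cases h2 : ∃ i : Fin k, (fun j => cl j (some i)) = z
      · obtain ⟨i, hi⟩ := h2
        subst hi
        have h3 : ∀ j : Fin k, ((fun l => cl l (some j)) = (fun l => cl l (some i))) ↔ j = i := by
          intro j
          constructor
          · intro h
            have := congrFun h i
            simpa [cl, eq_comm] using this
          · rintro rfl; rfl
        simp only [h3, reduceCtorEq, if_false, Finset.sum_ite_eq', Finset.mem_univ, if_true]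
        rw [Finset.prod_eq_single i]
        · simp [cl]
        · intro j _ hj
          have : cl j (some i) = false := by simp [cl, Ne.symm hj]
          simp [this]
        · intro h; exact absurd (Finset.mem_univ _) h
      · push Not at h2
        rw [Finset.sum_eq_zero]
        · refine Finset.prod_nonneg fun i _ => ?_
          split_ifs
          · exact ha'
          · exact zero_le_one
        · intro i _
          rw [if_neg (h2 i)]

/-- tuples are bounded by colourings, up to a factor close to one -/
lemma tuple_le_col (f : Fin k → (P → Bool) → ℝ) (hf : ∀ i B, 0 ≤ f i B)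
    (hm : ∀ i (B B' : P → Bool), (∀ p, B p = true → B' p = true) → f i B' ≤ f i B) (a : ℕ → ℝ)
    (ha : ∀ p ∈ P, 0 ≤ a p) (ha1 : ∀ p ∈ P, a p ≤ 1) :
    ∏ i, ∑ B : P → Bool, f i B * pm a B ≤
      (∏ p : P, (1 + 2 ^ k * (a p) ^ 2)) *
        ∑ χ : Col P k, (∏ i, f i (fun p => cl i (χ p))) * pc a χ := by
  classical
  rw [← tuple_prod]
  -- the retraction
  let r : (Fin k → Bool) → Option (Fin k) := fun x =>
    if h : ∃ i, x = fun j => cl j (some i) then some h.choose else none
  have hr1 : ∀ i : Fin k, r (fun j => cl j (some i)) = some i := by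
    intro i
    have h : ∃ i', (fun j => cl j (some i)) = fun j => cl j (some i') := ⟨i, rfl⟩
    simp only [r, dif_pos h]
    have h2 := h.choose_spec
    have h3 : cl i (some i) = cl i (some h.choose) := congrFun h2 i
    have h4 : cl i (some h.choose) = true := by rw [← h3]; simp [cl]
    have h5 : h.choose = i := by simpa [cl] using h4
    rw [h5]
  have hr2 : ∀ x i, r x = some i → x = fun j => cl j (some i) := by
    intro x i hx
    by_cases h : ∃ i, x = fun j => cl j (some i)
    · obtain ⟨i', hi'⟩ := h
      rw [hi', hr1] at hx
      rw [hi', hx]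
    · simp only [r, dif_neg h] at hx
      exact absurd hx (by simp)
  have key := push' (ι := P) (X := Fin k → Bool) (Z := Option (Fin k)) (fun _ => r)
    (fun p x => ∏ i, (if x i then a p else 1))
    (fun p x => Finset.prod_nonneg fun i _ => by
      split_ifs
      · exact ha p p.2
      · exact zero_le_one)
    (fun z => ∏ i, f i (fun p => z p i)) (fun χ => ∏ i, f i (fun p => cl i (χ p)))
    (fun x => Finset.prod_le_prod (fun i _ => hf _ _) fun i _ => hm i _ _ (fun p hp => by
      have hp' : r (x p) = some i := by simpa [cl] using hp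
      have := hr2 _ _ hp'
      rw [this]
      simp [cl]))
    (fun χ => Finset.prod_nonneg fun i _ => hf _ _)
    (fun p χ => (1 + 2 ^ k * (a p) ^ 2) * (if χ = none then 1 else a p)) ?_
  · refine key.trans (le_of_eq ?_)
    rw [Finset.mul_sum]
    refine Finset.sum_congr rfl fun χ _ => ?_
    unfold pc
    rw [Finset.prod_mul_distrib]
    ring
  · intro p z
    have ha' := ha p p.2
    have ha1' := ha1 p p.2
    have hpos : 0 ≤ 2 ^ k * (a p) ^ 2 := by positivity
    cases z with
    | some i =>
      simp only [reduceCtorEq, if_false]
      rw [Finset.sum_eq_single (fun j => cl j (some i))]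
      · rw [if_pos (hr1 i), Finset.prod_eq_single i]
        · simp only [cl, decide_true, if_true]
          nlinarith
        · intro j _ hj
          have : cl j (some i) = false := by simp [cl, Ne.symm hj]
          simp [this]
        · intro h; exact absurd (Finset.mem_univ _) h
      · intro x _ hx
        rw [if_neg]
        intro h
        exact hx (hr2 x i h)
      · intro h; exact absurd (Finset.mem_univ _) h
    | none =>
      simp only [if_true, mul_one]
      have h0 : r (fun _ => false) = none := by
        have : ¬ ∃ i : Fin k, (fun _ => false : Fin k → Bool) = fun j => cl j (some i) := by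
          rintro ⟨i, hi⟩
          have := congrFun hi i
          simp [cl] at this
        simp only [r, dif_neg this]
      rw [← Finset.add_sum_erase _ _ (Finset.mem_univ (fun _ => false : Fin k → Bool)), if_pos h0]
      have e1 : ∏ i : Fin k, (if (fun _ => false : Fin k → Bool) i = true then a p else 1) = 1 := by
        simp
      rw [e1]
      have e2 : ∑ x ∈ Finset.univ.erase (fun _ => false : Fin k → Bool),
          (if r x = none then ∏ i, (if x i = true then a p else 1) else 0) ≤
          ∑ x ∈ Finset.univ.erase (fun _ => false : Fin k → Bool), (a p) ^ 2 := by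
        refine Finset.sum_le_sum fun x hx => ?_
        split_ifs with h
        · -- at least two colours
          have hx0 : x ≠ fun _ => false := (Finset.mem_erase.1 hx).1
          obtain ⟨i, hi⟩ : ∃ i, x i = true := by
            by_contra hcon
            push Not at hcon
            exact hx0 (funext fun i => by simpa using hcon i)
          have hne : x ≠ fun j => cl j (some i) := by
            intro h'
            rw [h', hr1] at h
            exact absurd h (by simp)
          obtain ⟨j, hj⟩ : ∃ j, x j ≠ cl j (some i) := by
            by_contra hcon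
            push Not at hcon
            exact hne (funext hcon)
          have hji : j ≠ i := by
            rintro rfl
            apply hj
            simp [cl, hi]
          have hxj : x j = true := by
            have : cl j (some i) = false := by simp [cl, Ne.symm hji]
            rw [this] at hj
            simpa using hj
          rw [← Finset.mul_prod_erase _ _ (Finset.mem_univ i), if_pos hi,
            ← Finset.mul_prod_erase _ _ (Finset.mem_erase.2 ⟨hji, Finset.mem_univ j⟩), if_pos hxj,
            sq, ← mul_assoc]
          refine mul_le_of_le_one_right (by positivity) ?_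
          refine Finset.prod_le_one (fun l _ => ?_) fun l _ => ?_
          · split_ifs
            · exact ha'
            · exact zero_le_one
          · split_ifs
            · exact ha1'
            · exact le_rfl
        · positivity
      have e3 : ∑ x ∈ Finset.univ.erase (fun _ => false : Fin k → Bool), (a p) ^ 2 ≤
          2 ^ k * (a p) ^ 2 := by
        rw [Finset.sum_const, nsmul_eq_mul]
        refine mul_le_mul_of_nonneg_right ?_ (by positivity)
        have : (Finset.univ.erase (fun _ => false : Fin k → Bool)).card ≤ 2 ^ k := by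
          refine (Finset.card_erase_le).trans ?_
          simp
        exact_mod_cast this
      linarith

end Pool.Agent.Maynard
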