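import Mathlib

/-!
# Tensor products of contractive and expansive kernels

Finite product spaces `ι → X`, `ι → Y`, weights `w i` on `Y`, `κ i` on `X` and kernels `ψ i`.
-/

open Finset

namespace Pool.Agent.Maynard

universe u

section

open scoped Classical

variable {X Y : Type} [Fintype X] [Fintype Y]

/-- transport of the tensor sum along an equivalence of index types -/
lemma tens_equiv {α β : Type u} [Fintype α] [Fintype β] (e : α ≃ β) (w : β → Y → ℝ)
    (ψ : β → X → Y → ℝ) (c : (β → X) → ℝ) :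
    ∑ y : β → Y, (∏ i, w i (y i)) * (∑ x : β → X, c x * ∏ i, ψ i (x i) (y i)) ^ 2 =
    ∑ y : α → Y, (∏ i, w (e i) (y i)) *
      (∑ x : α → X, c (x ∘ e.symm) * ∏ i, ψ (e i) (x i) (y i)) ^ 2 := by
  symm
  refine Fintype.sum_equiv (e.arrowCongr (Equiv.refl Y)) _ _ fun y => ?_
  congr 1
  · refine Fintype.prod_equiv e _ _ fun i => ?_
    simp [Equiv.arrowCongr]
  · congr 1
    refine Fintype.sum_equiv (e.arrowCongr (Equiv.refl X)) _ _ fun x => ?_
    congr 1
    refine Fintype.prod_equiv e _ _ fun i => ?_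
    simp [Equiv.arrowCongr]

lemma kap_equiv {α β : Type u} [Fintype α] [Fintype β] (e : α ≃ β) (κ : β → X → ℝ)
    (c : (β → X) → ℝ) :
    ∑ x : β → X, (∏ i, κ i (x i)) * c x ^ 2 =
    ∑ x : α → X, (∏ i, κ (e i) (x i)) * c (x ∘ e.symm) ^ 2 := by
  symm
  refine Fintype.sum_equiv (e.arrowCongr (Equiv.refl X)) _ _ fun x => ?_
  congr 1
  refine Fintype.prod_equiv e _ _ fun i => ?_
  simp [Equiv.arrowCongr]

/-- splitting off the coordinate `none` -/
lemma sum_option {α : Type u} [Fintype α] {Z : Type} [Fintype Z] [d1 : DecidableEq (Option α)]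
    [d2 : DecidableEq α] (F : (Option α → Z) → ℝ) :
    ∑ y : Option α → Z, F y =
      ∑ z : Z, ∑ y : α → Z, F (fun o => o.elim z y) := by
  rw [← Fintype.sum_prod_type']
  symm
  refine Fintype.sum_equiv
    { toFun := fun p => fun o => o.elim p.1 p.2
      invFun := fun f => (f none, fun a => f (some a))
      left_inv := fun p => by simp
      right_inv := fun f => by
        funext o
        cases o <;> rfl } _ _ fun p => rfl

theorem tensor_le_aux {ι : Type u} [Fintype ι] (w : ι → Y → ℝ) (hw : ∀ i y, 0 ≤ w i y)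
    (κ : ι → X → ℝ) (hκ : ∀ i x, 0 ≤ κ i x) (ψ : ι → X → Y → ℝ)
    (h : ∀ i (a : X → ℝ), ∑ y, w i y * (∑ x, a x * ψ i x y) ^ 2 ≤ ∑ x, κ i x * a x ^ 2)
    (c : (ι → X) → ℝ) :
    ∑ y : ι → Y, (∏ i, w i (y i)) * (∑ x : ι → X, c x * ∏ i, ψ i (x i) (y i)) ^ 2 ≤
      ∑ x : ι → X, (∏ i, κ i (x i)) * c x ^ 2 := by
  revert w κ ψ c
  refine Fintype.induction_empty_option (P := fun (ι : Type u) [Fintype ι] =>
    ∀ (w : ι → Y → ℝ) (_ : ∀ i y, 0 ≤ w i y) (κ : ι → X → ℝ) (_ : ∀ i x, 0 ≤ κ i x)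
      (ψ : ι → X → Y → ℝ)
      (_ : ∀ i (a : X → ℝ), ∑ y, w i y * (∑ x, a x * ψ i x y) ^ 2 ≤ ∑ x, κ i x * a x ^ 2)
      (c : (ι → X) → ℝ),
      ∑ y : ι → Y, (∏ i, w i (y i)) * (∑ x : ι → X, c x * ∏ i, ψ i (x i) (y i)) ^ 2 ≤
        ∑ x : ι → X, (∏ i, κ i (x i)) * c x ^ 2) ?_ ?_ ?_ ι
  · intro α β _ e ih w hw κ hκ ψ h c
    let _ := Fintype.ofEquiv β e.symm
    rw [tens_equiv e, kap_equiv e]
    exact ih _ (fun i => hw _) _ (fun i => hκ _) _ (fun i => h _) _
  · intro w hw κ hκ ψ h c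
    simp
  · intro α _ ih w hw κ hκ ψ h c
    have sY := @sum_option α _ Y _ (fun a b => Classical.propDecidable _)
      (fun a b => Classical.propDecidable _)
    have sX := @sum_option α _ X _ (fun a b => Classical.propDecidable _)
      (fun a b => Classical.propDecidable _)
    rw [sY, sX]
    simp only [Fintype.prod_option, Option.elim_none, Option.elim_some, sX]
    calc ∑ z : Y, ∑ y : α → Y, (w none z * ∏ i, w (some i) (y i)) *
          (∑ x : X, ∑ x' : α → X, c (fun o => o.elim x x') *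
            (ψ none x z * ∏ i, ψ (some i) (x' i) (y i))) ^ 2
        = ∑ y : α → Y, (∏ i, w (some i) (y i)) * ∑ z : Y, w none z *
          (∑ x : X, (∑ x' : α → X, c (fun o => o.elim x x') *
            ∏ i, ψ (some i) (x' i) (y i)) * ψ none x z) ^ 2 := by
          rw [Finset.sum_comm]
          refine Finset.sum_congr rfl fun y _ => ?_
          rw [Finset.mul_sum]
          refine Finset.sum_congr rfl fun z _ => ?_
          have : ∑ x : X, ∑ x' : α → X, c (fun o => o.elim x x') *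
              (ψ none x z * ∏ i, ψ (some i) (x' i) (y i)) =
              ∑ x : X, (∑ x' : α → X, c (fun o => o.elim x x') *
            ∏ i, ψ (some i) (x' i) (y i)) * ψ none x z := by
            refine Finset.sum_congr rfl fun x _ => ?_
            rw [Finset.sum_mul]
            refine Finset.sum_congr rfl fun x' _ => ?_
            ring
          rw [this]
          ring
      _ ≤ ∑ y : α → Y, (∏ i, w (some i) (y i)) * ∑ x : X, κ none x *
          (∑ x' : α → X, c (fun o => o.elim x x') * ∏ i, ψ (some i) (x' i) (y i)) ^ 2 := by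
          refine Finset.sum_le_sum fun y _ => ?_
          refine mul_le_mul_of_nonneg_left (h none _) (Finset.prod_nonneg fun i _ => hw _ _)
      _ = ∑ x : X, κ none x * ∑ y : α → Y, (∏ i, w (some i) (y i)) *
          (∑ x' : α → X, c (fun o => o.elim x x') * ∏ i, ψ (some i) (x' i) (y i)) ^ 2 := by
          simp_rw [Finset.mul_sum]
          rw [Finset.sum_comm]
          refine Finset.sum_congr rfl fun x _ => Finset.sum_congr rfl fun y _ => ?_
          ring
      _ ≤ ∑ x : X, κ none x * ∑ x' : α → X, (∏ i, κ (some i) (x' i)) *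
          c (fun o => o.elim x x') ^ 2 := by
          refine Finset.sum_le_sum fun x _ => ?_
          refine mul_le_mul_of_nonneg_left ?_ (hκ _ _)
          exact ih _ (fun i => hw _) _ (fun i => hκ _) _ (fun i => h _) _
      _ = _ := by
          refine Finset.sum_congr rfl fun x _ => ?_
          rw [Finset.mul_sum]
          refine Finset.sum_congr rfl fun x' _ => ?_
          ring

theorem le_tensor_aux {ι : Type u} [Fintype ι] (w : ι → Y → ℝ) (hw : ∀ i y, 0 ≤ w i y)
    (κ : ι → X → ℝ) (hκ : ∀ i x, 0 ≤ κ i x) (ψ : ι → X → Y → ℝ)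
    (h : ∀ i (a : X → ℝ), ∑ x, κ i x * a x ^ 2 ≤ ∑ y, w i y * (∑ x, a x * ψ i x y) ^ 2)
    (c : (ι → X) → ℝ) :
    ∑ x : ι → X, (∏ i, κ i (x i)) * c x ^ 2 ≤
      ∑ y : ι → Y, (∏ i, w i (y i)) * (∑ x : ι → X, c x * ∏ i, ψ i (x i) (y i)) ^ 2 := by
  revert w κ ψ c
  refine Fintype.induction_empty_option (P := fun (ι : Type u) [Fintype ι] =>
    ∀ (w : ι → Y → ℝ) (_ : ∀ i y, 0 ≤ w i y) (κ : ι → X → ℝ) (_ : ∀ i x, 0 ≤ κ i x)
      (ψ : ι → X → Y → ℝ)
      (_ : ∀ i (a : X → ℝ), ∑ x, κ i x * a x ^ 2 ≤ ∑ y, w i y * (∑ x, a x * ψ i x y) ^ 2)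
      (c : (ι → X) → ℝ),
      ∑ x : ι → X, (∏ i, κ i (x i)) * c x ^ 2 ≤
      ∑ y : ι → Y, (∏ i, w i (y i)) * (∑ x : ι → X, c x * ∏ i, ψ i (x i) (y i)) ^ 2) ?_ ?_ ?_ ι
  · intro α β _ e ih w hw κ hκ ψ h c
    let _ := Fintype.ofEquiv β e.symm
    rw [tens_equiv e, kap_equiv e]
    exact ih _ (fun i => hw _) _ (fun i => hκ _) _ (fun i => h _) _
  · intro w hw κ hκ ψ h c
    simp
  · intro α _ ih w hw κ hκ ψ h c
    have sY := @sum_option α _ Y _ (fun a b => Classical.propDecidable _)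
      (fun a b => Classical.propDecidable _)
    have sX := @sum_option α _ X _ (fun a b => Classical.propDecidable _)
      (fun a b => Classical.propDecidable _)
    rw [sX, sY]
    simp only [Fintype.prod_option, Option.elim_none, Option.elim_some, sX]
    calc ∑ x : X, ∑ x' : α → X, (κ none x * ∏ i, κ (some i) (x' i)) *
          c (fun o => o.elim x x') ^ 2
        = ∑ x : X, κ none x * ∑ x' : α → X, (∏ i, κ (some i) (x' i)) *
          c (fun o => o.elim x x') ^ 2 := by
          refine Finset.sum_congr rfl fun x _ => ?_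
          rw [Finset.mul_sum]
          refine Finset.sum_congr rfl fun x' _ => ?_
          ring
      _ ≤ ∑ x : X, κ none x * ∑ y : α → Y, (∏ i, w (some i) (y i)) *
          (∑ x' : α → X, c (fun o => o.elim x x') * ∏ i, ψ (some i) (x' i) (y i)) ^ 2 := by
          refine Finset.sum_le_sum fun x _ => ?_
          refine mul_le_mul_of_nonneg_left ?_ (hκ _ _)
          exact ih _ (fun i => hw _) _ (fun i => hκ _) _ (fun i => h _) _
      _ = ∑ y : α → Y, (∏ i, w (some i) (y i)) * ∑ x : X, κ none x *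
          (∑ x' : α → X, c (fun o => o.elim x x') * ∏ i, ψ (some i) (x' i) (y i)) ^ 2 := by
          simp_rw [Finset.mul_sum]
          rw [Finset.sum_comm]
          refine Finset.sum_congr rfl fun x _ => Finset.sum_congr rfl fun y _ => ?_
          ring
      _ ≤ ∑ y : α → Y, (∏ i, w (some i) (y i)) * ∑ z : Y, w none z *
          (∑ x : X, (∑ x' : α → X, c (fun o => o.elim x x') *
            ∏ i, ψ (some i) (x' i) (y i)) * ψ none x z) ^ 2 := by
          refine Finset.sum_le_sum fun y _ => ?_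
          refine mul_le_mul_of_nonneg_left (h none _) (Finset.prod_nonneg fun i _ => hw _ _)
      _ = _ := by
          rw [Finset.sum_comm (s := (Finset.univ : Finset Y))]
          refine Finset.sum_congr rfl fun y _ => ?_
          rw [Finset.mul_sum]
          refine Finset.sum_congr rfl fun z _ => ?_
          have : ∑ x : X, ∑ x' : α → X, c (fun o => o.elim x x') *
              (ψ none x z * ∏ i, ψ (some i) (x' i) (y i)) =
              ∑ x : X, (∑ x' : α → X, c (fun o => o.elim x x') *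
            ∏ i, ψ (some i) (x' i) (y i)) * ψ none x z := by
            refine Finset.sum_congr rfl fun x _ => ?_
            rw [Finset.sum_mul]
            refine Finset.sum_congr rfl fun x' _ => ?_
            ring
          rw [this]
          ring

end

section

variable {X Y : Type} [Fintype X] [Fintype Y]

theorem tensor_le {ι : Type u} [Fintype ι] [inst : DecidableEq ι] (w : ι → Y → ℝ)
    (hw : ∀ i y, 0 ≤ w i y)
    (κ : ι → X → ℝ) (hκ : ∀ i x, 0 ≤ κ i x) (ψ : ι → X → Y → ℝ)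
    (h : ∀ i (a : X → ℝ), ∑ y, w i y * (∑ x, a x * ψ i x y) ^ 2 ≤ ∑ x, κ i x * a x ^ 2)
    (c : (ι → X) → ℝ) :
    ∑ y : ι → Y, (∏ i, w i (y i)) * (∑ x : ι → X, c x * ∏ i, ψ i (x i) (y i)) ^ 2 ≤
      ∑ x : ι → X, (∏ i, κ i (x i)) * c x ^ 2 := by
  have e : inst = fun a b => Classical.propDecidable (a = b) := Subsingleton.elim _ _
  subst e
  exact tensor_le_aux w hw κ hκ ψ h c

theorem le_tensor {ι : Type u} [Fintype ι] [inst : DecidableEq ι] (w : ι → Y → ℝ)
    (hw : ∀ i y, 0 ≤ w i y)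
    (κ : ι → X → ℝ) (hκ : ∀ i x, 0 ≤ κ i x) (ψ : ι → X → Y → ℝ)
    (h : ∀ i (a : X → ℝ), ∑ x, κ i x * a x ^ 2 ≤ ∑ y, w i y * (∑ x, a x * ψ i x y) ^ 2)
    (c : (ι → X) → ℝ) :
    ∑ x : ι → X, (∏ i, κ i (x i)) * c x ^ 2 ≤
      ∑ y : ι → Y, (∏ i, w i (y i)) * (∑ x : ι → X, c x * ∏ i, ψ i (x i) (y i)) ^ 2 := by
  have e : inst = fun a b => Classical.propDecidable (a = b) := Subsingleton.elim _ _
  subst e
  exact le_tensor_aux w hw κ hκ ψ h c

/-- change of basis in every coordinate -/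
lemma basis_change {X' : Type} [Fintype X'] {ι : Type u} [Fintype ι] [DecidableEq ι]
    (c : (ι → X) → ℝ)
    (L : ι → X → X' → ℝ) (e : ι → X' → ℝ) :
    ∑ x : ι → X, c x * ∏ i, (∑ z : X', L i (x i) z * e i z) =
      ∑ z : ι → X', (∑ x : ι → X, c x * ∏ i, L i (x i) (z i)) * ∏ i, e i (z i) := by
  simp_rw [Finset.sum_mul]
  rw [Finset.sum_comm]
  refine Finset.sum_congr rfl fun x _ => ?_
  rw [Finset.prod_univ_sum, Finset.mul_sum, Fintype.piFinset_univ]
  refine Finset.sum_congr rfl fun z _ => ?_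
  rw [Finset.prod_mul_distrib]
  ring

end

end Pool.Agent.Maynard
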