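import Pool.Agent.Lib.Maynard.Push

/-!
# The concrete weights and the upper bound in the model
-/

open Finset

namespace Pool.Agent.Maynard

/-- the profile: `1/(j+1)` for `j < T` -/
noncomputable def gT (T j : ℕ) : ℝ := if j < T then 1 / ((j:ℝ) + 1) else 0

/-- the profile as a function of integers -/
noncomputable def gz (Z T n : ℕ) : ℝ := gT T (Nat.log Z n)

lemma gT_nonneg (T j : ℕ) : 0 ≤ gT T j := by unfold gT; split_ifs <;> positivity

lemma gT_le_one (T j : ℕ) : gT T j ≤ 1 := by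
  unfold gT
  split_ifs
  · rw [div_le_one (by positivity)]
    have : (0:ℝ) ≤ j := Nat.cast_nonneg _
    linarith
  · exact zero_le_one

lemma gT_anti (T : ℕ) {j j' : ℕ} (h : j ≤ j') : gT T j' ≤ gT T j := by
  unfold gT
  by_cases h1 : j' < T
  · rw [if_pos h1, if_pos (lt_of_le_of_lt h h1)]
    have : (j:ℝ) ≤ j' := by exact_mod_cast h
    gcongr
  · rw [if_neg h1]
    exact gT_nonneg _ _

lemma gz_nonneg (Z T n : ℕ) : 0 ≤ gz Z T n := gT_nonneg _ _
lemma gz_le_one (Z T n : ℕ) : gz Z T n ≤ 1 := gT_le_one _ _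
lemma gz_anti (Z T : ℕ) {n n' : ℕ} (h : n ≤ n') : gz Z T n' ≤ gz Z T n :=
  gT_anti T (Nat.log_mono_right h)

variable {P : Finset ℕ} {k : ℕ}

/-- total level -/
def lev (Z : ℕ) (χ : Col P k) : ℕ := ∑ i, (Nat.log Z (cp χ i) + 1)

/-- the function `y` -/
noncomputable def yy (Z T M : ℕ) (χ : Col P k) : ℝ :=
  (∏ i, gz Z T (cp χ i)) * (if lev Z χ ≤ M then 1 else 0)

/-- the coefficients `c` -/
noncomputable def cc (Z T M : ℕ) (χ : Col P k) : ℝ :=
  yy Z T M χ / pc (fun p => (p:ℝ) - 1) χ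

lemma yy_nonneg (Z T M : ℕ) (χ : Col P k) : 0 ≤ yy Z T M χ := by
  unfold yy
  refine mul_nonneg (Finset.prod_nonneg fun i _ => gz_nonneg _ _ _) ?_
  split_ifs <;> norm_num

lemma yy_le (Z T M : ℕ) (χ : Col P k) : yy Z T M χ ≤ ∏ i, gz Z T (cp χ i) := by
  unfold yy
  refine mul_le_of_le_one_right (Finset.prod_nonneg fun i _ => gz_nonneg _ _ _) ?_
  split_ifs <;> norm_num

lemma yy_le_one (Z T M : ℕ) (χ : Col P k) : yy Z T M χ ≤ 1 :=
  (yy_le Z T M χ).trans (Finset.prod_le_one (fun _ _ => gz_nonneg _ _ _) fun _ _ => gz_le_one _ _ _)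

lemma cp_le (hP : ∀ p ∈ P, 0 < p) {χ χ' : Col P k} (h : ∀ p, χ p = none ∨ χ p = χ' p) (i : Fin k) :
    cp χ i ≤ cp χ' i := by
  unfold cp
  refine val_le hP fun p hp => ?_
  simp only [cl, decide_eq_true_eq] at hp ⊢
  rcases h p with h1 | h1
  · rw [h1] at hp; exact absurd hp (by simp)
  · rw [← h1]; exact hp

lemma yy_anti (hP : ∀ p ∈ P, 0 < p) (Z T M : ℕ) {χ χ' : Col P k}
    (h : ∀ p, χ p = none ∨ χ p = χ' p) : yy Z T M χ' ≤ yy Z T M χ := by
  unfold yy
  have h1 : ∀ i, cp χ i ≤ cp χ' i := cp_le hP h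
  have h2 : lev Z χ ≤ lev Z χ' := by
    unfold lev
    refine Finset.sum_le_sum fun i _ => ?_
    have := Nat.log_mono_right (b := Z) (h1 i)
    omega
  refine mul_le_mul (Finset.prod_le_prod (fun i _ => gz_nonneg _ _ _) fun i _ =>
    gz_anti Z T (h1 i)) ?_ (by split_ifs <;> norm_num)
    (Finset.prod_nonneg fun i _ => gz_nonneg _ _ _)
  by_cases h3 : lev Z χ' ≤ M
  · rw [if_pos h3, if_pos (h2.trans h3)]
  · rw [if_neg h3]; split_ifs <;> norm_num

lemma lev_of_yy {Z T M : ℕ} {χ : Col P k} (h : yy Z T M χ ≠ 0) : lev Z χ ≤ M := by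
  by_contra hcon
  apply h
  unfold yy
  rw [if_neg hcon, mul_zero]

/-- the product of all coloured primes -/
def tot (χ : Col P k) : ℕ := val (fun p => decide (χ p ≠ none))

lemma tot_eq (χ : Col P k) : tot χ = ∏ i, cp χ i := by
  unfold tot cp val
  rw [Finset.prod_comm]
  refine Finset.prod_congr rfl fun p _ => ?_
  cases h : χ p with
  | none => simp [cl, h]
  | some j =>
    rw [Finset.prod_eq_single j]
    · simp [cl, h]
    · intro i _ hi
      simp [cl, h, Ne.symm hi]
    · intro h; exact absurd (Finset.mem_univ _) h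

lemma tot_le {Z T M : ℕ} (hZ : 2 ≤ Z) {χ : Col P k} (h : yy Z T M χ ≠ 0) :
    tot χ ≤ Z ^ M := by
  rw [tot_eq]
  have h1 : ∏ i, cp χ i ≤ ∏ i : Fin k, Z ^ (Nat.log Z (cp χ i) + 1) :=
    Finset.prod_le_prod' fun i _ => (Nat.lt_pow_succ_log_self (by omega) _).le
  refine h1.trans ?_
  rw [Finset.prod_pow_eq_pow_sum]
  exact Nat.pow_le_pow_right (by omega) (lev_of_yy h)

lemma pc_pos {a : ℕ → ℝ} (ha : ∀ p ∈ P, 0 < a p) (χ : Col P k) : 0 < pc a χ := by
  unfold pc
  refine Finset.prod_pos fun p _ => ?_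
  split_ifs
  · exact one_pos
  · exact ha p p.2

lemma phi_pos (hP : ∀ p ∈ P, 2 ≤ p) : ∀ p ∈ P, (0:ℝ) < (p:ℝ) - 1 := fun p hp => by
  have : (2:ℝ) ≤ p := by exact_mod_cast hP p hp
  linarith

lemma cc_nonneg (hP : ∀ p ∈ P, 2 ≤ p) (Z T M : ℕ) (χ : Col P k) : 0 ≤ cc Z T M χ :=
  div_nonneg (yy_nonneg _ _ _ _) (pc_pos (phi_pos hP) χ).le

/-- upper density -/
noncomputable def aup (p : ℕ) : ℝ := (p:ℝ) / ((p:ℝ) - 1) ^ 2

lemma aup_nonneg (p : ℕ) : 0 ≤ aup p := by unfold aup; positivity

/-- `A_2^+` -/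
noncomputable def A2 (P : Finset ℕ) (Z T : ℕ) : ℝ := ∑ B : P → Bool, gz Z T (val B) ^ 2 * pm aup B

lemma A2_nonneg (P : Finset ℕ) (Z T : ℕ) : 0 ≤ A2 P Z T :=
  Finset.sum_nonneg fun B _ => mul_nonneg (sq_nonneg _) (pm_nonneg (fun p _ => aup_nonneg p) B)

theorem EG_cc_upper (hP : ∀ p ∈ P, p.Prime) (hk : ∀ p ∈ P, k ≤ p) (q : ℕ) (j : Col P k)
    (Z T M : ℕ) :
    EG (wq q j) (cc Z T M) ≤
      ((k:ℝ) + 1) ^ (2 * (P.filter (· ∣ q)).card) * (A2 P Z T) ^ k := by
  have hP2 : ∀ p ∈ P, 2 ≤ p := fun p hp => (hP p hp).two_le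
  have hP0 : ∀ p ∈ P, 0 < p := fun p hp => (hP p hp).pos
  refine (EG_upper hP hk q j (cc Z T M)).trans ?_
  -- local weights
  set t : ↥P → Option (Fin k) → ℝ := fun p x =>
    kq k q p x / (if x = none then 1 else ((p:ℝ) - 1) ^ 2) with ht
  have h1 : ∑ χ : Col P k, (∏ p : P, kq k q p (χ p)) * cc Z T M χ ^ 2 =
      ∑ χ : Col P k, yy Z T M χ ^ 2 * ∏ p : P, t p (χ p) := by
    refine Finset.sum_congr rfl fun χ _ => ?_
    unfold cc pc
    rw [div_pow, ← Finset.prod_pow]
    simp only [ht]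
    rw [Finset.prod_div_distrib]
    have : ∏ p : P, (if χ p = none then (1:ℝ) else (p:ℝ) - 1) ^ 2 =
        ∏ p : P, (if χ p = none then (1:ℝ) else ((p:ℝ) - 1) ^ 2) :=
      Finset.prod_congr rfl fun p _ => by split_ifs <;> ring
    rw [this]
    ring
  rw [h1]
  have ht0 : ∀ p x, 0 ≤ t p x := by
    intro p x
    simp only [ht]
    refine div_nonneg ?_ ?_
    · unfold kq
      split_ifs <;> positivity
    · split_ifs <;> positivity
  have key := push' (ι := P) (X := Option (Fin k)) (Z := Fin k → Bool)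
    (fun p x => if (p:ℕ) ∣ q then (fun _ => false) else (fun i => cl i x)) t ht0
    (fun χ => yy Z T M χ ^ 2) (fun z => ∏ i, gz Z T (val (fun p => z p i)) ^ 2) ?_ ?_
    (fun p z => (if (p:ℕ) ∣ q then ((k:ℝ) + 1) ^ 2 else 1) * ∏ i, (if z i then aup p else 1)) ?_
  · refine key.trans (le_of_eq ?_)
    have e1 : ∀ z : P → (Fin k → Bool), (∏ i, gz Z T (val (fun p => z p i)) ^ 2) *
        ∏ p : P, ((if (p:ℕ) ∣ q then ((k:ℝ) + 1) ^ 2 else 1) * ∏ i, (if z p i then aup p else 1)) =
        ((k:ℝ) + 1) ^ (2 * (P.filter (· ∣ q)).card) *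
        ((∏ i, gz Z T (val (fun p => z p i)) ^ 2) * ∏ p : P, ∏ i, (if z p i then aup p else 1)) := by
      intro z
      rw [Finset.prod_mul_distrib]
      have : ∏ p : P, (if (p:ℕ) ∣ q then ((k:ℝ) + 1) ^ 2 else 1) =
          ((k:ℝ) + 1) ^ (2 * (P.filter (· ∣ q)).card) := by
        rw [Finset.prod_coe_sort P (fun p => if p ∣ q then ((k:ℝ) + 1) ^ 2 else 1),
          ← Finset.prod_filter, Finset.prod_const, ← pow_mul]
      rw [this]
      ring
    simp_rw [e1]
    rw [← Finset.mul_sum, tuple_prod (fun _ B => gz Z T (val B) ^ 2) aup]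
    congr 1
    rw [Finset.prod_const, Finset.card_univ, Fintype.card_fin]
    rfl
  · intro χ
    have h2 : yy Z T M χ ^ 2 ≤ (∏ i, gz Z T (cp χ i)) ^ 2 :=
      pow_le_pow_left₀ (yy_nonneg _ _ _ _) (yy_le _ _ _ _) 2
    refine h2.trans ?_
    rw [← Finset.prod_pow]
    refine Finset.prod_le_prod (fun i _ => sq_nonneg _) fun i _ => ?_
    refine pow_le_pow_left₀ (gz_nonneg _ _ _) (gz_anti Z T ?_) 2
    unfold cp
    refine val_le hP0 fun p hp => ?_
    by_cases hpq : (p:ℕ) ∣ q
    · simp [hpq] at hp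
    · simpa [hpq] using hp
  · intro z
    exact Finset.prod_nonneg fun i _ => sq_nonneg _
  · intro p z
    have hp2 : (2:ℝ) ≤ p := by exact_mod_cast hP2 p p.2
    have hp1 : (0:ℝ) < (p:ℝ) - 1 := by linarith
    have hprod : 0 ≤ ∏ i, (if z i then aup (p:ℕ) else 1) := by
      refine Finset.prod_nonneg fun i _ => ?_
      split_ifs
      · exact aup_nonneg _
      · exact zero_le_one
    have hsplit := Fintype.sum_option (fun x : Option (Fin k) =>
      if (if (p:ℕ) ∣ q then (fun _ => false) else (fun i => cl i x)) = z then t p x else 0)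
    rw [hsplit]
    by_cases hpq : (p:ℕ) ∣ q
    · simp only [hpq, if_true]
      by_cases hz : (fun _ => false) = z
      · subst hz
        simp only [if_true, ht, kq, hpq, reduceCtorEq, if_false]
        have : ((k:ℝ) + 1) * ((p:ℝ) - 1) ^ 2 / ((p:ℝ) - 1) ^ 2 = (k:ℝ) + 1 := by
          field_simp
        simp only [this]
        simp
        nlinarith
      · simp only [hz, if_false]
        simp only [Finset.sum_const_zero, add_zero]
        positivity
    · simp only [hpq, if_false, one_mul]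
      by_cases h0 : z = fun _ => false
      · subst h0
        have : ∀ i : Fin k, (fun j => cl j (some i)) ≠ (fun _ => false : Fin k → Bool) := by
          intro i hi
          have := congrFun hi i
          simp [cl] at this
        rw [Finset.sum_eq_zero (fun i _ => by rw [if_neg (this i)])]
        simp [cl, ht, kq, hpq]
      · have h1 : (fun i => cl i (none : Option (Fin k))) ≠ z := by
          intro h; apply h0; rw [← h]; funext i; simp [cl]
        rw [if_neg h1, zero_add]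
        by_cases h2 : ∃ i : Fin k, (fun j => cl j (some i)) = z
        · obtain ⟨i, hi⟩ := h2
          subst hi
          have h3 : ∀ j : Fin k, ((fun l => cl l (some j)) = (fun l => cl l (some i))) ↔ j = i := by
            intro j
            constructor
            · intro h
              have := congrFun h i
              simpa [cl, eq_comm] using this
            · rintro rfl; rfl
          simp only [h3, Finset.sum_ite_eq', Finset.mem_univ, if_true]
          rw [Finset.prod_eq_single i]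
          · simp [cl, ht, kq, hpq, aup]
          · intro j _ hj
            have : cl j (some i) = false := by simp [cl, Ne.symm hj]
            simp [this]
          · intro h; exact absurd (Finset.mem_univ _) h
        · push Not at h2
          rw [Finset.sum_eq_zero]
          · exact hprod
          · intro i _
            rw [if_neg (h2 i)]

end Pool.Agent.Maynard
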